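import Pool.Agent.N109.Slab.Ratio
import Pool.Agent.N990.Slab.Infl
import Pool.Agent.N986.SL.Bridge
import Pool.Agent.N986.PB.Small

/-!
# The infinite volume state of the slab satisfies the hypotheses of the limit theorems
-/

set_option autoImplicit false
set_option linter.unusedSectionVars false
set_option linter.unusedVariables false
set_option linter.style.haveILetI false

open MeasureTheory Matrix Finset Filter
open scoped Matrix.Norms.Frobenius ENNReal

namespace Pool.Agent.N109.Slab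

open Pool.Agent.N990 Pool.Agent.N986.PB

noncomputable section

variable {N D L : ℕ} {G : Subgroup (UU N)}

/-! ### a one parameter curve -/

lemma mt_inj {a b : G} (h : mt a = mt b) : a = b := Subtype.ext (Subtype.ext h)

/-- distances in the group -/
lemma norm_mt_sub (a b : G) : ‖mt a - mt b‖ = ‖mt (b⁻¹ * a) - 1‖ := by
  have h : mt b * (mt (b⁻¹ * a) - 1) = mt a - mt b := by
    rw [mul_sub, mul_one, ← mt_mul, mul_inv_cancel_left]
  rw [← h, norm_mt_mul]

/-- a closed subgroup without small elements is finite -/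
lemma finite_of_gap (hG : IsClosed (G : Set (UU N))) {r : ℝ} (hr : 0 < r)
    (h : ∀ g : G, ‖mt g - 1‖ < r → g = 1) : Finite G := by
  haveI : CompactSpace (UU N) := inferInstance
  have hc : IsCompact (Set.range fun g : G => mt g) := by
    have h1 : IsCompact (G : Set (UU N)) := hG.isCompact
    have h2 : (Set.range fun g : G => mt g) = (fun u : UU N => (u : Mt N)) '' (G : Set (UU N)) := by
      ext M
      constructor
      · rintro ⟨g, rfl⟩; exact ⟨g.1, g.2, rfl⟩
      · rintro ⟨u, hu, rfl⟩; exact ⟨⟨u, hu⟩, rfl⟩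
    rw [h2]
    exact h1.image continuous_subtype_val
  obtain ⟨t, -, ht, htc⟩ := (Metric.totallyBounded_iff.1 hc.totallyBounded (r / 2) (by positivity)).imp
    fun t ht => (⟨trivial, ht.1, ht.2⟩ : True ∧ _ ∧ _)
  have hch : ∀ g : G, ∃ y ∈ t, dist (mt g) y < r / 2 := by
    intro g
    have h1 := htc ⟨g, rfl⟩
    simp only [Set.mem_iUnion, Metric.mem_ball] at h1
    obtain ⟨y, hy, h2⟩ := h1
    exact ⟨y, hy, h2⟩
  choose f hf hfd using hch
  haveI : Finite t := ht
  refine Finite.of_injective (fun g => (⟨f g, hf g⟩ : t)) fun a b hab => ?_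
  have h3 : f a = f b := congrArg Subtype.val hab
  have h4 : ‖mt a - mt b‖ < r := by
    rw [← dist_eq_norm]
    have h5 := dist_triangle_right (mt a) (mt b) (f a)
    have h6 := hfd a
    have h7 := hfd b
    rw [← h3] at h7
    linarith
  rw [norm_mt_sub] at h4
  have h8 := h _ h4
  exact (inv_mul_eq_one.1 h8).symm

/-- **An infinite closed group contains a smooth curve.** -/
theorem exists_oneP (hG : IsClosed (G : Set (UU N))) [Infinite G] :
    ∃ (X : Mt N) (γ : ℝ → G), OneP X γ 1 := by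
  obtain ⟨S⟩ := exists_lieG hG
  have hg : S.g ≠ ⊥ := by
    intro hg
    have h1 : ∀ M, S.P M = 0 := fun M => by
      have := S.P_mem M
      rw [hg] at this
      simpa using this
    have h2 : Finite G := by
      refine finite_of_gap hG (r := 1 / (S.C + 1)) (by have := S.hC; positivity) fun g hg' => ?_
      have h3 := S.P_est g
      rw [h1, sub_zero] at h3
      by_contra hne
      have h4 : 0 < ‖mt g - 1‖ := by
        rw [norm_pos_iff, sub_ne_zero]
        intro h5
        exact hne (mt_inj (h5.trans mt_one.symm))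
      have h6 : ‖mt g - 1‖ * (S.C + 1) < 1 := by
        rwa [lt_div_iff₀ (by have := S.hC; positivity)] at hg'
      have hC := S.hC
      have h7 : S.C * ‖mt g - 1‖ ^ 2 = (‖mt g - 1‖ * S.C) * ‖mt g - 1‖ := by ring
      rw [h7] at h3
      have h8 : (‖mt g - 1‖ * S.C) * ‖mt g - 1‖ < 1 * ‖mt g - 1‖ := by
        refine mul_lt_mul_of_pos_right ?_ h4
        nlinarith
      linarith
    exact not_finite G
  obtain ⟨w, hw, hw0⟩ := Submodule.exists_mem_ne_zero_of_ne_bot hg
  have hwn : 0 < ‖w‖ := norm_pos_iff.2 hw0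
  have hX : (‖w‖⁻¹ • w) ∈ S.g := S.g.smul_mem _ hw
  have nX : ‖(‖w‖⁻¹ • w)‖ = 1 := by
    rw [norm_smul, norm_inv, norm_norm, inv_mul_cancel₀ hwn.ne']
  refine ⟨‖w‖⁻¹ • w, fun s => S.E (s • ⟨_, hX⟩), ⟨nX, ?_, zero_le_one, fun s hs => ?_⟩⟩
  · have h1 := S.E_est 0 (by simp)
    rw [zero_smul]
    have h2 : ‖mt (S.E 0) - 1‖ ≤ 0 := by simpa using h1
    have h3 : mt (S.E 0) = 1 := by
      have := norm_le_zero_iff.1 h2
      exact sub_eq_zero.1 this
    exact mt_inj (h3.trans mt_one.symm)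
  · have hn : ‖(s • (⟨_, hX⟩ : S.g))‖ = |s| := by
      rw [norm_smul, Real.norm_eq_abs]
      show |s| * ‖(‖w‖⁻¹ • w)‖ = |s|
      rw [nX, mul_one]
    have h1 := S.E_est (s • ⟨_, hX⟩) (by rw [hn]; exact hs)
    rw [hn] at h1
    rw [one_mul, ← sq_abs]
    exact h1

/-! ### the shift identity -/

section gibbs

variable [MeasurableSpace G] [BorelSpace G] {μ : Measure G} [IsProbabilityMeasure μ]
  [μ.IsMulLeftInvariant] {β : ℝ}

lemma In_shift' {ι K : Type*} [DecidableEq ι] [Group K] [MeasurableSpace K] [MeasurableMul K]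
    {ν : Measure K} [SigmaFinite ν] [ν.IsMulLeftInvariant] (A : Finset ι) (f : (ι → K) → ℝ≥0∞)
    (v ψ : ι → K) : In ν A f (v * ψ) = In ν A (fun φ => f (v * φ)) ψ := by
  unfold In lmarginal
  have h := lintegral_mul_left_eq_self (μ := Measure.pi fun _ : A => ν)
    (fun y : A → K => f (Function.updateFinset (v * ψ) A y)) (fun i : A => v i)
  rw [← h]
  refine lintegral_congr fun y => ?_
  congr 1
  funext i
  simp only [Function.updateFinset, Pi.mul_apply]
  split_ifs with hi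
  · rfl
  · rfl

open Pool.Agent.N986.SL in
/-- the shift identity -/
theorem shf_of_ax {Q : Measure (Cf G D L)} (hQ : AxGibbs μ chi β Q) : Shf G D L β Q := by
  haveI := sctG (G := G)
  refine ⟨hQ.prob, fun V v hv F hF => ?_⟩
  have hXm : Measurable fun σ : Cf G D L => ENNReal.ofReal (Real.exp (-(β * ∑ x ∈ Ns V,
      (hx (v * σ) x - hx σ x)))) := by
    refine ENNReal.measurable_ofReal.comp (Real.measurable_exp.comp (Measurable.neg ?_))
    exact (Finset.measurable_fun_sum _ fun x _ =>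
      ((hx_meas x).comp (mulv_meas v)).sub (hx_meas x)).const_mul β
  have hd := hQ.dlr V (fun σ => F (v * σ) * ENNReal.ofReal (Real.exp (-(β * ∑ x ∈ Ns V,
      (hx (v * σ) x - hx σ x))))) ((hF.comp (mulv_meas v)).mul hXm)
  rw [hQ.dlr V F hF, hd]
  refine lintegral_congr fun φ => ?_
  unfold Pool.Agent.N986.PB.ev
  congr 1
  have e1 : ∀ σ : Cf G D L, axw chi β V σ * (F (v * σ) * ENNReal.ofReal (Real.exp (-(β *
      ∑ x ∈ Ns V, (hx (v * σ) x - hx σ x))))) = axw chi β V (v * σ) * F (v * σ) := by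
    intro σ
    rw [axw_eq, axw_eq]
    have : ∀ a b : ℝ, ENNReal.ofReal (Real.exp (-(β * a))) *
        (F (v * σ) * ENNReal.ofReal (Real.exp (-(β * (b - a))))) =
        ENNReal.ofReal (Real.exp (-(β * b))) * F (v * σ) := by
      intro a b
      rw [mul_comm (F (v * σ)), ← mul_assoc, ← ENNReal.ofReal_mul (Real.exp_pos _).le,
        ← Real.exp_add]
      congr 3; ring
    rw [← this (∑ x ∈ Ns V, hx σ x) (∑ x ∈ Ns V, hx (v * σ) x), Finset.sum_sub_distrib]
  simp only [e1]
  have h2 := In_shift' (ν := Measure.pi fun _ : Lab D L => μ) V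
    (fun σ => axw chi β V σ * F σ) v φ
  have h3 : In (Measure.pi fun _ : Lab D L => μ) V (fun σ => axw chi β V σ * F σ) (v * φ) =
      In (Measure.pi fun _ : Lab D L => μ) V (fun σ => axw chi β V σ * F σ) φ := by
    refine In_congr _ fun i hi => ?_
    rw [Pi.mul_apply, hv i hi, one_mul]
  rw [← h3]
  exact h2

open Pool.Agent.N986.SL in
/-- the tail bound -/
theorem mb_of_ax (hG : IsClosed (G : Set (UU N))) (μ : Measure G) [IsProbabilityMeasure μ]
    [μ.IsMulLeftInvariant] (hL : 1 ≤ L) {e : ℝ} (he : 0 < e) :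
    ∃ β₀ ≥ (1 : ℝ), ∀ β ≥ β₀, ∀ Q : Measure (Cf G D L), AxGibbs μ chi β Q → ∀ y a,
      Q.real {σ : Cf G D L | β ^ (-1 / 2 + e) / 2 < ‖Yf σ y a‖} ≤ Real.exp (-β ^ (e / 2)) := by
  obtain ⟨X⟩ := exists_lieG hG
  have hlam : 0 < lam0 L := lam0_pos hL
  obtain ⟨α, hα0, hα⟩ := exists_rate (m := 0) le_rfl (lam := lam0 L) (by simpa using hlam)
  obtain ⟨cv, hcv, nv, hnv, hvol⟩ := vol_pi (D := D) (L := L) μ
  obtain ⟨k₀, hk₀, H⟩ := Mach.small2 (c := cstS X D L α cv nv hlam hα0 hcv hnv)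
    (ν := Measure.pi fun _ : Lab D L => μ) (Y := Lab D L → Mt N) (V := Lab D L → X.g)
  obtain ⟨β₀, hβ₀, H1⟩ := H (e / 4) (e / 2) (by positivity) (by linarith)
  have A1 := Mach.ev_rpow (a := -1 / 2 + e) (b := -1 / 2 + e / 2) 2 (by linarith)
  obtain ⟨β₁, hβ₁⟩ := eventually_atTop.1 A1
  refine ⟨max β₀ β₁, hβ₀.trans (le_max_left _ _), fun β hβ Q hQ y a => ?_⟩
  have hβ0 := H1 β ((le_max_left _ _).trans hβ)
  have hβ1 := hβ₁ β ((le_max_right _ _).trans hβ)
  haveI := hQ.prob
  -- the box around `y`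
  obtain ⟨V, hV⟩ : ∃ V : Finset (Site D), ∀ z, N990.dd y z ≤ Mach.rad k₀ β → z ∈ V := by
    refine ⟨Fintype.piFinset fun i => Finset.Icc (y i - Mach.rad k₀ β) (y i + Mach.rad k₀ β),
      fun z hz => ?_⟩
    rw [Fintype.mem_piFinset]
    intro i
    have := N990.dd_le.1 hz i
    rw [Finset.mem_Icc]
    omega
  have hyV : y ∈ V := hV y (by rw [N990.dd_self]; exact Nat.zero_le _)
  have h2 := fun ψ => hβ0 (Site D) (Site D) (sysS μ X hlam hα0 hα hcv hnv hvol V) V subset_rfl y hyV ψ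
    fun z hz hd => absurd (hV z hd) hz
  set E : Set (Cf G D L) := {σ : Cf G D L | β ^ (-1 / 2 + e) / 2 < ‖Yf σ y a‖} with hE
  have mE : MeasurableSet E := measurableSet_lt measurable_const (Yf_meas y a)
  have h3 : Q E ≤ ENNReal.ofReal (Real.exp (-β ^ (e / 2))) := by
    have h4 : Q E = ∫⁻ φ, E.indicator 1 φ ∂Q := by rw [lintegral_indicator_one mE]
    rw [h4, hQ.dlr V _ (measurable_one.indicator mE)]
    calc _ ≤ ∫⁻ φ, ENNReal.ofReal (Real.exp (-β ^ (e / 2))) ∂Q := by
          refine lintegral_mono fun ψ => ?_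
          refine le_trans ?_ (h2 ψ)
          have e0 : axw (L := L) (G := G) chi β V =
              (sysS μ X hlam hα0 hα hcv hnv hvol V).w β := by
            funext φ
            rw [axw_eq]
            rfl
          have h5 : Pool.Agent.N986.PB.ev (Measure.pi fun _ : Lab D L => μ) (axw chi β V) V
              (E.indicator 1) ψ ≤
              Pool.Agent.N986.PB.ev (Measure.pi fun _ : Lab D L => μ) (axw chi β V) V
                (Mach.ind fun φ => β ^ (-1 / 2 + e / 2) < nrmS (φ y)) ψ := by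
            unfold Pool.Agent.N986.PB.ev
            refine ENNReal.div_le_div_right (In_mono (fun φ => mul_le_mul_right ?_ _) _) _
            by_cases hφ : φ ∈ E
            · rw [Set.indicator_of_mem hφ]
              unfold Mach.ind
              rw [if_pos]
              · exact le_rfl
              · have h6 : β ^ (-1 / 2 + e) / 2 < ‖Yf φ y a‖ := hφ
                have h7 : ‖Yf φ y a‖ ≤ nrmS (φ y) := le_nrmS (φ y) a
                linarith
            · rw [Set.indicator_of_notMem hφ]; exact zero_le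
          refine h5.trans (le_of_eq ?_)
          rw [e0]
          congr
    _ = _ := by rw [lintegral_const, measure_univ, mul_one]
  have h8 := ENNReal.toReal_mono ENNReal.ofReal_ne_top h3
  rwa [ENNReal.toReal_ofReal (Real.exp_pos _).le] at h8

open Pool.Agent.N986.SL in
/-- **The covariances of the slab at weak coupling.** -/
theorem ax_ratio (hG : IsClosed (G : Set (UU N))) [Infinite G] (μ : Measure G)
    [IsProbabilityMeasure μ] [μ.IsMulLeftInvariant] (hL : 1 ≤ L) {i0 i1 : Fin D} (h01 : i0 ≠ i1)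
    {m : ℝ} (hm0 : 0 < m) (hm : 2 * Real.cosh m - 2 = lam0 L) {ε : ℝ} (hε : 0 < ε) :
    ∃ (X : Mt N) (R : ℕ), ‖X‖ = 1 ∧ 3 ≤ R ∧ ∃ β₀ ≥ (1 : ℝ), ∀ β ≥ β₀,
      ∀ Q : Measure (Cf G D L), AxGibbs μ chi β Q →
      0 < ∫ σ, pr (box D (R + 1)) (fR i0 i1 R 0) (sc X σ) ^ 2 ∂Q -
          (∫ σ, pr (box D (R + 1)) (fR i0 i1 R 0) (sc X σ) ∂Q) ^ 2 ∧
      0 < ∫ σ, pr (box D (R + 1)) (fR i0 i1 R 2) (sc X σ) *
            pr (box D (R + 1)) (fR i0 i1 R 0) (sc X σ) ∂Q -
          (∫ σ, pr (box D (R + 1)) (fR i0 i1 R 0) (sc X σ) ∂Q) *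
            ∫ σ, pr (box D (R + 1)) (fR i0 i1 R 0) (sc X σ) ∂Q ∧
      Real.exp (-(2 * (m + ε))) * (∫ σ, pr (box D (R + 1)) (fR i0 i1 R 0) (sc X σ) ^ 2 ∂Q -
          (∫ σ, pr (box D (R + 1)) (fR i0 i1 R 0) (sc X σ) ∂Q) ^ 2) ≤
        ∫ σ, pr (box D (R + 1)) (fR i0 i1 R 2) (sc X σ) *
            pr (box D (R + 1)) (fR i0 i1 R 0) (sc X σ) ∂Q -
          (∫ σ, pr (box D (R + 1)) (fR i0 i1 R 0) (sc X σ) ∂Q) *
            ∫ σ, pr (box D (R + 1)) (fR i0 i1 R 0) (sc X σ) ∂Q := by
  obtain ⟨X, γ, h1⟩ := exists_oneP hG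
  obtain ⟨R, hR, β₀, hβ₀, H⟩ := ratio (D := D) (L := L) h1 (e := 1 / 10) (by norm_num) le_rfl hL
    h01 hm0 hm hε
  obtain ⟨β₁, hβ₁, H1⟩ := mb_of_ax (D := D) hG μ hL (e := 1 / 10) (by norm_num)
  exact ⟨X, R, h1.nX, hR, max β₀ β₁, hβ₀.trans (le_max_left _ _), fun β hβ Q hQ =>
    H β ((le_max_left _ _).trans hβ) Q ⟨shf_of_ax hQ, H1 β ((le_max_right _ _).trans hβ) Q hQ⟩⟩

end gibbs

end

end Pool.Agent.N109.Slab
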