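import Pool.Agent.N990.Mach.Iface

/-!
# Harmonic extension with exponential decay: the soft version

A sum of bilinear forms of range one, bounded and coercive (no symmetry), on fields with values in
a finite dimensional normed space: the harmonic extension into a finite set of sites exists and
decays exponentially, with constants depending only on the bound, on the coercivity and on the
number of the forms at a site.
-/

set_option autoImplicit false
set_option linter.unusedSectionVars false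

open Finset
open scoped Classical

namespace Pool.Agent.N109.Soft

open Pool.Agent.N990.Mach

noncomputable section

/-- the rate -/
def al (c0 Cb Cn : ℝ) : ℝ := min 1 (c0 / (24 * (Cb + 1) * Cn))

/-- the constant -/
def Ch (c0 Cb Cn : ℝ) : ℝ := 1 + 2 * Cn * Cb * Real.exp (al c0 Cb Cn) / c0

lemma al_pos {c0 Cb Cn : ℝ} (h0 : 0 < c0) (h1 : 0 ≤ Cb) (h2 : 1 ≤ Cn) : 0 < al c0 Cb Cn := by
  unfold al
  refine lt_min one_pos (by positivity)

lemma Ch_ge {c0 Cb Cn : ℝ} (h0 : 0 < c0) (h1 : 0 ≤ Cb) (h2 : 1 ≤ Cn) : 1 ≤ Ch c0 Cb Cn := by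
  unfold Ch
  have : 0 ≤ 2 * Cn * Cb * Real.exp (al c0 Cb Cn) / c0 := by positivity
  linarith

lemma al_small {c0 Cb Cn : ℝ} (h0 : 0 < c0) (h1 : 0 ≤ Cb) (h2 : 1 ≤ Cn) :
    2 * Cb * Cn * ((Real.exp (al c0 Cb Cn) - 1) * Real.exp (al c0 Cb Cn)) ≤ c0 / 2 := by
  set a := al c0 Cb Cn with ha
  have ha0 : 0 < a := al_pos h0 h1 h2
  have ha1 : a ≤ 1 := min_le_left _ _
  have ha2 : a ≤ c0 / (24 * (Cb + 1) * Cn) := min_le_right _ _
  have e1 : Real.exp a - 1 ≤ 2 * a := by
    have := Real.abs_exp_sub_one_le (x := a) (by rw [abs_of_pos ha0]; exact ha1)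
    rw [abs_of_pos ha0] at this
    exact (le_abs_self _).trans this
  have e2 : Real.exp a ≤ 3 := by
    have := Real.exp_one_lt_d9
    have h := Real.exp_le_exp.2 ha1
    linarith
  have e0 : 0 ≤ Real.exp a - 1 := by have := Real.add_one_le_exp a; linarith
  have e3 : (Real.exp a - 1) * Real.exp a ≤ 6 * a := by
    calc (Real.exp a - 1) * Real.exp a ≤ (2 * a) * 3 :=
          mul_le_mul e1 e2 (Real.exp_pos _).le (by positivity)
      _ = 6 * a := by ring
  have e4 : 24 * (Cb + 1) * Cn * a ≤ c0 := by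
    rw [le_div_iff₀ (by positivity)] at ha2
    linarith
  calc 2 * Cb * Cn * ((Real.exp a - 1) * Real.exp a) ≤ 2 * Cb * Cn * (6 * a) :=
        mul_le_mul_of_nonneg_left e3 (by positivity)
    _ ≤ (24 * (Cb + 1) * Cn * a) / 2 := by
        have : 0 ≤ Cn * a := by positivity
        nlinarith
    _ ≤ c0 / 2 := by linarith

section main

variable {ι τ V : Type*} [NormedAddCommGroup V] [NormedSpace ℝ V] [FiniteDimensional ℝ V]

/-- the data -/
structure Dat (ι τ V : Type*) [NormedAddCommGroup V] [NormedSpace ℝ V] (c0 Cb Cn : ℝ) where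
  d : ι → ι → ℕ
  dself : ∀ a, d a a = 0
  dsymm : ∀ a b, d a b = d b a
  dtri : ∀ a b x, d a x ≤ d a b + d b x
  Lam : Finset ι
  T : Finset τ
  sp : τ → Finset ι
  diam : ∀ t ∈ T, ∀ x ∈ sp t, ∀ y ∈ sp t, d x y ≤ 1
  tcard : ∀ A : Finset ι, ((tch T sp A).card : ℝ) ≤ Cn * A.card
  b : τ → (ι → V) →ₗ[ℝ] (ι → V) →ₗ[ℝ] ℝ
  b_bd : ∀ t ∈ T, ∀ (φ : ι → V) (w : ι → V) (x y : ℝ), (∀ i ∈ sp t, ‖φ i‖ ≤ x) →
    (∀ i ∈ sp t, ‖w i‖ ≤ y) → |b t φ w| ≤ Cb * x * y
  coer : ∀ A ⊆ Lam, ∀ φ : ι → V, (∀ y, y ∉ A → φ y = 0) →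
    c0 * ∑ x ∈ A, ‖φ x‖ ^ 2 ≤ ∑ t ∈ tch T sp A, b t φ φ

variable {c0 Cb Cn : ℝ}

/-- locality in the second slot -/
lemma Dat.loc (S : Dat ι τ V c0 Cb Cn) {t : τ} (ht : t ∈ S.T) (φ : ι → V) {w w' : ι → V}
    (h : ∀ i ∈ S.sp t, w i = w' i) : S.b t φ w = S.b t φ w' := by
  obtain ⟨x, hx⟩ : ∃ x : ℝ, ∀ i ∈ S.sp t, ‖φ i‖ ≤ x :=
    ⟨∑ i ∈ S.sp t, ‖φ i‖, fun i hi => Finset.single_le_sum (f := fun i => ‖φ i‖)
      (fun _ _ => norm_nonneg _) hi⟩
  have := S.b_bd t ht φ (w - w') x 0 hx (fun i hi => by simp [h i hi])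
  rw [mul_zero, map_sub] at this
  have h2 := abs_nonpos_iff.1 this
  linarith

/-- the bilinear form of the region -/
def Dat.B (S : Dat ι τ V c0 Cb Cn) (A : Finset ι) : (ι → V) →ₗ[ℝ] (ι → V) →ₗ[ℝ] ℝ :=
  ∑ t ∈ tch S.T S.sp A, S.b t

lemma Dat.B_apply (S : Dat ι τ V c0 Cb Cn) (A : Finset ι) (φ w : ι → V) :
    S.B A φ w = ∑ t ∈ tch S.T S.sp A, S.b t φ w := by
  unfold Dat.B
  simp [LinearMap.sum_apply]

/-- extension by zero -/
def extL (V : Type*) [NormedAddCommGroup V] [NormedSpace ℝ V] (A : Finset ι) :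
    (A → V) →ₗ[ℝ] (ι → V) where
  toFun u := fun x => if h : x ∈ A then u ⟨x, h⟩ else 0
  map_add' u v := by
    funext x
    simp only [Pi.add_apply]
    split_ifs <;> simp
  map_smul' c u := by
    funext x
    simp only [Pi.smul_apply, RingHom.id_apply]
    split_ifs <;> simp

lemma extL_mem {A : Finset ι} (u : A → V) {x : ι} (h : x ∈ A) : extL V A u x = u ⟨x, h⟩ := by
  simp [extL, h]

lemma extL_out {A : Finset ι} (u : A → V) {x : ι} (h : x ∉ A) : extL V A u x = 0 := by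
  simp [extL, h]

lemma extL_restr {A : Finset ι} {χ : ι → V} (hχ : ∀ x, x ∉ A → χ x = 0) :
    extL V A (fun x => χ x.1) = χ := by
  funext x
  by_cases h : x ∈ A
  · rw [extL_mem _ h]
  · rw [extL_out _ h, hχ x h]

/-- solvability -/
lemma Dat.exists_sol (S : Dat ι τ V c0 Cb Cn) (h0 : 0 < c0) {A : Finset ι} (hA : A ⊆ S.Lam)
    (ψ : ι → V) : ∃ k : ι → V, (∀ x, x ∉ A → k x = 0) ∧
      ∀ χ : ι → V, (∀ x, x ∉ A → χ x = 0) → S.B A χ k = -S.B A χ ψ := by
  let W := A → V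
  let Φ : W →ₗ[ℝ] Module.Dual ℝ W := ((S.B A).compl₁₂ (extL V A) (extL V A)).flip
  have hΦ : ∀ u v, Φ u v = S.B A (extL V A v) (extL V A u) := fun u v => rfl
  have hinj : Function.Injective Φ := by
    rw [← LinearMap.ker_eq_bot, LinearMap.ker_eq_bot']
    intro u hu
    have h1 : S.B A (extL V A u) (extL V A u) = 0 := by rw [← hΦ, hu]; rfl
    have h2 := S.coer A hA (extL V A u) (fun x hx => extL_out u hx)
    rw [← S.B_apply, h1] at h2
    have h3 : ∑ x ∈ A, ‖extL V A u x‖ ^ 2 = 0 := by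
      have h4 : 0 ≤ ∑ x ∈ A, ‖extL V A u x‖ ^ 2 := Finset.sum_nonneg fun _ _ => by positivity
      nlinarith
    rw [Finset.sum_eq_zero_iff_of_nonneg (fun _ _ => by positivity)] at h3
    funext x
    have h5 := h3 x.1 x.2
    rw [extL_mem u x.2] at h5
    have h6 : u x = 0 := by simpa using h5
    exact h6
  have hsurj : Function.Surjective Φ :=
    (LinearMap.injective_iff_surjective_of_finrank_eq_finrank
      (Subspace.dual_finrank_eq).symm).1 hinj
  obtain ⟨u, hu⟩ := hsurj (-((S.B A).flip ψ ∘ₗ extL V A))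
  refine ⟨extL V A u, fun x hx => extL_out u hx, fun χ hχ => ?_⟩
  have h1 : Φ u (fun x => χ x.1) = -S.B A χ ψ := by
    rw [hu]
    simp only [LinearMap.neg_apply, LinearMap.coe_comp, Function.comp_apply, LinearMap.flip_apply]
    rw [extL_restr hχ]
  rw [hΦ, extL_restr hχ] at h1
  exact h1

/-- sum over the terms of the squares on the supports -/
lemma Dat.sum_sq (S : Dat ι τ V c0 Cb Cn) (A : Finset ι) (u : ι → ℝ)
    (hu : ∀ x, x ∉ A → u x = 0) :
    ∑ t ∈ tch S.T S.sp A, ∑ x ∈ S.sp t, u x ^ 2 ≤ Cn * ∑ x ∈ A, u x ^ 2 := by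
  have h1 : ∀ t ∈ tch S.T S.sp A, ∑ x ∈ S.sp t, u x ^ 2 =
      ∑ x ∈ A, if x ∈ S.sp t then u x ^ 2 else 0 := by
    intro t _
    rw [← Finset.sum_filter]
    have : A.filter (fun x => x ∈ S.sp t) = S.sp t ∩ A := by
      ext x; simp [and_comm]
    rw [this]
    symm
    refine Finset.sum_subset Finset.inter_subset_left fun x hx hx' => ?_
    rw [hu x (fun h => hx' (Finset.mem_inter.2 ⟨hx, h⟩))]; simp
  rw [Finset.sum_congr rfl h1, Finset.sum_comm, Finset.mul_sum]
  refine Finset.sum_le_sum fun x hx => ?_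
  rw [← Finset.sum_filter, Finset.sum_const, nsmul_eq_mul]
  refine mul_le_mul_of_nonneg_right ?_ (by positivity)
  have h2 := S.tcard {x}
  rw [Finset.card_singleton, Nat.cast_one, mul_one] at h2
  refine le_trans ?_ h2
  have : (tch S.T S.sp A).filter (fun t => x ∈ S.sp t) ⊆ tch S.T S.sp {x} := by
    intro t ht
    rw [Finset.mem_filter] at ht
    unfold tch at ht ⊢
    rw [Finset.mem_filter] at ht ⊢
    refine ⟨ht.1.1, ?_⟩
    rw [Finset.not_disjoint_iff]
    exact ⟨x, ht.2, Finset.mem_singleton_self x⟩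
  exact_mod_cast Finset.card_le_card this

/-- decay of the response to a single boundary value -/
lemma Dat.decay (S : Dat ι τ V c0 Cb Cn) (h0 : 0 < c0) (hb : 0 ≤ Cb) (hn : 1 ≤ Cn)
    {A : Finset ι} (hA : A ⊆ S.Lam) (x0 : ι) (e : V) (k : ι → V) (hk : ∀ x, x ∉ A → k x = 0)
    (hk2 : ∀ χ : ι → V, (∀ x, x ∉ A → χ x = 0) → S.B A χ k = -S.B A χ (Pi.single x0 e))
    (y : ι) : ‖k y‖ ≤ Ch c0 Cb Cn * (Real.exp (-(al c0 Cb Cn * S.d y x0)) * ‖e‖) := by
  set a := al c0 Cb Cn with ha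
  have ha0 : 0 < a := al_pos h0 hb hn
  set q := Real.exp a with hq
  have hq1 : 1 ≤ q := Real.one_le_exp ha0.le
  have hq0 : 0 < q := Real.exp_pos _
  -- the weight
  set T : ι → ℝ := fun x => Real.exp (a * S.d x0 x) with hT
  have hTpos : ∀ x, 0 < T x := fun x => Real.exp_pos _
  have hTle : ∀ t ∈ S.T, ∀ x ∈ S.sp t, ∀ y ∈ S.sp t, T x ≤ q * T y := by
    intro t ht x hx y hy
    rw [hT, hq]
    simp only
    rw [← Real.exp_add]
    apply Real.exp_le_exp.2
    have h1 : (S.d x0 x : ℝ) ≤ S.d x0 y + 1 := by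
      have := S.dtri x0 y x
      have h2 := S.diam t ht y hy x hx
      exact_mod_cast this.trans (by omega)
    nlinarith
  set u : ι → V := fun x => T x • k x with hu
  have hu0 : ∀ x, x ∉ A → u x = 0 := fun x hx => by rw [hu]; simp [hk x hx]
  set χ : ι → V := fun x => T x • u x with hχ
  have hχ0 : ∀ x, x ∉ A → χ x = 0 := fun x hx => by rw [hχ]; simp [hu0 x hx]
  set Q : ℝ := ∑ x ∈ A, ‖u x‖ ^ 2 with hQ
  have hQ0 : 0 ≤ Q := Finset.sum_nonneg fun _ _ => by positivity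
  set s : ℝ := Real.sqrt Q with hs
  have hs0 : 0 ≤ s := Real.sqrt_nonneg _
  have hsQ : s ^ 2 = Q := Real.sq_sqrt hQ0
  have hle : ∀ x, ‖u x‖ ≤ s := by
    intro x
    by_cases hx : x ∈ A
    · rw [hs]
      apply Real.le_sqrt_of_sq_le
      exact Finset.single_le_sum (f := fun x => ‖u x‖ ^ 2) (fun _ _ => by positivity) hx
    · rw [hu0 x hx]; simpa using hs0
  -- the comparison term by term
  have hterm : ∀ t ∈ tch S.T S.sp A, S.b t u u - 2 * Cb * ((q - 1) * q) * ∑ x ∈ S.sp t, ‖u x‖ ^ 2 ≤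
      S.b t χ k := by
    intro t ht
    have htT : t ∈ S.T := by unfold tch at ht; exact (Finset.mem_filter.1 ht).1
    have hne : ¬Disjoint (S.sp t) A := by unfold tch at ht; exact (Finset.mem_filter.1 ht).2
    obtain ⟨p, hp, -⟩ := Finset.not_disjoint_iff.1 hne
    set m : ℝ := Real.sqrt (∑ x ∈ S.sp t, ‖u x‖ ^ 2) with hm
    have hm0 : 0 ≤ m := Real.sqrt_nonneg _
    have hm2 : m ^ 2 = ∑ x ∈ S.sp t, ‖u x‖ ^ 2 :=
      Real.sq_sqrt (Finset.sum_nonneg fun _ _ => by positivity)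
    have hum : ∀ x ∈ S.sp t, ‖u x‖ ≤ m := by
      intro x hx
      apply Real.le_sqrt_of_sq_le
      exact Finset.single_le_sum (f := fun x => ‖u x‖ ^ 2) (fun _ _ => by positivity) hx
    have hdiff : ∀ x ∈ S.sp t, |T x - T p| ≤ (q - 1) * T p := by
      intro x hx
      have h1 := hTle t htT x hx p hp
      have h2 := hTle t htT p hp x hx
      rw [abs_le]
      constructor
      · -- T p - T x ≤ (q-1) T p
        have h3 : T p ≤ q * T x := h2
        have hpp := hTpos p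
        have hxx := hTpos x
        -- T x ≥ T p / q ≥ (2 - q) T p
        have h4 : (2 - q) * q ≤ 1 := by nlinarith [sq_nonneg (q - 1)]
        by_contra hcon
        push Not at hcon
        have h5 : T x < (2 - q) * T p := by linarith
        have h6 : q * T x < q * ((2 - q) * T p) := mul_lt_mul_of_pos_left h5 hq0
        nlinarith
      · linarith
    have hkx : ∀ x ∈ S.sp t, T p * ‖k x‖ ≤ q * m := by
      intro x hx
      have h2 := hTle t htT p hp x hx
      have h3 : ‖u x‖ = T x * ‖k x‖ := by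
        rw [hu]; simp only; rw [norm_smul, Real.norm_eq_abs, abs_of_pos (hTpos x)]
      calc T p * ‖k x‖ ≤ (q * T x) * ‖k x‖ := mul_le_mul_of_nonneg_right h2 (norm_nonneg _)
        _ = q * ‖u x‖ := by rw [h3]; ring
        _ ≤ q * m := mul_le_mul_of_nonneg_left (hum x hx) hq0.le
    have e1 : S.b t χ k = S.b t u u + S.b t (fun x => (T x - T p) • u x) k +
        S.b t u (fun x => (T p - T x) • k x) := by
      have a1 : χ = (fun x => (T x - T p) • u x) + T p • u := by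
        funext x; rw [hχ]; simp only [Pi.add_apply, Pi.smul_apply]; rw [← add_smul]; congr 1; ring
      have a2 : (fun x => (T p - T x) • k x) = T p • k - u := by
        funext x; rw [hu]; simp only [Pi.sub_apply, Pi.smul_apply]; rw [sub_smul]
      rw [a1, a2]
      simp only [map_add, LinearMap.add_apply, map_smul, LinearMap.smul_apply, map_sub, smul_eq_mul]
      ring
    have hq10 : 0 ≤ q - 1 := by linarith
    have e2 : |S.b t (fun x => (T x - T p) • u x) k| ≤ Cb * ((q - 1) * T p * m) * (q * m / T p) := by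
      refine S.b_bd t htT _ _ _ _ (fun x hx => ?_) (fun x hx => ?_)
      · rw [norm_smul, Real.norm_eq_abs]
        exact mul_le_mul (hdiff x hx) (hum x hx) (norm_nonneg _)
          (mul_nonneg hq10 (hTpos p).le)
      · rw [le_div_iff₀ (hTpos p)]
        linarith [hkx x hx]
    have e3 : |S.b t u (fun x => (T p - T x) • k x)| ≤ Cb * m * ((q - 1) * (q * m)) := by
      refine S.b_bd t htT _ _ _ _ (fun x hx => hum x hx) (fun x hx => ?_)
      rw [norm_smul, Real.norm_eq_abs, abs_sub_comm]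
      calc |T x - T p| * ‖k x‖ ≤ ((q - 1) * T p) * ‖k x‖ :=
            mul_le_mul_of_nonneg_right (hdiff x hx) (norm_nonneg _)
        _ = (q - 1) * (T p * ‖k x‖) := by ring
        _ ≤ (q - 1) * (q * m) := mul_le_mul_of_nonneg_left (hkx x hx) hq10
    have e4 : Cb * ((q - 1) * T p * m) * (q * m / T p) = Cb * ((q - 1) * q) * m ^ 2 := by
      have := (hTpos p).ne'
      field_simp
    have e5 : Cb * m * ((q - 1) * (q * m)) = Cb * ((q - 1) * q) * m ^ 2 := by ring
    rw [e4] at e2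
    rw [e5] at e3
    rw [e1, ← hm2]
    have := neg_abs_le (S.b t (fun x => (T x - T p) • u x) k)
    have := neg_abs_le (S.b t u (fun x => (T p - T x) • k x))
    nlinarith
  -- summation
  have hsum : c0 / 2 * Q ≤ S.B A χ k := by
    rw [S.B_apply]
    have h1 := Finset.sum_le_sum hterm
    rw [Finset.sum_sub_distrib, ← Finset.mul_sum] at h1
    have h2 := S.coer A hA u hu0
    have h3 := S.sum_sq A (fun x => ‖u x‖) (fun x hx => by rw [hu0 x hx, norm_zero])
    have h4 := al_small h0 hb hn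
    rw [← ha, ← hq] at h4
    have h5 : 2 * Cb * ((q - 1) * q) * ∑ t ∈ tch S.T S.sp A, ∑ x ∈ S.sp t, ‖u x‖ ^ 2 ≤
        c0 / 2 * Q := by
      have hc : 0 ≤ 2 * Cb * ((q - 1) * q) := by
        have : 0 ≤ q - 1 := by linarith
        positivity
      calc 2 * Cb * ((q - 1) * q) * ∑ t ∈ tch S.T S.sp A, ∑ x ∈ S.sp t, ‖u x‖ ^ 2 ≤
            2 * Cb * ((q - 1) * q) * (Cn * Q) := mul_le_mul_of_nonneg_left h3 hc
        _ = (2 * Cb * Cn * ((q - 1) * q)) * Q := by ring
        _ ≤ c0 / 2 * Q := mul_le_mul_of_nonneg_right h4 hQ0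
    linarith
  -- the right hand side
  have hrhs : |S.B A χ (Pi.single x0 e)| ≤ Cn * (Cb * (q * s) * ‖e‖) := by
    rw [S.B_apply]
    have h1 : ∀ t ∈ tch S.T S.sp A, |S.b t χ (Pi.single x0 e)| ≤
        if x0 ∈ S.sp t then Cb * (q * s) * ‖e‖ else 0 := by
      intro t ht
      have htT : t ∈ S.T := by unfold tch at ht; exact (Finset.mem_filter.1 ht).1
      split_ifs with hx0
      · refine S.b_bd t htT _ _ _ _ (fun x hx => ?_) (fun x hx => ?_)
        · rw [hχ]; simp only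
          rw [norm_smul, Real.norm_eq_abs, abs_of_pos (hTpos x)]
          have h2 := hTle t htT x hx x0 hx0
          have h3 : T x0 = 1 := by rw [hT]; simp [S.dself]
          rw [h3, mul_one] at h2
          exact mul_le_mul h2 (hle x) (norm_nonneg _) hq0.le
        · by_cases hxx : x = x0
          · subst hxx; simp
          · rw [Pi.single_eq_of_ne hxx]; simp
      · have : S.b t χ (Pi.single x0 e) = S.b t χ 0 := by
          refine S.loc htT χ fun i hi => ?_
          rw [Pi.single_eq_of_ne (by rintro rfl; exact hx0 hi)]; rfl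
        rw [this]; simp
    refine (Finset.abs_sum_le_sum_abs _ _).trans ((Finset.sum_le_sum h1).trans ?_)
    rw [← Finset.sum_filter, Finset.sum_const, nsmul_eq_mul]
    refine mul_le_mul_of_nonneg_right ?_ (by positivity)
    have h2 := S.tcard {x0}
    rw [Finset.card_singleton, Nat.cast_one, mul_one] at h2
    refine le_trans ?_ h2
    have : (tch S.T S.sp A).filter (fun t => x0 ∈ S.sp t) ⊆ tch S.T S.sp {x0} := by
      intro t ht
      rw [Finset.mem_filter] at ht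
      unfold tch at ht ⊢
      rw [Finset.mem_filter] at ht ⊢
      refine ⟨ht.1.1, ?_⟩
      rw [Finset.not_disjoint_iff]
      exact ⟨x0, ht.2, Finset.mem_singleton_self x0⟩
    exact_mod_cast Finset.card_le_card this
  have h1 : c0 / 2 * s ^ 2 ≤ (Cn * Cb * q * ‖e‖) * s := by
    rw [hsQ]
    rw [hk2 χ hχ0] at hsum
    calc c0 / 2 * Q ≤ -S.B A χ (Pi.single x0 e) := hsum
      _ ≤ |S.B A χ (Pi.single x0 e)| := neg_le_abs _
      _ ≤ Cn * (Cb * (q * s) * ‖e‖) := hrhs
      _ = (Cn * Cb * q * ‖e‖) * s := by ring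
  have h2 : s ≤ 2 * Cn * Cb * q / c0 * ‖e‖ := by
    rcases hs0.eq_or_lt with h | h
    · rw [← h]; positivity
    · have h3 : c0 / 2 * s ≤ Cn * Cb * q * ‖e‖ := by
        refine le_of_mul_le_mul_right ?_ h
        calc c0 / 2 * s * s = c0 / 2 * s ^ 2 := by ring
          _ ≤ _ := h1
      rw [div_mul_eq_mul_div, le_div_iff₀ h0]
      linarith
  have h3 : T y * ‖k y‖ ≤ s := by
    have := hle y
    rw [hu] at this
    simp only at this
    rwa [norm_smul, Real.norm_eq_abs, abs_of_pos (hTpos y)] at this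
  have h4 : ‖k y‖ ≤ Real.exp (-(a * S.d y x0)) * s := by
    have h5 : (T y)⁻¹ = Real.exp (-(a * S.d y x0)) := by
      rw [hT]; simp only; rw [← Real.exp_neg, S.dsymm x0 y]
    rw [← h5]
    calc ‖k y‖ = (T y)⁻¹ * (T y * ‖k y‖) := by
          have := (hTpos y).ne'
          field_simp
      _ ≤ (T y)⁻¹ * s := mul_le_mul_of_nonneg_left h3 (inv_nonneg.2 (hTpos y).le)
  calc ‖k y‖ ≤ Real.exp (-(a * S.d y x0)) * s := h4
    _ ≤ Real.exp (-(a * S.d y x0)) * (2 * Cn * Cb * q / c0 * ‖e‖) :=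
        mul_le_mul_of_nonneg_left h2 (Real.exp_pos _).le
    _ = (2 * Cn * Cb * q / c0) * (Real.exp (-(a * S.d y x0)) * ‖e‖) := by ring
    _ ≤ Ch c0 Cb Cn * (Real.exp (-(a * S.d y x0)) * ‖e‖) := by
        refine mul_le_mul_of_nonneg_right ?_ (by positivity)
        unfold Ch
        rw [← ha, ← hq]
        linarith

/-- **Harmonic extension with exponential decay, soft version** (the field `harm` of `Sys`). -/
theorem Dat.harm (S : Dat ι τ V c0 Cb Cn) (h0 : 0 < c0) (hb : 0 ≤ Cb) (hn : 1 ≤ Cn) :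
    ∀ A ⊆ S.Lam, ∀ z : ι → V, ∃ w : ι → V, (∀ y, y ∉ A → w y = z y) ∧
    (∀ φ : ι → V, (∀ y, y ∉ A → φ y = 0) → ∑ t ∈ tch S.T S.sp A, S.b t φ w = 0) ∧
    ∀ y ∈ A, ‖w y‖ ≤ Ch c0 Cb Cn *
      ∑ x ∈ cl S.T S.sp A \ A, Real.exp (-(al c0 Cb Cn * S.d y x)) * ‖z x‖ := by
  intro A hA z
  choose k hk hk2 using fun x : ι => S.exists_sol h0 hA (Pi.single x (z x))
  set F1 : ι → V := fun x => if x ∈ A then 0 else z x with hF1
  set F2 : ι → V := ∑ x ∈ cl S.T S.sp A \ A, k x with hF2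
  set F3 : ι → V := ∑ x ∈ cl S.T S.sp A \ A, Pi.single x (z x) with hF3
  have hF3a : ∀ y, F3 y = if y ∈ cl S.T S.sp A \ A then z y else 0 := by
    intro y
    rw [hF3, Finset.sum_apply]
    by_cases hy : y ∈ cl S.T S.sp A \ A
    · rw [if_pos hy, Finset.sum_eq_single y]
      · simp
      · intro x _ hx; exact Pi.single_eq_of_ne (Ne.symm hx) _
      · intro h'; exact absurd hy h'
    · rw [if_neg hy]
      refine Finset.sum_eq_zero fun x hx => ?_
      exact Pi.single_eq_of_ne (by rintro rfl; exact hy hx) _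
  refine ⟨F1 + F2, fun y hy => ?_, fun φ hφ => ?_, fun y hy => ?_⟩
  · rw [Pi.add_apply, hF1, hF2, Finset.sum_apply, Finset.sum_eq_zero, add_zero]
    · simp only [if_neg hy]
    · intro x _; exact hk x y hy
  · have e1 : ∀ t ∈ tch S.T S.sp A, S.b t φ (F1 + F2) = S.b t φ F3 + S.b t φ F2 := by
      intro t ht
      have htT : t ∈ S.T := by unfold tch at ht; exact (Finset.mem_filter.1 ht).1
      rw [map_add]
      congr 1
      refine S.loc htT φ fun i hi => ?_
      rw [hF3a, hF1]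
      simp only
      by_cases hA' : i ∈ A
      · rw [if_pos hA', if_neg]
        rw [Finset.mem_sdiff]; exact fun h' => h'.2 hA'
      · rw [if_neg hA', if_pos]
        rw [Finset.mem_sdiff]
        refine ⟨?_, hA'⟩
        unfold cl
        rw [Finset.mem_biUnion]
        exact ⟨t, ht, hi⟩
    rw [Finset.sum_congr rfl e1, Finset.sum_add_distrib, ← S.B_apply, ← S.B_apply, hF2, hF3,
      map_sum, map_sum, ← Finset.sum_add_distrib]
    refine Finset.sum_eq_zero fun x _ => ?_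
    rw [hk2 x φ hφ, add_neg_cancel]
  · rw [Pi.add_apply, hF1, hF2, Finset.sum_apply]
    simp only [if_pos hy, zero_add]
    refine (norm_sum_le _ _).trans ?_
    rw [Finset.mul_sum]
    refine Finset.sum_le_sum fun x _ => ?_
    exact S.decay h0 hb hn hA x (z x) (k x) (hk x) (hk2 x) y

end main

/-- The same, unbundled, in the form of the field `harm` of the structure `Sys`. -/
theorem harm_soft {ι τ V : Type*} [NormedAddCommGroup V] [NormedSpace ℝ V] [FiniteDimensional ℝ V]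
    {c0 Cb Cn : ℝ} (h0 : 0 < c0) (hb : 0 ≤ Cb) (hn : 1 ≤ Cn)
    (d : ι → ι → ℕ) (dself : ∀ a, d a a = 0) (dsymm : ∀ a b, d a b = d b a)
    (dtri : ∀ a b x, d a x ≤ d a b + d b x) (Lam : Finset ι) (T : Finset τ) (sp : τ → Finset ι)
    (diam : ∀ t ∈ T, ∀ x ∈ sp t, ∀ y ∈ sp t, d x y ≤ 1)
    (tcard : ∀ A : Finset ι, ((tch T sp A).card : ℝ) ≤ Cn * A.card)
    (b : τ → (ι → V) → (ι → V) → ℝ)
    (b_add_left : ∀ t φ φ' w, b t (φ + φ') w = b t φ w + b t φ' w)
    (b_smul_left : ∀ t (a : ℝ) φ w, b t (a • φ) w = a * b t φ w)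
    (b_add_right : ∀ t φ w w', b t φ (w + w') = b t φ w + b t φ w')
    (b_smul_right : ∀ t (a : ℝ) φ w, b t φ (a • w) = a * b t φ w)
    (b_bd : ∀ t ∈ T, ∀ (φ : ι → V) (w : ι → V) (x y : ℝ), (∀ i ∈ sp t, ‖φ i‖ ≤ x) →
      (∀ i ∈ sp t, ‖w i‖ ≤ y) → |b t φ w| ≤ Cb * x * y)
    (coer : ∀ A ⊆ Lam, ∀ φ : ι → V, (∀ y, y ∉ A → φ y = 0) →
      c0 * ∑ x ∈ A, ‖φ x‖ ^ 2 ≤ ∑ t ∈ tch T sp A, b t φ φ) :
    ∀ A ⊆ Lam, ∀ z : ι → V, ∃ w : ι → V, (∀ y, y ∉ A → w y = z y) ∧
    (∀ φ : ι → V, (∀ y, y ∉ A → φ y = 0) → ∑ t ∈ tch T sp A, b t φ w = 0) ∧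
    ∀ y ∈ A, ‖w y‖ ≤ Ch c0 Cb Cn *
      ∑ x ∈ cl T sp A \ A, Real.exp (-(al c0 Cb Cn * d y x)) * ‖z x‖ :=
  Dat.harm
    { d := d, dself := dself, dsymm := dsymm, dtri := dtri, Lam := Lam, T := T, sp := sp
      diam := diam, tcard := tcard
      b := fun t => LinearMap.mk₂ ℝ (b t) (b_add_left t) (b_smul_left t) (b_add_right t)
        (b_smul_right t)
      b_bd := b_bd, coer := coer } h0 hb hn

end

end Pool.Agent.N109.Soft
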