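import Pool.Agent.N109.Slab.SD3

/-!
# Green functions of boxes and the Schwinger-Dyson limit
-/

set_option autoImplicit false
set_option linter.unusedSectionVars false
set_option linter.unusedVariables false
set_option linter.style.haveILetI false

open MeasureTheory Matrix Finset Filter
open scoped Matrix.Norms.Frobenius ENNReal

namespace Pool.Agent.N109.Slab

open Pool.Agent.N990

noncomputable section

variable {D L : ℕ}

/-! ### general solutions -/

lemma exists_sol_gen (hL : 0 < lam0 L) (A : Finset (Site D)) (ℓ : SF D L →ₗ[ℝ] ℝ) :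
    ∃ k : SF D L, (∀ x, x ∉ A → k x = 0) ∧
      ∀ χ : SF D L, (∀ x, x ∉ A → χ x = 0) → Bf A χ k = ℓ χ := by
  classical
  let V := A → Lab D L → ℝ
  let Φ : V →ₗ[ℝ] Module.Dual ℝ V := ((Bf A).compl₁₂ (extL A) (extL A)).flip
  have hΦ : ∀ u v, Φ u v = Bf A (extL A v) (extL A u) := fun u v => rfl
  have hinj : Function.Injective Φ := by
    rw [← LinearMap.ker_eq_bot, LinearMap.ker_eq_bot']
    intro u hu
    have h1 : Bf A (extL A u) (extL A u) = 0 := by rw [← hΦ, hu]; rfl
    have h2 := coer A (extL A u) (fun x hx => extL_out u hx)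
    rw [h1] at h2
    have h3 : ∑ x ∈ Ns A, ∑ a, extL A u x a ^ 2 = 0 := by
      have h4 : 0 ≤ ∑ x ∈ Ns A, ∑ a, extL A u x a ^ 2 :=
        Finset.sum_nonneg fun _ _ => Finset.sum_nonneg fun _ _ => by positivity
      nlinarith
    rw [Finset.sum_eq_zero_iff_of_nonneg
      (fun _ _ => Finset.sum_nonneg fun _ _ => by positivity)] at h3
    funext x a
    have h5 := h3 x.1 (mem_Ns.2 (Or.inl x.2))
    rw [Finset.sum_eq_zero_iff_of_nonneg (fun _ _ => by positivity)] at h5
    have h6 := h5 a (Finset.mem_univ _)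
    rw [extL_mem u x.2] at h6
    have h7 : u x a = 0 := by simpa using h6
    exact h7
  have hsurj : Function.Surjective Φ :=
    (LinearMap.injective_iff_surjective_of_finrank_eq_finrank
      (Subspace.dual_finrank_eq).symm).1 hinj
  obtain ⟨u, hu⟩ := hsurj (ℓ ∘ₗ extL A)
  refine ⟨extL A u, fun x hx => extL_out u hx, fun χ hχ => ?_⟩
  have h1 : Φ u (fun x => χ x.1) = ℓ χ := by
    rw [hu]
    simp only [LinearMap.coe_comp, Function.comp_apply]
    rw [extL_restr hχ]
  rw [hΦ, extL_restr hχ] at h1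
  exact h1

/-- decay of the response to a functional localised at `y` -/
lemma decay_gen {α C1 : ℝ} (hC1 : 0 ≤ C1) (hα : 0 ≤ α) (h : 2 * Real.cosh α - 2 < lam0 L)
    (A : Finset (Site D)) (y : Site D) (k : SF D L) (hk : ∀ x, x ∉ A → k x = 0)
    (hb : ∀ (χ : SF D L) (M : ℝ), (∀ x, x ∉ A → χ x = 0) → 0 ≤ M →
      (∀ x, dd x y ≤ 1 → ∀ a, |χ x a| ≤ M) → |Bf A χ k| ≤ C1 * M)
    (x : Site D) (a : Lab D L) :
    |k x a| ≤ C1 / (lam0 L - (2 * Real.cosh α - 2)) * Real.exp (2 * α) *
      Real.exp (-(α * dd x y)) := by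
  classical
  have hδ : 0 < lam0 L - (2 * Real.cosh α - 2) := by linarith
  obtain ⟨j, -, hj⟩ := Finset.exists_mem_eq_sup (Finset.univ : Finset (Fin D))
    ⟨a.1, Finset.mem_univ _⟩ fun i => (x i - y i).natAbs
  have hj' : dd x y = (x j - y j).natAbs := hj
  obtain ⟨s, hs, hs2⟩ : ∃ s : ℝ, (s = 1 ∨ s = -1) ∧ s * ((x j : ℝ) - y j) = dd x y := by
    rw [hj']
    rcases le_total 0 (x j - y j) with h0 | h0
    · refine ⟨1, Or.inl rfl, ?_⟩
      rw [one_mul, Nat.cast_natAbs, abs_of_nonneg h0]; push_cast; ring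
    · refine ⟨-1, Or.inr rfl, ?_⟩
      rw [Nat.cast_natAbs, abs_of_nonpos h0]; push_cast; ring
  have hsabs : |s| = 1 := by rcases hs with rfl | rfl <;> simp
  set T : SF D L := Tw (s * α) j with hT
  have hTpos : ∀ x a, 0 < T x a := fun x a => Tw_pos _ _ _ _
  set u : SF D L := mulw T k with hu
  have hu0 : ∀ x, x ∉ A → u x = 0 := by
    intro x hx; funext a; rw [hu]; unfold mulw; rw [hk x hx]; simp
  have hct := ct_ineq A (s * α) j u hu0
  rw [cosh_neg_one_mul hs, ← hT] at hct
  have e1 : divw T u = k := mulw_divw hTpos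
  rw [e1] at hct
  set χ : SF D L := mulw T u with hχ
  have hχ0 : ∀ x, x ∉ A → χ x = 0 := by
    intro x hx; funext a; rw [hχ]; unfold mulw; rw [hu0 x hx]; simp
  have e2 : ∑ x ∈ Ns A, bx χ k x = Bf A χ k := rfl
  rw [e2] at hct
  set Q : ℝ := ∑ x ∈ A, ∑ a, u x a ^ 2 with hQ
  have hQ0 : 0 ≤ Q := Finset.sum_nonneg fun _ _ => Finset.sum_nonneg fun _ _ => by positivity
  set S : ℝ := Real.sqrt Q with hS
  have hS0 : 0 ≤ S := Real.sqrt_nonneg _
  have hSQ : S ^ 2 = Q := Real.sq_sqrt hQ0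
  have hle : ∀ x a, |u x a| ≤ S := by
    intro x a
    by_cases hx : x ∈ A
    · rw [hS]
      apply Real.abs_le_sqrt
      calc u x a ^ 2 ≤ ∑ a, u x a ^ 2 :=
            Finset.single_le_sum (f := fun a => u x a ^ 2) (fun _ _ => by positivity)
              (Finset.mem_univ a)
        _ ≤ Q := Finset.single_le_sum (f := fun x => ∑ a, u x a ^ 2)
            (fun _ _ => Finset.sum_nonneg fun _ _ => by positivity) hx
    · rw [hu0 x hx]; simpa using hS0
  have hT1 : ∀ x', dd x' y ≤ 1 → ∀ a, T x' a ≤ Real.exp (s * α * y j + 3 / 2 * α) := by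
    intro x' hx' a
    rw [hT]; unfold Tw
    apply Real.exp_le_exp.2
    have h1 : (x' j - y j).natAbs ≤ 1 := by
      refine le_trans ?_ hx'
      exact Finset.le_sup (f := fun i => (x' i - y i).natAbs) (Finset.mem_univ j)
    have h2 : |((x' j : ℝ) - y j)| ≤ 1 := by
      have : |x' j - y j| ≤ 1 := by
        rw [← Int.natCast_natAbs]; exact_mod_cast h1
      exact_mod_cast this
    have h3 : s * ((x' j : ℝ) - y j) ≤ 1 := by
      calc s * ((x' j : ℝ) - y j) ≤ |s * ((x' j : ℝ) - y j)| := le_abs_self _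
        _ = |(x' j : ℝ) - y j| := by rw [abs_mul, hsabs, one_mul]
        _ ≤ 1 := h2
    have h4 : s * (if a.1 = j then 1 / 2 else 0 : ℝ) ≤ 1 / 2 := by
      split_ifs <;> rcases hs with rfl | rfl <;> norm_num
    have h5 : s * α * ((x' j : ℝ) + if a.1 = j then 1 / 2 else 0) =
        s * α * y j + α * (s * ((x' j : ℝ) - y j)) +
          α * (s * (if a.1 = j then 1 / 2 else 0 : ℝ)) := by ring
    rw [h5]
    have h6 := mul_le_mul_of_nonneg_left h3 hα
    have h7 := mul_le_mul_of_nonneg_left h4 hα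
    linarith
  set M : ℝ := Real.exp (s * α * y j + 3 / 2 * α) * S with hM
  have hM0 : 0 ≤ M := by positivity
  have hb := hb χ M hχ0 hM0 (fun x' hx' a => by
    rw [hχ]; unfold mulw
    rw [abs_mul, abs_of_pos (hTpos _ _)]
    exact mul_le_mul (hT1 x' hx' a) (hle x' a) (abs_nonneg _) (Real.exp_pos _).le)
  have h1 : (lam0 L - (2 * Real.cosh α - 2)) * S ^ 2 ≤ C1 * M := by
    rw [hSQ]
    refine hct.trans ?_
    exact (le_abs_self _).trans hb
  have h2 : S ≤ C1 / (lam0 L - (2 * Real.cosh α - 2)) * Real.exp (s * α * y j + 3 / 2 * α) := by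
    rcases hS0.eq_or_lt with h0 | h0
    · rw [← h0]; positivity
    · have h3 : (lam0 L - (2 * Real.cosh α - 2)) * S ≤
          C1 * Real.exp (s * α * y j + 3 / 2 * α) := by
        have h4 : ((lam0 L - (2 * Real.cosh α - 2)) * S) * S ≤
            (C1 * Real.exp (s * α * y j + 3 / 2 * α)) * S := by
          rw [hM] at h1
          calc ((lam0 L - (2 * Real.cosh α - 2)) * S) * S =
              (lam0 L - (2 * Real.cosh α - 2)) * S ^ 2 := by ring
            _ ≤ _ := h1
            _ = _ := by ring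
        exact le_of_mul_le_mul_right h4 h0
      rw [div_mul_eq_mul_div, le_div_iff₀ hδ]
      linarith
  have h3 : |k x a| = (T x a)⁻¹ * |u x a| := by
    rw [hu]; unfold mulw
    rw [abs_mul, abs_of_pos (hTpos _ _)]
    have := (hTpos x a).ne'
    field_simp
  have h4 : (T x a)⁻¹ ≤ Real.exp (-(s * α * x j) + 1 / 2 * α) := by
    rw [hT]; unfold Tw
    rw [← Real.exp_neg]
    apply Real.exp_le_exp.2
    have h4 : -(1 / 2 : ℝ) ≤ s * (if a.1 = j then 1 / 2 else 0 : ℝ) := by
      split_ifs <;> rcases hs with rfl | rfl <;> norm_num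
    have h7 := mul_le_mul_of_nonneg_left h4 hα
    have h5 : s * α * ((x j : ℝ) + if a.1 = j then 1 / 2 else 0) =
        s * α * x j + α * (s * (if a.1 = j then 1 / 2 else 0 : ℝ)) := by ring
    rw [h5]; linarith
  rw [h3]
  calc (T x a)⁻¹ * |u x a| ≤ Real.exp (-(s * α * x j) + 1 / 2 * α) * S :=
        mul_le_mul h4 (hle x a) (abs_nonneg _) (Real.exp_pos _).le
    _ ≤ Real.exp (-(s * α * x j) + 1 / 2 * α) * (C1 / (lam0 L - (2 * Real.cosh α - 2)) *
          Real.exp (s * α * y j + 3 / 2 * α)) :=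
        mul_le_mul_of_nonneg_left h2 (Real.exp_pos _).le
    _ = C1 / (lam0 L - (2 * Real.cosh α - 2)) * Real.exp (2 * α) * Real.exp (-(α * dd x y)) := by
        rw [← hs2]
        have : Real.exp (-(s * α * x j) + 1 / 2 * α) * Real.exp (s * α * y j + 3 / 2 * α) =
            Real.exp (2 * α) * Real.exp (-(α * (s * ((x j : ℝ) - y j)))) := by
          rw [← Real.exp_add, ← Real.exp_add]; congr 1; ring
        linear_combination (C1 / (lam0 L - (2 * Real.cosh α - 2))) * this

/-! ### the coefficients of a linear functional -/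

lemma bx_comm (χ ψ : SF D L) (x : Site D) : bx χ ψ x = bx ψ χ x := by
  unfold bx
  simp only [smul_eq_mul, mul_comm]

lemma Bf_comm (A : Finset (Site D)) (χ ψ : SF D L) : Bf A χ ψ = Bf A ψ χ := by
  rw [Bf_apply, Bf_apply]
  exact Finset.sum_congr rfl fun x _ => bx_comm _ _ _

/-- a field restricted to `W` as a sum of point masses -/
lemma sum_dl (W : Finset (Site D)) (φ : SF D L) (x : Site D) (a : Lab D L) :
    (∑ y ∈ W, ∑ b, φ y b • dl y b) x a = if x ∈ W then φ x a else 0 := by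
  simp only [Finset.sum_apply, Pi.smul_apply, smul_eq_mul, dl]
  by_cases hx : x ∈ W
  · rw [if_pos hx, Finset.sum_eq_single x, Finset.sum_eq_single a]
    · simp
    · intro b _ hb; rw [if_neg, mul_zero]; exact fun h' => hb h'.2.symm
    · intro h'; exact absurd (Finset.mem_univ _) h'
    · intro y _ hy; refine Finset.sum_eq_zero fun b _ => ?_
      rw [if_neg, mul_zero]; exact fun h' => hy h'.1.symm
    · intro h'; exact absurd hx h'
  · rw [if_neg hx]
    refine Finset.sum_eq_zero fun y hy => Finset.sum_eq_zero fun b _ => ?_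
    rw [if_neg, mul_zero]
    rintro ⟨rfl, _⟩; exact hx hy

/-- the form as a pairing with its coefficients -/
lemma Bf_eq_pr (A : Finset (Site D)) (ω φ : SF D L) :
    Bf A ω φ = pr (clA A) (fun y b => Bf A ω (dl y b)) φ := by
  have h1 : Bf A ω φ = Bf A ω (∑ y ∈ clA A, ∑ b, φ y b • dl y b) := by
    rw [Bf_apply, Bf_apply]
    refine Finset.sum_congr rfl fun x hx => ?_
    refine bx_congr ?_ fun i => ?_
    · funext a
      rw [sum_dl, if_pos (Ns_clA A hx)]
    · funext a
      rw [sum_dl, if_pos (mem_clA.2 (Or.inr ⟨i, x, hx, rfl⟩))]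
  rw [h1]
  unfold pr
  simp only [map_sum, map_smul, smul_eq_mul]
  refine Finset.sum_congr rfl fun y _ => Finset.sum_congr rfl fun b _ => mul_comm _ _

lemma clA_eq (A : Finset (Site D)) : clA A = A ∪ bdA A := by
  ext y
  rw [Finset.mem_union, mem_bdA, mem_clA]
  constructor
  · intro h
    by_cases hy : y ∈ A
    · exact Or.inl hy
    · exact Or.inr ⟨h, hy⟩
  · rintro (h | h)
    · exact Or.inl (sub_Ns A h)
    · exact h.1

lemma bdA_disj (A : Finset (Site D)) : Disjoint A (bdA A) := by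
  rw [Finset.disjoint_left]
  intro x hx hx'
  exact (mem_bdA.1 hx').2 hx

/-- the functional of the solution with source `g` -/
lemma Bf_sol {A : Finset (Site D)} {ω g : SF D L}
    (hω : ∀ χ : SF D L, (∀ x, x ∉ A → χ x = 0) → Bf A χ ω = pr A g χ) (φ : SF D L) :
    Bf A ω φ = pr A g φ + pr (bdA A) (fun y b => Bf A ω (dl y b)) φ := by
  rw [Bf_eq_pr, clA_eq]
  unfold pr
  rw [Finset.sum_union (bdA_disj A)]
  congr 1
  refine Finset.sum_congr rfl fun y hy => Finset.sum_congr rfl fun b _ => ?_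
  have h1 : Bf A ω (dl y b) = g y b := by
    rw [Bf_comm, hω (dl y b) (fun x hx => dl_ne (fun h => hx (h ▸ hy)))]
    unfold pr
    rw [Finset.sum_eq_single y, Finset.sum_eq_single b]
    · simp [dl]
    · intro c _ hc; simp [dl, hc]
    · intro h; exact absurd (Finset.mem_univ _) h
    · intro z _ hz; refine Finset.sum_eq_zero fun c _ => ?_
      simp [dl, hz]
    · intro h; exact absurd hy h
  show Bf A ω (dl y b) * φ y b = g y b * φ y b
  rw [h1]

/-! ### boxes -/

/-- the box of radius `R` -/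
def box (D R : ℕ) : Finset (Site D) := Fintype.piFinset fun _ => Finset.Icc (-(R : ℤ)) R

lemma mem_box {R : ℕ} {x : Site D} : x ∈ box D R ↔ ∀ i, -(R : ℤ) ≤ x i ∧ x i ≤ R := by
  unfold box
  simp [Fintype.mem_piFinset]

lemma box_card (R : ℕ) : (box D R).card = (2 * R + 1) ^ D := by
  unfold box
  rw [Fintype.card_piFinset]
  simp only [Int.card_Icc, Finset.prod_const, Finset.card_univ, Fintype.card_fin]
  congr 1
  omega

lemma dd_le {x y : Site D} {n : ℕ} : dd x y ≤ n ↔ ∀ i, |x i - y i| ≤ (n : ℤ) := by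
  unfold dd
  rw [Finset.sup_le_iff]
  constructor
  · intro h i
    have := h i (Finset.mem_univ _)
    rw [← Int.natCast_natAbs]; exact_mod_cast this
  · intro h i _
    have := h i
    rw [← Int.natCast_natAbs] at this; exact_mod_cast this

/-- a point outside the box of radius `R` is far from a point in the box of radius `R0` -/
lemma dd_far {R R0 : ℕ} {x y : Site D} (hx : x ∉ box D R) (hy : y ∈ box D R0) (h : R0 ≤ R) :
    R + 1 - R0 ≤ dd x y := by
  by_contra hlt
  push Not at hlt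
  apply hx
  rw [mem_box] at hy ⊢
  intro i
  have h1 : dd x y ≤ R - R0 := by omega
  have h2 := abs_le.1 (dd_le.1 h1 i)
  have h3 := hy i
  have h4 : ((R - R0 : ℕ) : ℤ) = (R : ℤ) - R0 := by push_cast [h]; ring
  rw [h4] at h2
  constructor <;> linarith [h2.1, h2.2, h3.1, h3.2]

lemma dd_tri (x y z : Site D) : dd x z ≤ dd x y + dd y z := by
  rw [dd_le]
  intro i
  have h1 := dd_le.1 (le_refl (dd x y)) i
  have h2 := dd_le.1 (le_refl (dd y z)) i
  have h3 : x i - z i = (x i - y i) + (y i - z i) := by ring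
  rw [h3]
  push_cast
  exact (abs_add_le _ _).trans (add_le_add h1 h2)

/-- the `ℓ²` norm squared on `V` -/
def nsq (V : Finset (Site D)) (g : SF D L) : ℝ := ∑ x ∈ V, ∑ a, g x a ^ 2

lemma nsq_nonneg (V : Finset (Site D)) (g : SF D L) : 0 ≤ nsq V g :=
  Finset.sum_nonneg fun _ _ => Finset.sum_nonneg fun _ _ => by positivity

lemma pr_sq_le (V : Finset (Site D)) (g h : SF D L) : pr V g h ^ 2 ≤ nsq V g * nsq V h := by
  unfold pr nsq
  rw [← Finset.sum_product', ← Finset.sum_product', ← Finset.sum_product']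
  exact Finset.sum_mul_sq_le_sq_mul_sq _ _ _

/-- The approximate solution in a box with source `g` in a smaller box. -/
lemma exists_green {α : ℝ} (hα : 0 < α) (h : 2 * Real.cosh α - 2 < lam0 L) (R0 : ℕ) :
    ∃ C : ℝ, 0 ≤ C ∧ ∀ (g : SF D L), (∀ x, x ∉ box D R0 → g x = 0) → (∀ x a, |g x a| ≤ 1) →
      ∀ R : ℕ, R0 ≤ R → ∃ ω : SF D L, (∀ x, x ∉ box D R → ω x = 0) ∧
        (∀ χ : SF D L, (∀ x, x ∉ box D R → χ x = 0) →
          Bf (box D R) χ ω = pr (box D R) g χ) ∧
        (∀ x a, |ω x a| ≤ C * Real.exp (-(α * dd x 0))) := by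
  classical
  have hL : 0 < lam0 L := by
    have := Real.one_le_cosh α; linarith
  have hδ : 0 < lam0 L - (2 * Real.cosh α - 2) := by linarith
  obtain ⟨C0, hC0⟩ : ∃ C0, C0 = 1 / (lam0 L - (2 * Real.cosh α - 2)) * Real.exp (2 * α) :=
    ⟨_, rfl⟩
  have hC00 : 0 ≤ C0 := by rw [hC0]; positivity
  refine ⟨((box D R0).card * (D * L)) * (C0 * Real.exp (α * R0)), by positivity,
    fun g hg hg1 R hR => ?_⟩
  -- point sources
  have hpt : ∀ y : Site D, ∀ b : Lab D L, ∃ k : SF D L, (∀ x, x ∉ box D R → k x = 0) ∧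
      (∀ χ : SF D L, (∀ x, x ∉ box D R → χ x = 0) → Bf (box D R) χ k = χ y b) ∧
      ∀ x a, |k x a| ≤ C0 * Real.exp (-(α * dd x y)) := by
    intro y b
    obtain ⟨k, hk, hk2⟩ := exists_sol_gen hL (box D R)
      ((LinearMap.proj b : (Lab D L → ℝ) →ₗ[ℝ] ℝ) ∘ₗ
        (LinearMap.proj y : (Site D → Lab D L → ℝ) →ₗ[ℝ] (Lab D L → ℝ)))
    refine ⟨k, hk, hk2, fun x a => ?_⟩
    have := decay_gen (C1 := 1) zero_le_one hα.le h (box D R) y k hk (fun χ M hχ hM hM2 => by
      rw [hk2 χ hχ, one_mul]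
      exact hM2 y (by rw [dd_le]; intro i; simp) b) x a
    rw [hC0]; exact this
  choose k hk1 hk2 hk3 using hpt
  refine ⟨∑ y ∈ box D R0, ∑ b, g y b • k y b, fun x hx => ?_, fun χ hχ => ?_, fun x a => ?_⟩
  · simp only [Finset.sum_apply, Pi.smul_apply]
    refine Finset.sum_eq_zero fun y _ => Finset.sum_eq_zero fun b _ => ?_
    rw [hk1 y b x hx, smul_zero]
  · simp only [map_sum, map_smul, smul_eq_mul, hk2 _ _ χ hχ]
    unfold pr
    refine Finset.sum_subset (fun x hx => ?_) fun x _ hx => ?_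
    · rw [mem_box] at hx ⊢
      intro i
      have := hx i
      have h2 : (R0 : ℤ) ≤ R := by exact_mod_cast hR
      constructor <;> linarith [this.1, this.2]
    · rw [hg x hx]; simp
  · simp only [Finset.sum_apply, Pi.smul_apply, smul_eq_mul]
    calc |∑ y ∈ box D R0, ∑ b, g y b * k y b x a| ≤
          ∑ y ∈ box D R0, ∑ b : Lab D L, C0 * (Real.exp (α * R0) * Real.exp (-(α * dd x 0))) := by
          refine (Finset.abs_sum_le_sum_abs _ _).trans (Finset.sum_le_sum fun y hy => ?_)
          refine (Finset.abs_sum_le_sum_abs _ _).trans (Finset.sum_le_sum fun b _ => ?_)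
          rw [abs_mul]
          have h1 : Real.exp (-(α * dd x y)) ≤ Real.exp (α * R0) * Real.exp (-(α * dd x 0)) := by
            rw [← Real.exp_add]
            apply Real.exp_le_exp.2
            have h2 : dd x 0 ≤ dd x y + R0 := by
              refine (dd_tri x y 0).trans (Nat.add_le_add_left ?_ _)
              rw [dd_le]; intro i
              have := mem_box.1 hy i
              rw [abs_le]; simp only [Pi.zero_apply, sub_zero]; exact this
            have h3 : (dd x 0 : ℝ) ≤ dd x y + R0 := by exact_mod_cast h2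
            nlinarith
          calc |g y b| * |k y b x a| ≤ 1 * (C0 * Real.exp (-(α * dd x y))) :=
                mul_le_mul (hg1 y b) (hk3 y b x a) (abs_nonneg _) zero_le_one
            _ ≤ _ := by rw [one_mul]; exact mul_le_mul_of_nonneg_left h1 hC00
      _ = _ := by
          rw [Finset.sum_const, Finset.sum_const, Finset.card_univ, nsmul_eq_mul, nsmul_eq_mul,
            Fintype.card_prod, Fintype.card_fin, Fintype.card_fin]
          push_cast; ring

/-- bounds of the solution: energy estimate -/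
lemma sol_energy (hL : 0 < lam0 L) {A : Finset (Site D)} {ω g : SF D L}
    (hω0 : ∀ x, x ∉ A → ω x = 0)
    (hω : ∀ χ : SF D L, (∀ x, x ∉ A → χ x = 0) → Bf A χ ω = pr A g χ) :
    pr A g ω ≤ nsq A g / lam0 L ∧ nsq A ω ≤ nsq A g / lam0 L ^ 2 := by
  have h1 := coer A ω hω0
  rw [hω ω hω0] at h1
  have h2 : nsq A ω ≤ ∑ x ∈ Ns A, ∑ a, ω x a ^ 2 :=
    Finset.sum_le_sum_of_subset_of_nonneg (sub_Ns A)
      fun _ _ _ => Finset.sum_nonneg fun _ _ => by positivity
  have h3 : lam0 L * nsq A ω ≤ pr A g ω := (mul_le_mul_of_nonneg_left h2 hL.le).trans h1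
  have h4 := pr_sq_le A g ω
  have h5 := nsq_nonneg A ω
  have h6 := nsq_nonneg A g
  have h7 : 0 ≤ pr A g ω := (mul_nonneg hL.le h5).trans h3
  have h8 : pr A g ω ≤ nsq A g / lam0 L := by
    rw [le_div_iff₀ hL]
    rcases h7.eq_or_lt with h | h
    · rw [← h]; linarith
    · have : pr A g ω * (pr A g ω * lam0 L) ≤ pr A g ω * nsq A g := by
        calc pr A g ω * (pr A g ω * lam0 L) = pr A g ω ^ 2 * lam0 L := by ring
          _ ≤ (nsq A g * nsq A ω) * lam0 L := mul_le_mul_of_nonneg_right h4 hL.le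
          _ = nsq A g * (lam0 L * nsq A ω) := by ring
          _ ≤ nsq A g * pr A g ω := mul_le_mul_of_nonneg_left h3 h6
          _ = _ := mul_comm _ _
      exact le_of_mul_le_mul_left this h
  refine ⟨h8, ?_⟩
  rw [le_div_iff₀ (by positivity)]
  calc nsq A ω * lam0 L ^ 2 = (lam0 L * nsq A ω) * lam0 L := by ring
    _ ≤ pr A g ω * lam0 L := mul_le_mul_of_nonneg_right h3 hL.le
    _ ≤ _ := by rw [le_div_iff₀ hL] at h8; exact h8

end

end Pool.Agent.N109.Slab
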