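import Pool.Agent.N990.Slab.Ker

/-!
# The harmonic kernel of the slab

Existence of the harmonic extension of an arbitrary exterior field into a finite set of columns,
given by a scalar kernel with exponential decay; the rate is any `α` with
`2 cosh α - 2 < lam0 L`.
-/

set_option autoImplicit false

open Finset

namespace Pool.Agent.N109.Slab

open Pool.Agent.N990

noncomputable section

variable {D L : ℕ}

/-- scalar fields -/
abbrev SF (D L : ℕ) := Site D → Lab D L → ℝ

/-- the bilinear form of the region `A` -/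
def Bf (A : Finset (Site D)) : SF D L →ₗ[ℝ] SF D L →ₗ[ℝ] ℝ :=
  LinearMap.mk₂ ℝ (fun χ ψ => ∑ x ∈ Ns A, bx χ ψ x)
    (fun χ χ' ψ => by simp only [bx_add_left, Finset.sum_add_distrib])
    (fun c χ ψ => by simp only [bx_smul_left, Finset.smul_sum])
    (fun χ ψ ψ' => by simp only [bx_add_right, Finset.sum_add_distrib])
    (fun c χ ψ => by simp only [bx_smul_right, Finset.smul_sum])

lemma Bf_apply (A : Finset (Site D)) (χ ψ : SF D L) : Bf A χ ψ = ∑ x ∈ Ns A, bx χ ψ x := rfl

/-- extension by zero -/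
def extL (A : Finset (Site D)) : (A → Lab D L → ℝ) →ₗ[ℝ] SF D L where
  toFun u := fun x a => if h : x ∈ A then u ⟨x, h⟩ a else 0
  map_add' u v := by
    funext x a
    simp only [Pi.add_apply]
    split_ifs <;> simp
  map_smul' c u := by
    funext x a
    simp only [Pi.smul_apply, RingHom.id_apply]
    split_ifs <;> simp

lemma extL_mem {A : Finset (Site D)} (u : A → Lab D L → ℝ) {x : Site D} (h : x ∈ A)
    (a : Lab D L) : extL A u x a = u ⟨x, h⟩ a := by
  simp [extL, h]

lemma extL_out {A : Finset (Site D)} (u : A → Lab D L → ℝ) {x : Site D} (h : x ∉ A) :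
    extL A u x = 0 := by
  funext a
  simp [extL, h]

lemma extL_restr {A : Finset (Site D)} {χ : SF D L} (hχ : ∀ x, x ∉ A → χ x = 0) :
    extL A (fun x => χ x.1) = χ := by
  funext x a
  by_cases h : x ∈ A
  · rw [extL_mem _ h]
  · rw [extL_out _ h, hχ x h]

lemma coer (A : Finset (Site D)) (χ : SF D L) (_hχ : ∀ x, x ∉ A → χ x = 0) :
    lam0 L * ∑ x ∈ Ns A, ∑ a, χ x a ^ 2 ≤ Bf A χ χ := by
  rw [Bf_apply, Finset.mul_sum]
  refine Finset.sum_le_sum fun x _ => ?_
  unfold bx
  have h1 := vc (E := ℝ) (χ x)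
  simp only [Real.norm_eq_abs, sq_abs] at h1
  have h2 : ∑ a, (χ x a - low (χ x) a) ^ 2 = ∑ a, dv χ x a • dv χ x a :=
    Finset.sum_congr rfl fun a _ => by simp [dv, sq]
  have h3 : 0 ≤ ∑ p ∈ plabs D L, dp χ x p • dp χ x p :=
    Finset.sum_nonneg fun p _ => by simpa using mul_self_nonneg (dp χ x p)
  linarith

/-- solvability -/
lemma exists_sol (hL : 0 < lam0 L) (A : Finset (Site D)) (ψ : SF D L) :
    ∃ k : SF D L, (∀ x, x ∉ A → k x = 0) ∧
      ∀ χ : SF D L, (∀ x, x ∉ A → χ x = 0) → Bf A χ k = -Bf A χ ψ := by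
  classical
  let V := A → Lab D L → ℝ
  let Φ : V →ₗ[ℝ] Module.Dual ℝ V := ((Bf A).compl₁₂ (extL A) (extL A)).flip
  have hΦ : ∀ u v, Φ u v = Bf A (extL A v) (extL A u) := fun u v => rfl
  have hinj : Function.Injective Φ := by
    rw [← LinearMap.ker_eq_bot, LinearMap.ker_eq_bot']
    intro u hu
    have h1 : Bf A (extL A u) (extL A u) = 0 := by rw [← hΦ, hu]; rfl
    have h2 := coer A (extL A u) (fun x hx => extL_out u hx)
    rw [h1] at h2
    have h3 : ∑ x ∈ Ns A, ∑ a, extL A u x a ^ 2 = 0 := by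
      have h4 : 0 ≤ ∑ x ∈ Ns A, ∑ a, extL A u x a ^ 2 :=
        Finset.sum_nonneg fun _ _ => Finset.sum_nonneg fun _ _ => by positivity
      nlinarith
    rw [Finset.sum_eq_zero_iff_of_nonneg
      (fun _ _ => Finset.sum_nonneg fun _ _ => by positivity)] at h3
    funext x a
    have h5 := h3 x.1 (mem_Ns.2 (Or.inl x.2))
    rw [Finset.sum_eq_zero_iff_of_nonneg (fun _ _ => by positivity)] at h5
    have h6 := h5 a (Finset.mem_univ _)
    rw [extL_mem u x.2] at h6
    have h7 : u x a = 0 := by simpa using h6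
    exact h7
  have hsurj : Function.Surjective Φ :=
    (LinearMap.injective_iff_surjective_of_finrank_eq_finrank
      (Subspace.dual_finrank_eq).symm).1 hinj
  obtain ⟨u, hu⟩ := hsurj (-((Bf A).flip ψ ∘ₗ extL A))
  refine ⟨extL A u, fun x hx => extL_out u hx, fun χ hχ => ?_⟩
  have h1 : Φ u (fun x => χ x.1) = -Bf A χ ψ := by
    rw [hu]
    simp only [LinearMap.neg_apply, LinearMap.coe_comp, Function.comp_apply, LinearMap.flip_apply]
    rw [extL_restr hχ]
  rw [hΦ, extL_restr hχ] at h1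
  exact h1

/-- crude bound of the energy density -/
lemma bx_le {χ ψ : SF D L} {x : Site D} {M R : ℝ} (hM : 0 ≤ M) (hR : 0 ≤ R)
    (h1 : ∀ a, |χ x a| ≤ M) (h2 : ∀ i a, |χ (x + ev i) a| ≤ M)
    (h3 : ∀ a, |ψ x a| ≤ R) (h4 : ∀ i a, |ψ (x + ev i) a| ≤ R) :
    |bx χ ψ x| ≤ (4 * (D * L) + 16 * (D * D * L)) * (M * R) := by
  have hlow : ∀ (φ : Lab D L → ℝ) (Q : ℝ), 0 ≤ Q → (∀ a, |φ a| ≤ Q) → ∀ a, |low φ a| ≤ Q := by
    intro φ Q hQ h a
    unfold low
    split_ifs
    · simpa using hQ
    · exact h _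
  have hdv : ∀ (φ : SF D L) (Q : ℝ), 0 ≤ Q → (∀ a, |φ x a| ≤ Q) → ∀ a, |dv φ x a| ≤ 2 * Q := by
    intro φ Q hQ h a
    unfold dv
    have e1 := h a
    have e2 := hlow (φ x) Q hQ h a
    have e3 := abs_sub (φ x a) (low (φ x) a)
    linarith
  have hdp : ∀ (φ : SF D L) (Q : ℝ), (∀ a, |φ x a| ≤ Q) → (∀ i a, |φ (x + ev i) a| ≤ Q) →
      ∀ p, |dp φ x p| ≤ 4 * Q := by
    intro φ Q h h' p
    unfold dp
    have e1 := abs_le.1 (h (p.1.1, p.2))
    have e2 := abs_le.1 (h (p.1.2, p.2))
    have e3 := abs_le.1 (h' p.1.1 (p.1.2, p.2))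
    have e4 := abs_le.1 (h' p.1.2 (p.1.1, p.2))
    rw [abs_le]
    constructor <;> linarith [e1.1, e1.2, e2.1, e2.2, e3.1, e3.2, e4.1, e4.2]
  unfold bx
  refine (abs_add_le _ _).trans ?_
  have a1 : |∑ a, dv χ x a • dv ψ x a| ≤ ∑ a : Lab D L, (4 * (M * R)) := by
    refine (Finset.abs_sum_le_sum_abs _ _).trans (Finset.sum_le_sum fun a _ => ?_)
    rw [smul_eq_mul, abs_mul]
    have e1 := hdv χ M hM h1 a
    have e2 := hdv ψ R hR h3 a
    calc |dv χ x a| * |dv ψ x a| ≤ (2 * M) * (2 * R) :=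
          mul_le_mul e1 e2 (abs_nonneg _) (by positivity)
      _ = 4 * (M * R) := by ring
  have a2 : |∑ p ∈ plabs D L, dp χ x p • dp ψ x p| ≤
      ∑ p : (Fin D × Fin D) × Fin L, (16 * (M * R)) := by
    refine (Finset.abs_sum_le_sum_abs _ _).trans ?_
    refine (Finset.sum_le_sum (g := fun _ => 16 * (M * R)) fun p _ => ?_).trans
      (Finset.sum_le_sum_of_subset_of_nonneg (Finset.subset_univ _) fun _ _ _ => by positivity)
    rw [smul_eq_mul, abs_mul]
    have e1 := hdp χ M h1 h2 p
    have e2 := hdp ψ R h3 h4 p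
    calc |dp χ x p| * |dp ψ x p| ≤ (4 * M) * (4 * R) :=
          mul_le_mul e1 e2 (abs_nonneg _) (by positivity)
      _ = 16 * (M * R) := by ring
  refine (add_le_add a1 a2).trans (le_of_eq ?_)
  rw [Finset.sum_const, Finset.sum_const, Finset.card_univ, Finset.card_univ, nsmul_eq_mul,
    nsmul_eq_mul, Fintype.card_prod, Fintype.card_prod, Fintype.card_prod, Fintype.card_fin,
    Fintype.card_fin]
  push_cast
  ring

/-- point mass -/
def dl (y : Site D) (b : Lab D L) : SF D L := fun x a => if x = y ∧ a = b then 1 else 0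

lemma dl_le (y : Site D) (b : Lab D L) (x : Site D) (a : Lab D L) : |dl y b x a| ≤ 1 := by
  unfold dl; split_ifs <;> simp

lemma dl_ne {y : Site D} {b : Lab D L} {x : Site D} (h : x ≠ y) : dl y b x = 0 := by
  funext a; simp [dl, h]

lemma bx_zero' {χ ψ : SF D L} {x : Site D} (h : ψ x = 0)
    (h' : ∀ i, ψ (x + ev i) = 0) : bx χ ψ x = 0 := by
  unfold bx
  rw [Finset.sum_eq_zero, Finset.sum_eq_zero, add_zero]
  · intro p _; rw [dp_zero h h', smul_zero]
  · intro a _; rw [dv_zero h, smul_zero]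

/-- the energy of a field against a point mass -/
lemma Bf_dl_le (A : Finset (Site D)) (y : Site D) (b : Lab D L) (χ : SF D L) {M : ℝ} (hM : 0 ≤ M)
    (h : ∀ x, dd x y ≤ 1 → ∀ a, |χ x a| ≤ M) :
    |Bf A χ (dl y b)| ≤ ((D + 1) * (4 * (D * L) + 16 * (D * D * L))) * M := by
  classical
  set S : Finset (Site D) := insert y (Finset.univ.image fun i : Fin D => y - ev i) with hS
  have h0 : ∀ x, x ∉ S → bx χ (dl y b) x = 0 := by
    intro x hx
    rw [hS, Finset.mem_insert, not_or, Finset.mem_image] at hx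
    refine bx_zero' (dl_ne hx.1) fun i => dl_ne fun h' => hx.2 ⟨i, Finset.mem_univ _, ?_⟩
    rw [← h']; simp
  have hdd : ∀ x ∈ S, dd x y ≤ 1 ∧ ∀ i, dd (x + ev i) y ≤ 1 := by
    intro x hx
    rw [hS, Finset.mem_insert, Finset.mem_image] at hx
    have hev : ∀ i j : Fin D, (ev i : Site D) j = 0 ∨ (ev i : Site D) j = 1 := by
      intro i j
      unfold ev
      by_cases hij : j = i
      · subst hij; right; simp
      · left; simp [hij]
    rcases hx with rfl | ⟨i, _, rfl⟩
    · constructor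
      · unfold dd
        refine Finset.sup_le fun j _ => ?_
        simp
      · intro i
        unfold dd
        refine Finset.sup_le fun j _ => ?_
        rcases hev i j with h | h <;> simp [h]
    · constructor
      · unfold dd
        refine Finset.sup_le fun j _ => ?_
        rcases hev i j with h | h <;> simp [h]
      · intro i'
        unfold dd
        refine Finset.sup_le fun j _ => ?_
        rcases hev i j with h | h <;> rcases hev i' j with h2 | h2 <;> simp [h, h2]
  have h1 : ∀ x ∈ S, |bx χ (dl y b) x| ≤ (4 * (D * L) + 16 * (D * D * L)) * M := by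
    intro x hx
    have := bx_le (χ := χ) (ψ := dl y b) (x := x) (M := M) (R := 1) hM zero_le_one
      (fun a => h x (hdd x hx).1 a) (fun i a => h _ ((hdd x hx).2 i) a)
      (fun a => dl_le y b x a) (fun i a => dl_le y b _ a)
    simpa using this
  rw [Bf_apply]
  have hC : (0 : ℝ) ≤ (4 * (D * L) + 16 * (D * D * L)) * M := by positivity
  calc |∑ x ∈ Ns A, bx χ (dl y b) x| ≤ ∑ x ∈ Ns A, |bx χ (dl y b) x| :=
        Finset.abs_sum_le_sum_abs _ _
    _ = ∑ x ∈ Ns A ∩ S, |bx χ (dl y b) x| := by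
        symm
        refine Finset.sum_subset Finset.inter_subset_left fun x hx hx' => ?_
        rw [h0 x (fun h' => hx' (Finset.mem_inter.2 ⟨hx, h'⟩)), abs_zero]
    _ ≤ ∑ x ∈ Ns A ∩ S, (4 * (D * L) + 16 * (D * D * L)) * M :=
        Finset.sum_le_sum fun x hx => h1 x (Finset.mem_inter.1 hx).2
    _ ≤ ∑ x ∈ S, (4 * (D * L) + 16 * (D * D * L)) * M :=
        Finset.sum_le_sum_of_subset_of_nonneg Finset.inter_subset_right fun _ _ _ => hC
    _ = (S.card : ℝ) * ((4 * (D * L) + 16 * (D * D * L)) * M) := by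
        rw [Finset.sum_const, nsmul_eq_mul]
    _ ≤ ((D : ℝ) + 1) * ((4 * (D * L) + 16 * (D * D * L)) * M) := by
        refine mul_le_mul_of_nonneg_right ?_ hC
        have c1 : S.card ≤ D + 1 := by
          rw [hS]
          refine (Finset.card_insert_le _ _).trans ?_
          have : (Finset.univ.image fun i : Fin D => y - ev i).card ≤ D :=
            Finset.card_image_le.trans (by simp)
          omega
        exact_mod_cast c1
    _ = _ := by ring

lemma mulw_divw {T u : SF D L} (hT : ∀ x a, 0 < T x a) : divw T (mulw T u) = u := by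
  funext x a
  unfold divw mulw
  have := (hT x a).ne'
  field_simp

lemma cosh_neg_one_mul {α : ℝ} {s : ℝ} (hs : s = 1 ∨ s = -1) :
    Real.cosh (s * α) = Real.cosh α := by
  rcases hs with rfl | rfl
  · simp
  · rw [neg_one_mul, Real.cosh_neg]

/-- the constant of the kernel -/
def CK (D L : ℕ) (α : ℝ) : ℝ :=
  1 + ((D + 1) * (4 * (D * L) + 16 * (D * D * L))) / (lam0 L - (2 * Real.cosh α - 2)) *
    Real.exp (2 * α)

/-- decay of the kernel -/
lemma decay {α : ℝ} (hα : 0 ≤ α) (h : 2 * Real.cosh α - 2 < lam0 L) (A : Finset (Site D))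
    (y : Site D) (b : Lab D L) (k : SF D L) (hk : ∀ x, x ∉ A → k x = 0)
    (hk2 : ∀ χ : SF D L, (∀ x, x ∉ A → χ x = 0) → Bf A χ k = -Bf A χ (dl y b))
    (x : Site D) (a : Lab D L) : |k x a| ≤ CK D L α * Real.exp (-(α * dd x y)) := by
  classical
  have hδ : 0 < lam0 L - (2 * Real.cosh α - 2) := by linarith
  -- the direction
  obtain ⟨j, -, hj⟩ := Finset.exists_mem_eq_sup (Finset.univ : Finset (Fin D))
    ⟨a.1, Finset.mem_univ _⟩ fun i => (x i - y i).natAbs
  have hj' : dd x y = (x j - y j).natAbs := hj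
  obtain ⟨s, hs, hs2⟩ : ∃ s : ℝ, (s = 1 ∨ s = -1) ∧ s * ((x j : ℝ) - y j) = dd x y := by
    rw [hj']
    rcases le_total 0 (x j - y j) with h0 | h0
    · refine ⟨1, Or.inl rfl, ?_⟩
      rw [one_mul, Nat.cast_natAbs, abs_of_nonneg h0]; push_cast; ring
    · refine ⟨-1, Or.inr rfl, ?_⟩
      rw [Nat.cast_natAbs, abs_of_nonpos h0]; push_cast; ring
  have hsabs : |s| = 1 := by rcases hs with rfl | rfl <;> simp
  set T : SF D L := Tw (s * α) j with hT
  have hTpos : ∀ x a, 0 < T x a := fun x a => Tw_pos _ _ _ _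
  set u : SF D L := mulw T k with hu
  have hu0 : ∀ x, x ∉ A → u x = 0 := by
    intro x hx; funext a; rw [hu]; unfold mulw; rw [hk x hx]; simp
  have hct := ct_ineq A (s * α) j u hu0
  rw [cosh_neg_one_mul hs, ← hT] at hct
  have e1 : divw T u = k := mulw_divw hTpos
  rw [e1] at hct
  set χ : SF D L := mulw T u with hχ
  have hχ0 : ∀ x, x ∉ A → χ x = 0 := by
    intro x hx; funext a; rw [hχ]; unfold mulw; rw [hu0 x hx]; simp
  have e2 : ∑ x ∈ Ns A, bx χ k x = -Bf A χ (dl y b) := hk2 χ hχ0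
  rw [e2] at hct
  set Q : ℝ := ∑ x ∈ A, ∑ a, u x a ^ 2 with hQ
  have hQ0 : 0 ≤ Q := Finset.sum_nonneg fun _ _ => Finset.sum_nonneg fun _ _ => by positivity
  set S : ℝ := Real.sqrt Q with hS
  have hS0 : 0 ≤ S := Real.sqrt_nonneg _
  have hSQ : S ^ 2 = Q := Real.sq_sqrt hQ0
  have hle : ∀ x a, |u x a| ≤ S := by
    intro x a
    by_cases hx : x ∈ A
    · rw [hS]
      apply Real.abs_le_sqrt
      calc u x a ^ 2 ≤ ∑ a, u x a ^ 2 :=
            Finset.single_le_sum (f := fun a => u x a ^ 2) (fun _ _ => by positivity)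
              (Finset.mem_univ a)
        _ ≤ Q := Finset.single_le_sum (f := fun x => ∑ a, u x a ^ 2)
            (fun _ _ => Finset.sum_nonneg fun _ _ => by positivity) hx
    · rw [hu0 x hx]; simpa using hS0
  -- bound of the weights
  have hT1 : ∀ x', dd x' y ≤ 1 → ∀ a, T x' a ≤ Real.exp (s * α * y j + 3 / 2 * α) := by
    intro x' hx' a
    rw [hT]; unfold Tw
    apply Real.exp_le_exp.2
    have h1 : (x' j - y j).natAbs ≤ 1 := by
      refine le_trans ?_ hx'
      exact Finset.le_sup (f := fun i => (x' i - y i).natAbs) (Finset.mem_univ j)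
    have h2 : |((x' j : ℝ) - y j)| ≤ 1 := by
      have : |x' j - y j| ≤ 1 := by
        rw [← Int.natCast_natAbs]; exact_mod_cast h1
      exact_mod_cast this
    have h3 : s * ((x' j : ℝ) - y j) ≤ 1 := by
      calc s * ((x' j : ℝ) - y j) ≤ |s * ((x' j : ℝ) - y j)| := le_abs_self _
        _ = |(x' j : ℝ) - y j| := by rw [abs_mul, hsabs, one_mul]
        _ ≤ 1 := h2
    have h4 : s * (if a.1 = j then 1 / 2 else 0 : ℝ) ≤ 1 / 2 := by
      split_ifs <;> rcases hs with rfl | rfl <;> norm_num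
    have h5 : s * α * ((x' j : ℝ) + if a.1 = j then 1 / 2 else 0) =
        s * α * y j + α * (s * ((x' j : ℝ) - y j)) +
          α * (s * (if a.1 = j then 1 / 2 else 0 : ℝ)) := by ring
    rw [h5]
    have h6 := mul_le_mul_of_nonneg_left h3 hα
    have h7 := mul_le_mul_of_nonneg_left h4 hα
    linarith
  set M : ℝ := Real.exp (s * α * y j + 3 / 2 * α) * S with hM
  have hM0 : 0 ≤ M := by positivity
  have hb := Bf_dl_le A y b χ hM0 (fun x' hx' a => by
    rw [hχ]; unfold mulw
    rw [abs_mul, abs_of_pos (hTpos _ _)]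
    exact mul_le_mul (hT1 x' hx' a) (hle x' a) (abs_nonneg _) (Real.exp_pos _).le)
  set C1 : ℝ := (D + 1) * (4 * (D * L) + 16 * (D * D * L)) with hC1
  have hC10 : 0 ≤ C1 := by positivity
  have h1 : (lam0 L - (2 * Real.cosh α - 2)) * S ^ 2 ≤ C1 * M := by
    rw [hSQ]
    refine hct.trans ?_
    exact (neg_le_abs _).trans hb
  have h2 : S ≤ C1 / (lam0 L - (2 * Real.cosh α - 2)) * Real.exp (s * α * y j + 3 / 2 * α) := by
    rcases hS0.eq_or_lt with h0 | h0
    · rw [← h0]; positivity
    · have h3 : (lam0 L - (2 * Real.cosh α - 2)) * S ≤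
          C1 * Real.exp (s * α * y j + 3 / 2 * α) := by
        have h4 : ((lam0 L - (2 * Real.cosh α - 2)) * S) * S ≤
            (C1 * Real.exp (s * α * y j + 3 / 2 * α)) * S := by
          rw [hM] at h1
          calc ((lam0 L - (2 * Real.cosh α - 2)) * S) * S =
              (lam0 L - (2 * Real.cosh α - 2)) * S ^ 2 := by ring
            _ ≤ _ := h1
            _ = _ := by ring
        exact le_of_mul_le_mul_right h4 h0
      rw [div_mul_eq_mul_div, le_div_iff₀ hδ]
      linarith
  have h3 : |k x a| = (T x a)⁻¹ * |u x a| := by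
    rw [hu]; unfold mulw
    rw [abs_mul, abs_of_pos (hTpos _ _)]
    have := (hTpos x a).ne'
    field_simp
  have h4 : (T x a)⁻¹ ≤ Real.exp (-(s * α * x j) + 1 / 2 * α) := by
    rw [hT]; unfold Tw
    rw [← Real.exp_neg]
    apply Real.exp_le_exp.2
    have h4 : -(1 / 2 : ℝ) ≤ s * (if a.1 = j then 1 / 2 else 0 : ℝ) := by
      split_ifs <;> rcases hs with rfl | rfl <;> norm_num
    have h7 := mul_le_mul_of_nonneg_left h4 hα
    have h5 : s * α * ((x j : ℝ) + if a.1 = j then 1 / 2 else 0) =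
        s * α * x j + α * (s * (if a.1 = j then 1 / 2 else 0 : ℝ)) := by ring
    rw [h5]; linarith
  rw [h3]
  calc (T x a)⁻¹ * |u x a| ≤ Real.exp (-(s * α * x j) + 1 / 2 * α) * S :=
        mul_le_mul h4 (hle x a) (abs_nonneg _) (Real.exp_pos _).le
    _ ≤ Real.exp (-(s * α * x j) + 1 / 2 * α) * (C1 / (lam0 L - (2 * Real.cosh α - 2)) *
          Real.exp (s * α * y j + 3 / 2 * α)) :=
        mul_le_mul_of_nonneg_left h2 (Real.exp_pos _).le
    _ = C1 / (lam0 L - (2 * Real.cosh α - 2)) * Real.exp (2 * α) * Real.exp (-(α * dd x y)) := by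
        rw [← hs2]
        have : Real.exp (-(s * α * x j) + 1 / 2 * α) * Real.exp (s * α * y j + 3 / 2 * α) =
            Real.exp (2 * α) * Real.exp (-(α * (s * ((x j : ℝ) - y j)))) := by
          rw [← Real.exp_add, ← Real.exp_add]; congr 1; ring
        linear_combination (C1 / (lam0 L - (2 * Real.cosh α - 2))) * this
    _ ≤ CK D L α * Real.exp (-(α * dd x y)) := by
        refine mul_le_mul_of_nonneg_right ?_ (Real.exp_pos _).le
        unfold CK
        rw [← hC1]
        linarith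

/-! ### The kernel and the harmonic extension -/

/-- the outer boundary of `A`: the sites outside `A` which occur in the terms touching `A` -/
def bdA (A : Finset (Site D)) : Finset (Site D) := by
  classical exact (Ns A ∪ Finset.univ.biUnion fun i : Fin D => (Ns A).image fun x => x + ev i) \ A

lemma mem_bdA {A : Finset (Site D)} {y : Site D} :
    y ∈ bdA A ↔ (y ∈ Ns A ∨ ∃ i, ∃ x ∈ Ns A, x + ev i = y) ∧ y ∉ A := by
  classical
  unfold bdA
  simp only [Finset.mem_sdiff, Finset.mem_union, Finset.mem_biUnion, Finset.mem_univ, true_and,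
    Finset.mem_image]

section ext

variable {E : Type*} [AddCommGroup E] [Module ℝ E]

/-- scalar field times vector -/
def tens (k : SF D L) (e : E) : Site D → Lab D L → E := fun x a => k x a • e

lemma low_tens (k : Lab D L → ℝ) (e : E) (a : Lab D L) :
    low (fun a => k a • e) a = low k a • e := by
  unfold low; split_ifs <;> simp

lemma dv_tens (k : SF D L) (e : E) (x : Site D) (a : Lab D L) :
    dv (tens k e) x a = dv k x a • e := by
  have h : low (tens k e x) a = low (k x) a • e := low_tens (k x) e a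
  unfold dv
  rw [h]; unfold tens; rw [sub_smul]

lemma dp_tens (k : SF D L) (e : E) (x : Site D) (p : (Fin D × Fin D) × Fin L) :
    dp (tens k e) x p = dp k x p • e := by
  unfold dp tens
  rw [sub_smul, sub_smul, add_smul]

lemma bx_tens (χ k : SF D L) (e : E) (x : Site D) :
    bx χ (tens k e) x = (bx χ k x) • e := by
  unfold bx
  simp only [dv_tens, dp_tens, smul_smul, add_smul, Finset.sum_smul, smul_eq_mul]

/-- locality of the energy -/
lemma bx_congr {χ : SF D L} {φ ψ : Site D → Lab D L → E} {x : Site D} (h : φ x = ψ x)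
    (h' : ∀ i, φ (x + ev i) = ψ (x + ev i)) : bx χ φ x = bx χ ψ x := by
  unfold bx dv dp
  rw [h]
  simp only [h']

end ext

/-- **The harmonic kernel of the slab.** -/
theorem exists_kernel (D L : ℕ) {α : ℝ} (hα : 0 ≤ α) (h : 2 * Real.cosh α - 2 < lam0 L)
    (A : Finset (Site D)) :
    ∃ k : Site D → Lab D L → Site D → Lab D L → ℝ,
      (∀ x a y b, x ∉ A → k x a y b = 0) ∧
      (∀ x a y b, |k x a y b| ≤ CK D L α * Real.exp (-(α * dd x y))) ∧
      ∀ (E : Type) [AddCommGroup E] [Module ℝ E] (z : Site D → Lab D L → E),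
        Harm A (fun x a => (if x ∈ A then 0 else z x a) +
          ∑ y ∈ bdA A, ∑ b, k x a y b • z y b) := by
  classical
  have hL : 0 < lam0 L := by
    have := Real.one_le_cosh α; linarith
  choose k hk hk2 using fun y b => exists_sol hL A (dl (L := L) y b)
  refine ⟨fun x a y b => k y b x a, fun x a y b hx => by simp only [hk y b x hx]; rfl,
    fun x a y b => decay hα h A y b (k y b) (hk y b) (hk2 y b) x a, ?_⟩
  intro E _ _ z
  rw [harm_iff]
  intro χ hχ
  -- the field as a sum of tensors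
  set F1 : Site D → Lab D L → E := fun x a => if x ∈ A then 0 else z x a with hF1
  set F2 : Site D → Lab D L → E := ∑ y ∈ bdA A, ∑ b, tens (k y b) (z y b) with hF2
  have e1 : (fun x a => (if x ∈ A then 0 else z x a) +
      ∑ y ∈ bdA A, ∑ b, k y b x a • z y b) = F1 + F2 := by
    funext x a
    simp only [hF1, hF2, Pi.add_apply, Finset.sum_apply, tens]
  rw [e1]
  set F3 : Site D → Lab D L → E := ∑ y ∈ bdA A, ∑ b, tens (dl y b) (z y b) with hF3
  have hF3a : ∀ x a, F3 x a = if x ∈ bdA A then z x a else 0 := by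
    intro x a
    rw [hF3]
    simp only [Finset.sum_apply, tens, dl]
    by_cases hx : x ∈ bdA A
    · rw [if_pos hx, Finset.sum_eq_single x, Finset.sum_eq_single a]
      · simp
      · intro b _ hb; rw [if_neg, zero_smul]; exact fun h' => hb h'.2.symm
      · intro h'; exact absurd (Finset.mem_univ _) h'
      · intro y _ hy; refine Finset.sum_eq_zero fun b _ => ?_
        rw [if_neg, zero_smul]; exact fun h' => hy h'.1.symm
      · intro h'; exact absurd hx h'
    · rw [if_neg hx]
      refine Finset.sum_eq_zero fun y hy => Finset.sum_eq_zero fun b _ => ?_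
      rw [if_neg, zero_smul]
      rintro ⟨rfl, _⟩; exact hx hy
  have e2 : ∀ x ∈ Ns A, bx χ F1 x = bx χ F3 x := by
    intro x hx
    have key : ∀ x' : Site D, (x' = x ∨ ∃ i, x' = x + ev i) → F1 x' = F3 x' := by
      intro x' hx'
      funext a
      rw [hF3a]
      simp only [hF1]
      by_cases hA : x' ∈ A
      · rw [if_pos hA, if_neg]
        intro h'; exact (mem_bdA.1 h').2 hA
      · rw [if_neg hA, if_pos]
        rw [mem_bdA]
        refine ⟨?_, hA⟩
        rcases hx' with rfl | ⟨i, rfl⟩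
        · exact Or.inl hx
        · exact Or.inr ⟨i, x, hx, rfl⟩
    exact bx_congr (key x (Or.inl rfl)) fun i => key _ (Or.inr ⟨i, rfl⟩)
  have e3 : ∑ x ∈ Ns A, bx χ (F1 + F2) x = ∑ x ∈ Ns A, bx χ F3 x + ∑ x ∈ Ns A, bx χ F2 x := by
    rw [← Finset.sum_add_distrib]
    refine Finset.sum_congr rfl fun x hx => ?_
    rw [bx_add_right, e2 x hx]
  have e4 : ∀ (q : Site D → Lab D L → SF D L),
      ∑ x ∈ Ns A, bx χ (∑ y ∈ bdA A, ∑ b, tens (q y b) (z y b)) x =
      ∑ y ∈ bdA A, ∑ b, (Bf A χ (q y b)) • z y b := by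
    intro q
    simp only [bx_sum_right, bx_tens, Bf_apply, Finset.sum_smul]
    rw [Finset.sum_comm]
    refine Finset.sum_congr rfl fun y _ => ?_
    rw [Finset.sum_comm]
  rw [e3, hF2, hF3, e4, e4, ← Finset.sum_add_distrib]
  refine Finset.sum_eq_zero fun y _ => ?_
  rw [← Finset.sum_add_distrib]
  refine Finset.sum_eq_zero fun b _ => ?_
  rw [hk2 y b χ hχ, neg_smul, add_neg_cancel]

/-- **Harmonic extension with exponential decay**, for fields with values in a normed space; the
values stay in every submodule containing the values of the exterior field. -/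
theorem exists_harm (D L : ℕ) {α : ℝ} (hα : 0 ≤ α) (h : 2 * Real.cosh α - 2 < lam0 L)
    (A : Finset (Site D)) (E : Type) [NormedAddCommGroup E] [NormedSpace ℝ E]
    (W : Submodule ℝ E) (z : Site D → Lab D L → E) (hz : ∀ x a, z x a ∈ W) :
    ∃ w : Site D → Lab D L → E, (∀ x, x ∉ A → w x = z x) ∧ (∀ x a, w x a ∈ W) ∧ Harm A w ∧
      ∀ x ∈ A, ∀ a, ‖w x a‖ ≤ CK D L α * ∑ y ∈ bdA A, Real.exp (-(α * dd x y)) * ∑ b, ‖z y b‖ := by
  classical
  obtain ⟨k, hk1, hk2, hk3⟩ := exists_kernel D L hα h A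
  refine ⟨_, fun x hx => ?_, fun x a => ?_, hk3 E z, fun x hx a => ?_⟩
  · funext a
    simp only [if_neg hx]
    rw [Finset.sum_eq_zero, add_zero]
    intro y _
    refine Finset.sum_eq_zero fun b _ => ?_
    rw [hk1 x a y b hx, zero_smul]
  · refine W.add_mem ?_ (W.sum_mem fun y _ => W.sum_mem fun b _ => W.smul_mem _ (hz y b))
    split_ifs
    · exact W.zero_mem
    · exact hz x a
  · simp only [if_pos hx, zero_add]
    refine (norm_sum_le _ _).trans ?_
    rw [Finset.mul_sum]
    refine Finset.sum_le_sum fun y _ => ?_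
    refine (norm_sum_le _ _).trans ?_
    rw [Finset.mul_sum, Finset.mul_sum]
    refine Finset.sum_le_sum fun b _ => ?_
    rw [norm_smul, Real.norm_eq_abs, ← mul_assoc]
    exact mul_le_mul_of_nonneg_right (hk2 x a y b) (norm_nonneg _)

end

end Pool.Agent.N109.Slab
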