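import Pool.Agent.N109.Slab.Gr

/-!
# Limits of the covariances at weak coupling
-/

set_option autoImplicit false
set_option linter.unusedSectionVars false
set_option linter.unusedVariables false
set_option linter.style.haveILetI false

open MeasureTheory Matrix Finset Filter
open scoped Matrix.Norms.Frobenius ENNReal

namespace Pool.Agent.N109.Slab

open Pool.Agent.N990

noncomputable section

variable {N D L : ℕ} {G : Subgroup (UU N)} [MeasurableSpace G] [BorelSpace G]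

/-- hypotheses on the infinite volume state -/
structure Stt (G : Subgroup (UU N)) (D L : ℕ) [MeasurableSpace G] (e β : ℝ)
    (μ : Measure (Cf G D L)) : Prop where
  shf : Shf G D L β μ
  mb : ∀ y a, μ.real {σ : Cf G D L | β ^ (-1 / 2 + e) / 2 < ‖Yf σ y a‖} ≤
    Real.exp (-β ^ (e / 2))

/-- **The Schwinger-Dyson limit.** -/
theorem sd_lim {X : Mt N} {γ : ℝ → G} {κ : ℝ} (h1 : OneP X γ κ) {e : ℝ} (he : 0 < e)
    (he2 : e ≤ 1 / 10) :
    ∃ β₀ ≥ (1 : ℝ), ∀ β ≥ β₀, ∀ μ : Measure (Cf G D L), Stt G D L e β μ →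
      ∀ (V : Finset (Site D)) (ω c : SF D L), (V.card : ℝ) ≤ β ^ (e / 16) →
      (∀ x a, |ω x a| ≤ 1) → (∀ x, x ∉ V → ω x = 0) → (∀ x a, |c x a| ≤ 1) →
      |β * ∫ σ, pr V c (sc X σ) * Bf V ω (sc X σ) ∂μ - pr V c ω| ≤ β ^ (-(e / 4)) ∧
      |β * ∫ σ, Bf V ω (sc X σ) ∂μ| ≤ β ^ (1 / 2 - e) := by
  obtain ⟨β₀, hβ₀, H⟩ := asym D L N h1.hκ he he2
  refine ⟨β₀, hβ₀, fun β hβ μ hμ V ω c hV hω1 hω0 hc => ?_⟩
  have hβ0 : 0 ≤ β := by linarith
  obtain ⟨t0, t1, t2, t3, t4, t5, t6⟩ := H β hβ V.card (Nat.cast_nonneg _) hV _ _ _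
    (V.card * (D * L)) rfl rfl rfl rfl
  set δ := β ^ (-1 / 2 + e) with hδ
  set t := β ^ (-1 / 2 - 4 * e) with ht
  have hd : Dt G D L β μ X γ κ δ t (Real.exp (-β ^ (e / 2))) V ω :=
    ⟨hμ.shf, h1, hβ0, t0, t1, t2, t3, hω1, hω0, hμ.mb⟩
  have m1 := hd.main hc t4 (Real.exp_pos _).le rfl
  have m2 := hd.main1 t4 (Real.exp_pos _).le
  have n1 := m1.trans t5
  have n2 := m2.trans t6
  constructor
  · have e1 : (β * t) * ∫ σ, pr V c (sc X σ) * Dt.BB X V ω σ ∂μ - t * pr V c ω =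
        t * (β * ∫ σ, pr V c (sc X σ) * Bf V ω (sc X σ) ∂μ - pr V c ω) := by
      have : ∀ σ : Cf G D L, Dt.BB X V ω σ = Bf V ω (sc X σ) := fun σ => rfl
      simp only [this]; ring
    rw [e1, abs_mul, abs_of_pos t0] at n1
    exact le_of_mul_le_mul_left n1 t0
  · have e1 : (β * t) * ∫ σ, Dt.BB X V ω σ ∂μ = t * (β * ∫ σ, Bf V ω (sc X σ) ∂μ) := by
      have : ∀ σ : Cf G D L, Dt.BB X V ω σ = Bf V ω (sc X σ) := fun σ => rfl
      simp only [this]; ring
    rw [e1, abs_mul, abs_of_pos t0] at n2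
    exact le_of_mul_le_mul_left n2 t0

/-! ### observables -/

lemma pr_mono {V W : Finset (Site D)} (h : V ⊆ W) {g : SF D L} (hg : ∀ x, x ∉ V → g x = 0)
    (φ : SF D L) : pr W g φ = pr V g φ := by
  unfold pr
  symm
  refine Finset.sum_subset h fun x _ hx => ?_
  rw [hg x hx]; simp

lemma box_mono {R R' : ℕ} (h : R ≤ R') : box D R ⊆ box D R' := by
  intro x hx
  rw [mem_box] at hx ⊢
  intro i
  have := hx i
  have h2 : (R : ℤ) ≤ R' := by exact_mod_cast h
  constructor <;> linarith [this.1, this.2]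

/-- bound of a pairing, without normalisation -/
lemma pr_le' {V : Finset (Site D)} {c φ : SF D L} {m q : ℝ} (hm : 0 ≤ m) (hq : 0 ≤ q)
    (hc : ∀ x ∈ V, ∀ a, |c x a| ≤ q) (hφ : ∀ x ∈ V, ∀ a, |φ x a| ≤ m) :
    |pr V c φ| ≤ (V.card * (D * L)) * (q * m) := by
  unfold pr
  calc |∑ x ∈ V, ∑ a, c x a * φ x a| ≤ ∑ x ∈ V, |∑ a, c x a * φ x a| :=
        Finset.abs_sum_le_sum_abs _ _
    _ ≤ ∑ x ∈ V, (D * L : ℝ) * (q * m) := by
        refine Finset.sum_le_sum fun x hx => ?_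
        refine (Finset.abs_sum_le_sum_abs _ _).trans ?_
        refine (Finset.sum_le_sum (g := fun _ => q * m) fun a _ => ?_).trans ?_
        · rw [abs_mul]
          exact mul_le_mul (hc x hx a) (hφ x hx a) (abs_nonneg _) hq
        · rw [Finset.sum_const, Finset.card_univ, nsmul_eq_mul, Fintype.card_prod, Fintype.card_fin,
            Fintype.card_fin]
          push_cast; exact le_rfl
    _ = _ := by rw [Finset.sum_const, nsmul_eq_mul]; ring

lemma bdA_card (A : Finset (Site D)) :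
    ((bdA A).card : ℝ) ≤ ((D : ℝ) + 1) * ((D + 1) * A.card) := by
  have h : bdA A ⊆ clA A := by rw [clA_eq]; exact Finset.subset_union_right
  have := (Finset.card_le_card h).trans (clA_card A)
  exact_mod_cast this

/-- the radius of the large box -/
def rad (α : ℝ) (R0 : ℕ) (β : ℝ) : ℕ := ⌈2 / α * Real.log β⌉₊ + R0

lemma rad_ge {α β : ℝ} (hα : 0 < α) (hβ : 1 ≤ β) (R0 : ℕ) :
    Real.exp (-(α * rad α R0 β)) ≤ β ^ (-2 : ℝ) := by
  have h1 : 2 / α * Real.log β ≤ rad α R0 β := by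
    unfold rad
    push_cast
    have := Nat.le_ceil (2 / α * Real.log β)
    have : (0 : ℝ) ≤ R0 := Nat.cast_nonneg _
    linarith
  have e : β ^ (-2 : ℝ) = Real.exp (Real.log β * (-2)) := Real.rpow_def_of_pos (by linarith) _
  rw [e]
  apply Real.exp_le_exp.2
  have h2 := mul_le_mul_of_nonneg_left h1 hα.le
  have h3 : α * (2 / α * Real.log β) = 2 * Real.log β := by field_simp
  linarith

/-- powers of the radius are small -/
lemma ev_radius {α : ℝ} (hα : 0 < α) (R0 D : ℕ) {a : ℝ} (ha : 0 < a) :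
    ∀ᶠ β : ℝ in atTop, (2 * (rad α R0 β : ℝ) + 1) ^ D ≤ β ^ a := by
  obtain ⟨b, hb⟩ : ∃ b : ℝ, b = a / (2 * (D + 1)) := ⟨_, rfl⟩
  have hn : (0 : ℝ) < 2 * (D + 1) := by positivity
  have hb0 : 0 < b := hb ▸ div_pos ha hn
  have hb1 : b * D < a := by
    have h1 : b * (2 * (D + 1)) = a := by rw [hb]; exact div_mul_cancel₀ _ hn.ne'
    have : (0 : ℝ) ≤ D := Nat.cast_nonneg _
    nlinarith
  have h1 := evl (2 * (2 * (2 / α))) hb0
  have h2 := evr (a := b) (b := 0) (2 * (2 * (R0 + 1) + 1)) hb0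
  filter_upwards [h1, h2, eventually_ge_atTop 1] with β h1 h2 h4
  rw [Real.rpow_zero, mul_one] at h2
  have h5 : (rad α R0 β : ℝ) ≤ 2 / α * Real.log β + (R0 + 1) := by
    unfold rad
    push_cast
    have := (Nat.ceil_lt_add_one (mul_nonneg (by positivity : 0 ≤ 2 / α) (Real.log_nonneg h4))).le
    linarith
  have h6 : 2 * (rad α R0 β : ℝ) + 1 ≤ β ^ b := by linarith
  calc (2 * (rad α R0 β : ℝ) + 1) ^ D ≤ (β ^ b) ^ D := by gcongr
    _ = β ^ (b * D) := by rw [← Real.rpow_natCast, ← Real.rpow_mul (by linarith)]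
    _ ≤ β ^ a := Real.rpow_le_rpow_of_exponent_le h4 hb1.le

/-- the bound for normalised observables -/
lemma var_bd1 {X : Mt N} {γ : ℝ → G} {κ : ℝ} (h1 : OneP X γ κ) {e : ℝ} (he : 0 < e)
    (he2 : e ≤ 1 / 10) (hL : 0 < lam0 L) {R0 : ℕ} {g : SF D L} (hg0 : ∀ x, x ∉ box D R0 → g x = 0)
    (hg1 : ∀ x a, |g x a| ≤ 1) (hg2 : nsq (box D R0) g ≤ lam0 L ^ 2) {ε : ℝ} (hε : 0 < ε) :
    ∃ β₀ ≥ (1 : ℝ), ∀ β ≥ β₀, ∀ μ : Measure (Cf G D L), Stt G D L e β μ →
      β * ∫ σ, pr (box D R0) g (sc X σ) ^ 2 ∂μ ≤ nsq (box D R0) g / lam0 L + ε ∧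
      |β * ∫ σ, pr (box D R0) g (sc X σ) ∂μ| ≤ ε * β ^ (1 / 2 : ℝ) := by
  classical
  -- the rate
  obtain ⟨α, hα, hαL⟩ : ∃ α : ℝ, 0 < α ∧ 2 * Real.cosh α - 2 < lam0 L := by
    have hc : Tendsto (fun α : ℝ => 2 * Real.cosh α - 2) (nhdsWithin 0 (Set.Ioi 0)) (nhds 0) := by
      have : Continuous fun α : ℝ => 2 * Real.cosh α - 2 := by fun_prop
      have h := (this.tendsto 0).mono_left (nhdsWithin_le_nhds (s := Set.Ioi 0))
      simpa using h
    obtain ⟨α, h1, h2⟩ := ((hc.eventually_lt_const hL).and self_mem_nhdsWithin).exists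
    exact ⟨α, h2, h1⟩
  obtain ⟨C, hC0, hC⟩ := exists_green (D := D) hα hαL R0
  obtain ⟨β₁, hβ₁, H⟩ := sd_lim (D := D) (L := L) h1 he he2
  -- constants
  obtain ⟨n0, hn0⟩ : ∃ n0 : ℝ, n0 = ((box D R0).card * (D * L)) * (1 * (2 * N)) := ⟨_, rfl⟩
  have hn00 : 0 ≤ n0 := by rw [hn0]; positivity
  obtain ⟨K, hK⟩ : ∃ K : ℝ, K = (((D : ℝ) + 1) * (D + 1)) * (D * L) *
    (((D + 1) * (4 * (D * L) + 16 * (D * D * L))) * C * (2 * N)) := ⟨_, rfl⟩
  have hK0 : 0 ≤ K := by rw [hK]; positivity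
  have A1 := ev_radius hα R0 D (a := e / 16) (by linarith)
  have A2 := ev_radius hα R0 D (a := 1 / 2) (by norm_num)
  have A3 := evr (a := 0) (b := -(e / 4)) (2 / ε) (by linarith)
  have A4 := evr (a := 0) (b := -1 / 2) (2 * (n0 * K) / ε) (by norm_num)
  have A5 := evr (a := 0) (b := -1) (2 * K / ε) (by norm_num)
  have A6 := evr (a := 0) (b := -e) (2 / ε) (by linarith)
  obtain ⟨β₂, hβ₂⟩ := Filter.eventually_atTop.1
    (A1.and (A2.and (A3.and (A4.and (A5.and A6)))))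
  refine ⟨max β₁ β₂, hβ₁.le.trans (le_max_left _ _) , fun β hβ μ hμ => ?_⟩
  obtain ⟨a1, a2, a3, a4, a5, a6⟩ := hβ₂ β ((le_max_right _ _).trans hβ)
  have hβ1' : β₁ ≤ β := (le_max_left _ _).trans hβ
  have hβ1 : 1 ≤ β := hβ₁.le.trans hβ1'
  have hβ0 : 0 < β := by linarith
  rw [Real.rpow_zero] at a3 a4 a5 a6
  have := hμ.shf.prob
  set R : ℕ := rad α R0 β with hR
  have hRR : R0 ≤ R := by rw [hR]; unfold rad; omega
  obtain ⟨ω, hω0, hω2, hω3⟩ := hC g hg0 hg1 R hRR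
  have hVc : ((box D R).card : ℝ) ≤ β ^ (e / 16) := by
    rw [box_card]; push_cast; exact a1
  have hprg : ∀ φ : SF D L, pr (box D R) g φ = pr (box D R0) g φ := fun φ =>
    pr_mono (box_mono hRR) hg0 φ
  have hnsq : nsq (box D R) g = nsq (box D R0) g := by
    unfold nsq
    symm
    refine Finset.sum_subset (box_mono hRR) fun x _ hx => ?_
    rw [hg0 x hx]; simp
  obtain ⟨en1, en2⟩ := sol_energy hL hω0 hω2
  rw [hnsq] at en1 en2
  have hω1 : ∀ x a, |ω x a| ≤ 1 := by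
    intro x a
    by_cases hx : x ∈ box D R
    · have h2 : ω x a ^ 2 ≤ 1 := by
        calc ω x a ^ 2 ≤ ∑ a, ω x a ^ 2 :=
              Finset.single_le_sum (f := fun a => ω x a ^ 2) (fun _ _ => by positivity)
                (Finset.mem_univ a)
          _ ≤ nsq (box D R) ω := Finset.single_le_sum (f := fun x => ∑ a, ω x a ^ 2)
              (fun _ _ => Finset.sum_nonneg fun _ _ => by positivity) hx
          _ ≤ nsq (box D R0) g / lam0 L ^ 2 := en2
          _ ≤ 1 := by rw [div_le_one (by positivity)]; exact hg2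
      exact abs_le_one_iff_mul_self_le_one.2 (by nlinarith)
    · rw [hω0 x hx]; simp
  obtain ⟨s1, s2⟩ := H β hβ1' μ hμ (box D R) ω g hVc hω1 hω0 hg1
  -- the boundary term
  set bd : Cf G D L → ℝ := fun σ => pr (bdA (box D R)) (fun y b => Bf (box D R) ω (dl y b))
    (sc X σ) with hbd
  have hBf : ∀ σ : Cf G D L, Bf (box D R) ω (sc X σ) = pr (box D R0) g (sc X σ) + bd σ := by
    intro σ
    rw [Bf_sol hω2, hprg]
  have hcoef : ∀ y ∈ bdA (box D R), ∀ b, |Bf (box D R) ω (dl y b)| ≤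
      ((D + 1) * (4 * (D * L) + 16 * (D * D * L))) * (C * β ^ (-2 : ℝ)) := by
    intro y hy b
    have hy' : y ∉ box D R := (mem_bdA.1 hy).2
    refine Bf_dl_le (box D R) y b ω (by positivity) fun x hx a => ?_
    refine (hω3 x a).trans (mul_le_mul_of_nonneg_left ?_ hC0)
    refine le_trans ?_ (rad_ge hα hβ1 R0)
    apply Real.exp_le_exp.2
    have h2 : R ≤ dd x 0 := by
      by_contra hlt
      push Not at hlt
      apply hy'
      rw [mem_box]
      intro i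
      have h3 := dd_le.1 (Nat.le_sub_one_of_lt hlt) i
      have h4 := dd_le.1 hx i
      rw [Pi.zero_apply, sub_zero] at h3
      have h5 : ((R - 1 : ℕ) : ℤ) ≤ (R : ℤ) - 1 := by omega
      have h6 := abs_le.1 h3
      have h7 := abs_le.1 h4
      push_cast at h7
      constructor <;> linarith [h6.1, h6.2, h7.1, h7.2]
    have h3 : (R : ℝ) ≤ dd x 0 := by exact_mod_cast h2
    have := mul_le_mul_of_nonneg_left h3 hα.le
    rw [← hR]
    linarith
  have hbdle : ∀ σ, |bd σ| ≤ K * β ^ (-3 / 2 : ℝ) := by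
    intro σ
    have h2 := pr_le' (V := bdA (box D R)) (c := fun y b => Bf (box D R) ω (dl y b))
      (φ := sc X σ) (m := 2 * N) (q := ((D + 1) * (4 * (D * L) + 16 * (D * D * L))) *
        (C * β ^ (-2 : ℝ))) (by positivity) (by positivity) hcoef
      (fun x _ a => (sc_le h1.nX σ x a).trans (Yf_le σ x a))
    refine h2.trans ?_
    have h3 : ((bdA (box D R)).card : ℝ) ≤ ((D : ℝ) + 1) * ((D + 1) * β ^ (1 / 2 : ℝ)) := by
      refine (bdA_card _).trans ?_
      have : ((box D R).card : ℝ) ≤ β ^ (1 / 2 : ℝ) := by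
        rw [box_card]; push_cast; exact a2
      gcongr
    calc _ ≤ (((D : ℝ) + 1) * ((D + 1) * β ^ (1 / 2 : ℝ)) * (D * L)) *
          (((D + 1) * (4 * (D * L) + 16 * (D * D * L))) * (C * β ^ (-2 : ℝ)) * (2 * N)) := by
          gcongr
      _ = K * (β ^ (1 / 2 : ℝ) * β ^ (-2 : ℝ)) := by rw [hK]; ring
      _ = _ := by rw [← Real.rpow_add hβ0]; norm_num
  have hΦle : ∀ σ : Cf G D L, |pr (box D R0) g (sc X σ)| ≤ n0 := by
    intro σ
    rw [hn0]
    exact pr_le' (by positivity) zero_le_one (fun x _ a => hg1 x a)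
      (fun x _ a => (sc_le h1.nX σ x a).trans (Yf_le σ x a))
  have mΦ : Measurable fun σ : Cf G D L => pr (box D R0) g (sc X σ) := pr_meas X _ g
  have mbd : Measurable bd := pr_meas X _ _
  have iΦ : Integrable (fun σ : Cf G D L => pr (box D R0) g (sc X σ)) μ :=
    Integrable.of_bound mΦ.aestronglyMeasurable n0 (Filter.Eventually.of_forall hΦle)
  have ibd : Integrable bd μ :=
    Integrable.of_bound mbd.aestronglyMeasurable _ (Filter.Eventually.of_forall hbdle)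
  have iΦ2 : Integrable (fun σ : Cf G D L => pr (box D R0) g (sc X σ) ^ 2) μ := by
    refine Integrable.of_bound (mΦ.pow_const 2).aestronglyMeasurable (n0 ^ 2)
      (Filter.Eventually.of_forall fun σ => ?_)
    rw [Real.norm_eq_abs, abs_pow]
    exact pow_le_pow_left₀ (abs_nonneg _) (hΦle σ) 2
  have iΦb : Integrable (fun σ : Cf G D L => pr (box D R0) g (sc X σ) * bd σ) μ := by
    refine Integrable.of_bound (mΦ.mul mbd).aestronglyMeasurable (n0 * (K * β ^ (-3 / 2 : ℝ)))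
      (Filter.Eventually.of_forall fun σ => ?_)
    rw [Real.norm_eq_abs, abs_mul]
    exact mul_le_mul (hΦle σ) (hbdle σ) (abs_nonneg _) hn00
  have hint : ∀ f : Cf G D L → ℝ, ∀ M : ℝ, (∀ σ, |f σ| ≤ M) → |∫ σ, f σ ∂μ| ≤ M := by
    intro f M hM
    have := norm_integral_le_of_norm_le_const (μ := μ) (C := M) (f := f)
      (Filter.Eventually.of_forall hM)
    simpa using this
  have hββ : β * β ^ (-3 / 2 : ℝ) = β ^ (-1 / 2 : ℝ) := by
    nth_rewrite 1 [← Real.rpow_one β]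
    rw [← Real.rpow_add hβ0]; norm_num
  constructor
  · have e1 : ∫ σ, pr (box D R) g (sc X σ) * Bf (box D R) ω (sc X σ) ∂μ =
        ∫ σ, pr (box D R0) g (sc X σ) ^ 2 ∂μ + ∫ σ, pr (box D R0) g (sc X σ) * bd σ ∂μ := by
      rw [← integral_add iΦ2 iΦb]
      refine integral_congr_ae (Filter.Eventually.of_forall fun σ => ?_)
      simp only
      rw [hBf, hprg]; ring
    rw [e1] at s1
    have b1 : |∫ σ, pr (box D R0) g (sc X σ) * bd σ ∂μ| ≤ n0 * (K * β ^ (-3 / 2 : ℝ)) :=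
      hint _ _ fun σ => by
        rw [abs_mul]
        exact mul_le_mul (hΦle σ) (hbdle σ) (abs_nonneg _) hn00
    have b2 : β * |∫ σ, pr (box D R0) g (sc X σ) * bd σ ∂μ| ≤ ε / 2 := by
      calc β * |∫ σ, pr (box D R0) g (sc X σ) * bd σ ∂μ| ≤ β * (n0 * (K * β ^ (-3 / 2 : ℝ))) :=
            mul_le_mul_of_nonneg_left b1 hβ0.le
        _ = (2 * (n0 * K) / ε * β ^ (-1 / 2 : ℝ)) * (ε / 2) := by
            rw [← hββ]; field_simp
        _ ≤ 1 * (ε / 2) := mul_le_mul_of_nonneg_right a4 (by positivity)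
        _ = _ := one_mul _
    have b3 : β ^ (-(e / 4)) ≤ ε / 2 := by
      calc β ^ (-(e / 4)) = (2 / ε * β ^ (-(e / 4))) * (ε / 2) := by field_simp
        _ ≤ 1 * (ε / 2) := mul_le_mul_of_nonneg_right a3 (by positivity)
        _ = _ := one_mul _
    have b4 := (abs_le.1 s1).2
    have b5 := neg_abs_le (∫ σ, pr (box D R0) g (sc X σ) * bd σ ∂μ)
    have b6 := mul_le_mul_of_nonneg_left b5 hβ0.le
    rw [mul_add] at b4
    linarith
  · have e1 : ∫ σ, Bf (box D R) ω (sc X σ) ∂μ =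
        ∫ σ, pr (box D R0) g (sc X σ) ∂μ + ∫ σ, bd σ ∂μ := by
      rw [← integral_add iΦ ibd]
      exact integral_congr_ae (Filter.Eventually.of_forall fun σ => hBf σ)
    rw [e1] at s2
    have b1 := hint bd _ hbdle
    have hβh : 1 ≤ β ^ (1 / 2 : ℝ) := Real.one_le_rpow hβ1 (by norm_num)
    have b2 : β * |∫ σ, bd σ ∂μ| ≤ ε / 2 * β ^ (1 / 2 : ℝ) := by
      calc β * |∫ σ, bd σ ∂μ| ≤ β * (K * β ^ (-3 / 2 : ℝ)) :=
            mul_le_mul_of_nonneg_left b1 hβ0.le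
        _ = (2 * K / ε * β ^ (-1 : ℝ)) * (ε / 2) * β ^ (1 / 2 : ℝ) := by
            have : β ^ (-1 : ℝ) * β ^ (1 / 2 : ℝ) = β * β ^ (-3 / 2 : ℝ) := by
              rw [hββ, ← Real.rpow_add hβ0]; norm_num
            calc β * (K * β ^ (-3 / 2 : ℝ)) = K * (β * β ^ (-3 / 2 : ℝ)) := by ring
              _ = K * (β ^ (-1 : ℝ) * β ^ (1 / 2 : ℝ)) := by rw [this]
              _ = _ := by field_simp
        _ ≤ 1 * (ε / 2) * β ^ (1 / 2 : ℝ) := by
            refine mul_le_mul_of_nonneg_right ?_ (by positivity)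
            exact mul_le_mul_of_nonneg_right a5 (by positivity)
        _ = _ := by ring
    have b3 : β ^ (1 / 2 - e) ≤ ε / 2 * β ^ (1 / 2 : ℝ) := by
      have : β ^ (1 / 2 - e) = β ^ (-e) * β ^ (1 / 2 : ℝ) := by
        rw [← Real.rpow_add hβ0]; congr 1; ring
      rw [this]
      refine mul_le_mul_of_nonneg_right ?_ (by positivity)
      calc β ^ (-e) = (2 / ε * β ^ (-e)) * (ε / 2) := by field_simp
        _ ≤ 1 * (ε / 2) := mul_le_mul_of_nonneg_right a6 (by positivity)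
        _ = _ := one_mul _
    have e2 : β * ∫ σ, pr (box D R0) g (sc X σ) ∂μ =
        β * (∫ σ, pr (box D R0) g (sc X σ) ∂μ + ∫ σ, bd σ ∂μ) - β * ∫ σ, bd σ ∂μ := by ring
    rw [e2]
    refine (abs_sub _ _).trans ?_
    rw [abs_mul β (∫ σ, bd σ ∂μ), abs_of_pos hβ0]
    linarith

end

end Pool.Agent.N109.Slab
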