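import Pool.Agent.N109.Slab.Test2

/-!
# The ratio of the covariances at distance two and zero
-/

set_option autoImplicit false
set_option linter.unusedSectionVars false
set_option linter.unusedVariables false
set_option linter.style.haveILetI false

open MeasureTheory Matrix Finset Filter
open scoped Matrix.Norms.Frobenius ENNReal

namespace Pool.Agent.N109.Slab

open Pool.Agent.N990

noncomputable section

variable {N D L : ℕ} {G : Subgroup (UU N)} [MeasurableSpace G] [BorelSpace G]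

lemma pr_smul (V : Finset (Site D)) (s : ℝ) (g φ : SF D L) :
    pr V (fun x a => s * g x a) φ = s * pr V g φ := by
  unfold pr
  rw [Finset.mul_sum]
  refine Finset.sum_congr rfl fun x _ => ?_
  rw [Finset.mul_sum]
  refine Finset.sum_congr rfl fun a _ => ?_
  ring

lemma nsq_smul (V : Finset (Site D)) (s : ℝ) (g : SF D L) :
    nsq V (fun x a => s * g x a) = s ^ 2 * nsq V g := by
  unfold nsq
  rw [Finset.mul_sum]
  refine Finset.sum_congr rfl fun x _ => ?_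
  rw [Finset.mul_sum]
  refine Finset.sum_congr rfl fun a _ => ?_
  ring

/-- **Uniform bounds of the variance and of the mean.** -/
theorem var_bd {X : Mt N} {γ : ℝ → G} {κ : ℝ} (h1 : OneP X γ κ) {e : ℝ} (he : 0 < e)
    (he2 : e ≤ 1 / 10) (hL : 0 < lam0 L) {R0 : ℕ} {g : SF D L}
    (hg0 : ∀ x, x ∉ box D R0 → g x = 0) {ε : ℝ} (hε : 0 < ε) :
    ∃ β₀ ≥ (1 : ℝ), ∀ β ≥ β₀, ∀ μ : Measure (Cf G D L), Stt G D L e β μ →
      β * ∫ σ, pr (box D R0) g (sc X σ) ^ 2 ∂μ ≤ nsq (box D R0) g / lam0 L + ε ∧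
      |β * ∫ σ, pr (box D R0) g (sc X σ) ∂μ| ≤ ε * β ^ (1 / 2 : ℝ) := by
  -- the scale
  have hn0 := nsq_nonneg (box D R0) g
  have hgle : ∀ x a, g x a ^ 2 ≤ nsq (box D R0) g := by
    intro x a
    by_cases hx : x ∈ box D R0
    · calc g x a ^ 2 ≤ ∑ a, g x a ^ 2 :=
            Finset.single_le_sum (f := fun a => g x a ^ 2) (fun _ _ => by positivity)
              (Finset.mem_univ a)
        _ ≤ nsq (box D R0) g := Finset.single_le_sum (f := fun x => ∑ a, g x a ^ 2)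
            (fun _ _ => Finset.sum_nonneg fun _ _ => by positivity) hx
    · rw [hg0 x hx]; simpa using hn0
  obtain ⟨s, hs0, hs1, hs2⟩ : ∃ s : ℝ, 0 < s ∧ s ^ 2 * nsq (box D R0) g ≤ 1 ∧
      s ^ 2 * nsq (box D R0) g ≤ lam0 L ^ 2 := by
    have hl2 : 0 < min 1 (lam0 L ^ 2) := lt_min one_pos (by positivity)
    refine ⟨Real.sqrt (min 1 (lam0 L ^ 2) / (nsq (box D R0) g + 1)), by positivity, ?_, ?_⟩
    · rw [Real.sq_sqrt (by positivity), div_mul_eq_mul_div, div_le_one (by positivity)]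
      have := min_le_left 1 (lam0 L ^ 2)
      nlinarith
    · rw [Real.sq_sqrt (by positivity), div_mul_eq_mul_div, div_le_iff₀ (by positivity)]
      have := min_le_right 1 (lam0 L ^ 2)
      have h2 : 0 ≤ lam0 L ^ 2 := by positivity
      nlinarith
  obtain ⟨β₀, hβ₀, H⟩ := var_bd1 (D := D) (L := L) h1 he he2 hL (R0 := R0)
    (g := fun x a => s * g x a) (fun x hx => by funext a; simp [hg0 x hx])
    (fun x a => by
      have h3 : (s * g x a) ^ 2 ≤ 1 := by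
        calc (s * g x a) ^ 2 = s ^ 2 * g x a ^ 2 := by ring
          _ ≤ s ^ 2 * nsq (box D R0) g := mul_le_mul_of_nonneg_left (hgle x a) (by positivity)
          _ ≤ 1 := hs1
      exact abs_le_one_iff_mul_self_le_one.2 (by nlinarith))
    (by rw [nsq_smul]; exact hs2) (ε := min (s ^ 2 * ε) (s * ε)) (lt_min (by positivity) (by positivity))
  refine ⟨β₀, hβ₀, fun β hβ μ hμ => ?_⟩
  obtain ⟨a1, a2⟩ := H β hβ μ hμ
  have hβ0 : 0 < β := by linarith
  simp only [pr_smul, nsq_smul, mul_pow] at a1 a2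
  rw [integral_const_mul] at a1 a2
  constructor
  · have h3 : s ^ 2 * (β * ∫ σ, pr (box D R0) g (sc X σ) ^ 2 ∂μ) ≤
        s ^ 2 * (nsq (box D R0) g / lam0 L + ε) := by
      calc s ^ 2 * (β * ∫ σ, pr (box D R0) g (sc X σ) ^ 2 ∂μ) =
            β * (s ^ 2 * ∫ σ, pr (box D R0) g (sc X σ) ^ 2 ∂μ) := by ring
        _ ≤ s ^ 2 * nsq (box D R0) g / lam0 L + min (s ^ 2 * ε) (s * ε) := a1
        _ ≤ s ^ 2 * nsq (box D R0) g / lam0 L + s ^ 2 * ε := by
            have := min_le_left (s ^ 2 * ε) (s * ε); linarith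
        _ = _ := by ring
    exact le_of_mul_le_mul_left h3 (by positivity)
  · have h3 : s * |β * ∫ σ, pr (box D R0) g (sc X σ) ∂μ| ≤ s * (ε * β ^ (1 / 2 : ℝ)) := by
      calc s * |β * ∫ σ, pr (box D R0) g (sc X σ) ∂μ| =
            |β * (s * ∫ σ, pr (box D R0) g (sc X σ) ∂μ)| := by
            rw [show β * (s * ∫ σ, pr (box D R0) g (sc X σ) ∂μ) =
              s * (β * ∫ σ, pr (box D R0) g (sc X σ) ∂μ) by ring, abs_mul s, abs_of_pos hs0]
        _ ≤ min (s ^ 2 * ε) (s * ε) * β ^ (1 / 2 : ℝ) := a2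
        _ ≤ (s * ε) * β ^ (1 / 2 : ℝ) := by
            have := min_le_right (s ^ 2 * ε) (s * ε)
            exact mul_le_mul_of_nonneg_right this (Real.rpow_nonneg hβ0.le _)
        _ = _ := by ring
    exact le_of_mul_le_mul_left h3 hs0

/-! ### the test function -/

lemma fR_out {i0 i1 : Fin D} {R : ℕ} {k : ℤ} {x : Site D} (hx : x ∉ box D R) :
    fR (L := L) i0 i1 R k x = 0 := by
  funext a
  unfold fR
  rw [if_neg (fun h => hx h.1)]; rfl

lemma fR_le {i0 i1 : Fin D} {R : ℕ} {k : ℤ} (x : Site D) (a : Lab D L) :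
    |fR (L := L) i0 i1 R k x a| ≤ 1 := by
  unfold fR
  split_ifs
  · exact u0_le _
  · simp

/-- the pairing of the observable with the field -/
lemma fR_wR {i0 i1 : Fin D} {R : ℕ} (m : ℝ) (k : ℤ) :
    pr (L := L) (box D R) (fR i0 i1 R k) (wR i0 i1 m R) =
      hh m k * nsq (L := L) (box D R) (fR i0 i1 R k) := by
  unfold pr nsq
  rw [Finset.mul_sum]
  refine Finset.sum_congr rfl fun x hx => ?_
  rw [Finset.mul_sum]
  refine Finset.sum_congr rfl fun a _ => ?_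
  unfold fR wR wf
  rw [if_pos hx]
  by_cases h : x ∈ box D R ∧ x i0 = k ∧ a.1 = i1
  · rw [if_pos h, if_pos h.2.2, h.2.1]; ring
  · rw [if_neg h]; ring

lemma nsq_mono_box {R R' : ℕ} (h : R ≤ R') {g : SF D L} (hg : ∀ x, x ∉ box D R → g x = 0) :
    nsq (box D R') g = nsq (box D R) g := by
  unfold nsq
  symm
  refine Finset.sum_subset (box_mono h) fun x _ hx => ?_
  rw [hg x hx]; simp

/-- the functional of the cut-off field -/
lemma Bf_wR {i0 i1 : Fin D} {m : ℝ} {R : ℕ} (φ : SF D L) :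
    Bf (box D R) (wR i0 i1 m R) φ = 2 * Real.sinh m * pr (box D (R + 1)) (fR i0 i1 R 0) φ +
      pr (box D (R + 1)) (rR i0 i1 m R) φ := by
  have h1 : clA (box D R) ⊆ box D (R + 1) := by
    intro y hy
    rw [mem_clA] at hy
    have key : ∀ x ∈ Ns (box D R), ∃ z ∈ box D R, x = z ∨ ∃ i, x + ev i = z := by
      intro x hx
      rcases mem_Ns.1 hx with h | ⟨i, h⟩
      · exact ⟨x, h, Or.inl rfl⟩
      · exact ⟨_, h, Or.inr ⟨i, rfl⟩⟩
    rcases hy with hy | ⟨i, x, hx, rfl⟩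
    · obtain ⟨z, hz, h | ⟨i, h⟩⟩ := key y hy
      · rw [h]; exact box_mono (Nat.le_succ R) hz
      · refine box_nb hz ?_
        rw [dd_comm, ← h]; exact dd_ev_le y i
    · obtain ⟨z, hz, h | ⟨j, h⟩⟩ := key x hx
      · rw [h]; exact box_nb hz (dd_ev_le z i)
      · refine box_nb hz ?_
        rw [← h, dd_le]
        intro k
        simp only [Pi.add_apply, add_sub_add_left_eq_sub]
        by_cases hj : k = j
        · subst hj
          rw [ev_same]
          by_cases hi : k = i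
          · subst hi; rw [ev_same]; simp
          · rw [ev_ne hi]; simp
        · rw [ev_ne hj]
          by_cases hi : k = i
          · subst hi; rw [ev_same]; simp
          · rw [ev_ne hi]; simp
  have h2 : Bf (box D R) (wR i0 i1 m R) φ =
      pr (box D (R + 1)) (fun y b => Bf (box D R) (wR i0 i1 m R) (dl y b)) φ := by
    rw [Bf_eq_pr]
    symm
    refine pr_mono h1 (fun y hy => ?_) φ
    funext b
    rw [Bf_apply]
    refine Finset.sum_eq_zero fun x hx => ?_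
    refine bx_zero' (dl_ne fun h => hy (h ▸ Ns_clA _ hx)) fun i => dl_ne fun h => hy ?_
    rw [← h]
    exact mem_clA.2 (Or.inr ⟨i, x, hx, rfl⟩)
  rw [h2]
  unfold pr rR
  rw [Finset.mul_sum, ← Finset.sum_add_distrib]
  refine Finset.sum_congr rfl fun x _ => ?_
  rw [Finset.mul_sum, ← Finset.sum_add_distrib]
  refine Finset.sum_congr rfl fun a _ => ?_
  ring

/-- bounded measurable functions are integrable -/
lemma int_bd {μ : Measure (Cf G D L)} [IsProbabilityMeasure μ] {f : Cf G D L → ℝ}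
    (hf : Measurable f) {C : ℝ} (h : ∀ σ, |f σ| ≤ C) : Integrable f μ :=
  Integrable.of_bound hf.aestronglyMeasurable C (Filter.Eventually.of_forall h)

lemma pr_bdd {X : Mt N} (hX : ‖X‖ = 1) (V : Finset (Site D)) (g : SF D L) :
    ∃ C : ℝ, 0 ≤ C ∧ ∀ σ : Cf G D L, |pr V g (sc X σ)| ≤ C := by
  refine ⟨∑ x ∈ V, ∑ a, |g x a| * (2 * N), by positivity, fun σ => ?_⟩
  unfold pr
  refine (Finset.abs_sum_le_sum_abs _ _).trans (Finset.sum_le_sum fun x _ => ?_)
  refine (Finset.abs_sum_le_sum_abs _ _).trans (Finset.sum_le_sum fun a _ => ?_)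
  rw [abs_mul]
  exact mul_le_mul_of_nonneg_left ((sc_le hX σ x a).trans (Yf_le σ x a)) (abs_nonneg _)

/-- the product of two observables is integrable -/
lemma int_prod {X : Mt N} (hX : ‖X‖ = 1) {μ : Measure (Cf G D L)} [IsProbabilityMeasure μ]
    (V W : Finset (Site D)) (g h : SF D L) :
    Integrable (fun σ : Cf G D L => pr V g (sc X σ) * pr W h (sc X σ)) μ := by
  obtain ⟨C1, hC1, H1⟩ := pr_bdd (G := G) hX V g
  obtain ⟨C2, hC2, H2⟩ := pr_bdd (G := G) hX W h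
  refine int_bd ((pr_meas X V g).mul (pr_meas X W h)) (C := C1 * C2) fun σ => ?_
  rw [abs_mul]
  exact mul_le_mul (H1 σ) (H2 σ) (abs_nonneg _) hC1

/-- weighted Cauchy-Schwarz -/
lemma cs_tau {X : Mt N} (hX : ‖X‖ = 1) {μ : Measure (Cf G D L)} [IsProbabilityMeasure μ]
    (V W : Finset (Site D)) (g h : SF D L) {τ : ℝ} (hτ : 0 < τ) :
    |∫ σ, pr V g (sc X σ) * pr W h (sc X σ) ∂μ| ≤
      τ / 2 * ∫ σ, pr V g (sc X σ) ^ 2 ∂μ + 1 / (2 * τ) * ∫ σ, pr W h (sc X σ) ^ 2 ∂μ := by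
  have i1 : Integrable (fun σ : Cf G D L => pr V g (sc X σ) ^ 2) μ := by
    simpa [sq] using int_prod hX V V g g
  have i2 : Integrable (fun σ : Cf G D L => pr W h (sc X σ) ^ 2) μ := by
    simpa [sq] using int_prod hX W W h h
  have i3 := int_prod (μ := μ) hX V W g h
  calc |∫ σ, pr V g (sc X σ) * pr W h (sc X σ) ∂μ| ≤
        ∫ σ, |pr V g (sc X σ) * pr W h (sc X σ)| ∂μ := abs_integral_le_integral_abs
    _ ≤ ∫ σ, (τ / 2 * pr V g (sc X σ) ^ 2 + 1 / (2 * τ) * pr W h (sc X σ) ^ 2) ∂μ := by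
        refine integral_mono i3.abs ((i1.const_mul _).add (i2.const_mul _)) fun σ => ?_
        simp only
        set a := pr V g (sc X σ)
        set b := pr W h (sc X σ)
        rw [abs_mul]
        have h1 : 0 ≤ (τ * |a| - |b|) ^ 2 / (2 * τ) := by positivity
        have h2 : (τ * |a| - |b|) ^ 2 / (2 * τ) =
            τ / 2 * |a| ^ 2 + 1 / (2 * τ) * |b| ^ 2 - |a| * |b| := by
          field_simp; ring
        rw [h2, sq_abs, sq_abs] at h1
        linarith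
    _ = _ := by
        rw [integral_add (i1.const_mul _) (i2.const_mul _), integral_const_mul, integral_const_mul]

/-- the arithmetic of the proof of `ratio` -/
lemma num_aux {F K s q q' τ β lam sF B I00 I22 Irr I20 I0r I2r m0 m2 NR : ℝ} (hF : 0 < F)
    (hK : K = 1 / lam + 1) (hlam : 0 < lam) (hs0 : 0 < s) (hq'0 : 0 < q') (hτ0 : 0 < τ)
    (hτ1 : τ ≤ 1) (hτ2 : q' * (1 + τ + τ * K) < q - τ * (1 + K + s)) (hq1 : q < 1) (hβ0 : 0 < β)
    (hsF : sF * sF = F) (hsF0 : 0 ≤ sF) (hB0 : 0 ≤ B) (hB : B * B = β)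
    (v0 : β * I00 ≤ F / lam + τ ^ 2 * F) (v2 : β * I22 ≤ F / lam + τ ^ 2 * F)
    (hR1 : NR ≤ τ ^ 2 * F) (vr : β * Irr ≤ NR / lam + τ ^ 2 * F)
    (k0 : |I0r| ≤ τ / 2 * I00 + 1 / (2 * τ) * Irr) (k2 : |I2r| ≤ τ / 2 * I22 + 1 / (2 * τ) * Irr)
    (s0 : |β * (s * I00 + I0r) - F| ≤ τ * F) (s2 : |β * (s * I20 + I2r) - q * F| ≤ τ * F)
    (g0 : |β * m0| ≤ (τ * sF) * B) (g2 : |β * m2| ≤ (τ * sF) * B) :
    0 < I00 - m0 ^ 2 ∧ 0 < I20 - m2 * m0 ∧ q' * (I00 - m0 ^ 2) ≤ I20 - m2 * m0 := by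
  have hK0 : 0 < K := by rw [hK]; positivity
  have hτs : τ ^ 2 ≤ τ := by nlinarith
  have hτs1 : τ ^ 2 ≤ 1 := by nlinarith
  have hFl : F / lam + τ ^ 2 * F ≤ K * F := by
    have h1 : τ ^ 2 * F ≤ 1 * F := mul_le_mul_of_nonneg_right hτs1 hF.le
    rw [hK]
    have h2 : F / lam = 1 / lam * F := by ring
    rw [h2]; linarith
  have va0 : β * I00 ≤ K * F := v0.trans hFl
  have va2 : β * I22 ≤ K * F := v2.trans hFl
  have var' : β * Irr ≤ τ ^ 2 * (K * F) := by
    refine vr.trans ?_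
    have h2 : NR / lam ≤ τ ^ 2 * F / lam := div_le_div_of_nonneg_right hR1 hlam.le
    rw [hK]
    have h3 : τ ^ 2 * F / lam = τ ^ 2 * (1 / lam * F) := by ring
    rw [h3] at h2
    have h4 : τ ^ 2 * ((1 / lam + 1) * F) = τ ^ 2 * (1 / lam * F) + τ ^ 2 * F := by ring
    rw [h4]; linarith
  have key : ∀ J A : ℝ, |J| ≤ τ / 2 * A + 1 / (2 * τ) * Irr → β * A ≤ K * F →
      |β * J| ≤ τ * (K * F) := by
    intro J A hJ hA
    have h2 := mul_le_mul_of_nonneg_left hJ hβ0.le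
    rw [abs_mul, abs_of_pos hβ0]
    refine h2.trans ?_
    have h4 : β * (τ / 2 * A + 1 / (2 * τ) * Irr) =
        τ / 2 * (β * A) + 1 / (2 * τ) * (β * Irr) := by ring
    rw [h4]
    have h5 : 1 / (2 * τ) * (β * Irr) ≤ 1 / (2 * τ) * (τ ^ 2 * (K * F)) :=
      mul_le_mul_of_nonneg_left var' (by positivity)
    have h6 : 1 / (2 * τ) * (τ ^ 2 * (K * F)) = τ / 2 * (K * F) := by field_simp
    have h7 : τ / 2 * (β * A) ≤ τ / 2 * (K * F) := mul_le_mul_of_nonneg_left hA (by positivity)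
    linarith
  have kx0 := key I0r I00 k0 va0
  have kx2 := key I2r I22 k2 va2
  have sa0 : s * (β * I00) ≤ F + τ * F + τ * (K * F) := by
    have h2 := (abs_le.1 s0).2
    have h3 : β * (s * I00 + I0r) = s * (β * I00) + β * I0r := by ring
    rw [h3] at h2
    have := neg_abs_le (β * I0r)
    linarith
  have scc : q * F - τ * F - τ * (K * F) ≤ s * (β * I20) := by
    have h2 := (abs_le.1 s2).1
    have h3 : β * (s * I20 + I2r) = s * (β * I20) + β * I2r := by ring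
    rw [h3] at h2
    have := le_abs_self (β * I2r)
    linarith
  have hmm : β * |m2 * m0| ≤ τ * F := by
    have g3 : |β * m2| * |β * m0| ≤ ((τ * sF) * B) * ((τ * sF) * B) :=
      mul_le_mul g2 g0 (abs_nonneg _) (by positivity)
    have g4 : ((τ * sF) * B) * ((τ * sF) * B) = β * (τ ^ 2 * F) := by
      calc _ = τ ^ 2 * (sF * sF) * (B * B) := by ring
        _ = _ := by rw [hsF, hB]; ring
    have g5 : |β * m2| * |β * m0| = β * (β * |m2 * m0|) := by
      rw [abs_mul, abs_mul, abs_mul, abs_of_pos hβ0]; ring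
    rw [g4, g5] at g3
    have g6 := le_of_mul_le_mul_left g3 hβ0
    exact g6.trans (mul_le_mul_of_nonneg_right hτs hF.le)
  have main1 : F * (q - τ * (1 + K + s)) ≤ s * (β * (I20 - m2 * m0)) := by
    have h2 : s * (β * (I20 - m2 * m0)) = s * (β * I20) - s * (β * (m2 * m0)) := by ring
    have h3 : β * (m2 * m0) ≤ τ * F :=
      le_trans (mul_le_mul_of_nonneg_left (le_abs_self _) hβ0.le) hmm
    have h4 := mul_le_mul_of_nonneg_left h3 hs0.le
    have h5 : F * (q - τ * (1 + K + s)) =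
      q * F - τ * F - τ * (K * F) - s * (τ * F) := by ring
    rw [h2, h5]; linarith
  have main2 : s * (β * (I00 - m0 ^ 2)) ≤ F * (1 + τ + τ * K) := by
    have h2 : s * (β * (I00 - m0 ^ 2)) = s * (β * I00) - s * (β * m0 ^ 2) := by ring
    have h3 : 0 ≤ s * (β * m0 ^ 2) := by positivity
    have h5 : F * (1 + τ + τ * K) = F + τ * F + τ * (K * F) := by ring
    rw [h2, h5]; linarith
  have hsβ : 0 < s * β := by positivity
  have hm0 : β * m0 ^ 2 ≤ τ * F := by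
    have g3 : |β * m0| * |β * m0| ≤ ((τ * sF) * B) * ((τ * sF) * B) :=
      mul_le_mul g0 g0 (abs_nonneg _) (by positivity)
    have g4 : ((τ * sF) * B) * ((τ * sF) * B) = β * (τ ^ 2 * F) := by
      calc _ = τ ^ 2 * (sF * sF) * (B * B) := by ring
        _ = _ := by rw [hsF, hB]; ring
    have g5 : |β * m0| * |β * m0| = β * (β * m0 ^ 2) := by
      rw [abs_mul_abs_self]; ring
    rw [g4, g5] at g3
    have g6 := le_of_mul_le_mul_left g3 hβ0
    exact g6.trans (mul_le_mul_of_nonneg_right hτs hF.le)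
  have low0 : F * (1 - τ * (1 + K + s)) ≤ s * (β * (I00 - m0 ^ 2)) := by
    have h2 := (abs_le.1 s0).1
    have h3 : β * (s * I00 + I0r) = s * (β * I00) + β * I0r := by ring
    rw [h3] at h2
    have h6 := le_abs_self (β * I0r)
    have h4 := mul_le_mul_of_nonneg_left hm0 hs0.le
    have h7 : s * (β * (I00 - m0 ^ 2)) = s * (β * I00) - s * (β * m0 ^ 2) := by ring
    have h5 : F * (1 - τ * (1 + K + s)) =
      F - τ * F - τ * (K * F) - s * (τ * F) := by ring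
    rw [h7, h5]; linarith
  refine ⟨?_, ?_, ?_⟩
  · have h2 : 0 < F * (1 - τ * (1 + K + s)) := by
      refine mul_pos hF ?_
      have : 0 < q - τ * (1 + K + s) := lt_of_le_of_lt (by positivity) hτ2
      linarith
    have h3 : 0 < (s * β) * (I00 - m0 ^ 2) := by
      calc 0 < F * (1 - τ * (1 + K + s)) := h2
        _ ≤ _ := low0
        _ = _ := by ring
    exact (pos_iff_pos_of_mul_pos h3).1 hsβ
  · have h2 : 0 < F * (q - τ * (1 + K + s)) := by
      refine mul_pos hF (lt_of_le_of_lt ?_ hτ2)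
      positivity
    have h3 : 0 < (s * β) * (I20 - m2 * m0) := by
      calc 0 < F * (q - τ * (1 + K + s)) := h2
        _ ≤ _ := main1
        _ = _ := by ring
    exact (pos_iff_pos_of_mul_pos h3).1 hsβ
  · have h2 : (s * β) * (q' * (I00 - m0 ^ 2)) ≤ (s * β) * (I20 - m2 * m0) := by
      calc (s * β) * (q' * (I00 - m0 ^ 2)) =
            q' * (s * (β * (I00 - m0 ^ 2))) := by ring
        _ ≤ q' * (F * (1 + τ + τ * K)) := mul_le_mul_of_nonneg_left main2 hq'0.le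
        _ = F * (q' * (1 + τ + τ * K)) := by ring
        _ ≤ F * (q - τ * (1 + K + s)) := mul_le_mul_of_nonneg_left hτ2.le hF.le
        _ ≤ s * (β * (I20 - m2 * m0)) := main1
        _ = _ := by ring
    exact le_of_mul_le_mul_left h2 hsβ

/-- the choice of a small parameter -/
lemma exists_tau {q q' K s : ℝ} (hqq : q' < q) (hq'0 : 0 < q') (hK : 0 < K) (hs : 0 < s) :
    ∃ τ : ℝ, 0 < τ ∧ τ ≤ 1 ∧ q' * (1 + τ + τ * K) < q - τ * (1 + K + s) := by
  obtain ⟨Z, hZ⟩ : ∃ Z, Z = q' * (1 + K) + (1 + K + s) := ⟨_, rfl⟩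
  have hZ0 : 0 < Z := by rw [hZ]; positivity
  have hd : 0 < q - q' := by linarith
  obtain ⟨τ, hτ⟩ : ∃ τ, τ = min 1 ((q - q') / (2 * Z)) := ⟨_, rfl⟩
  have h2 : τ * Z ≤ (q - q') / 2 := by
    rw [hτ]
    calc min 1 ((q - q') / (2 * Z)) * Z ≤ (q - q') / (2 * Z) * Z :=
          mul_le_mul_of_nonneg_right (min_le_right _ _) hZ0.le
      _ = (q - q') / 2 := by field_simp
  refine ⟨τ, by rw [hτ]; exact lt_min one_pos (by positivity), by rw [hτ]; exact min_le_left _ _, ?_⟩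
  have h3 : q' * (1 + τ + τ * K) + τ * (1 + K + s) = q' + τ * Z := by rw [hZ]; ring
  linarith

/-- **The covariances at the distances two and zero.** -/
theorem ratio {X : Mt N} {γ : ℝ → G} {κ : ℝ} (h1 : OneP X γ κ) {e : ℝ} (he : 0 < e)
    (he2 : e ≤ 1 / 10) (hL : 1 ≤ L) {i0 i1 : Fin D} (h01 : i0 ≠ i1) {m : ℝ} (hm0 : 0 < m)
    (hm : 2 * Real.cosh m - 2 = lam0 L) {ε : ℝ} (hε : 0 < ε) :
    ∃ R : ℕ, 3 ≤ R ∧ ∃ β₀ ≥ (1 : ℝ), ∀ β ≥ β₀, ∀ μ : Measure (Cf G D L), Stt G D L e β μ →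
      0 < ∫ σ, pr (box D (R + 1)) (fR i0 i1 R 0) (sc X σ) ^ 2 ∂μ -
          (∫ σ, pr (box D (R + 1)) (fR i0 i1 R 0) (sc X σ) ∂μ) ^ 2 ∧
      0 < ∫ σ, pr (box D (R + 1)) (fR i0 i1 R 2) (sc X σ) *
            pr (box D (R + 1)) (fR i0 i1 R 0) (sc X σ) ∂μ -
          (∫ σ, pr (box D (R + 1)) (fR i0 i1 R 0) (sc X σ) ∂μ) *
            ∫ σ, pr (box D (R + 1)) (fR i0 i1 R 0) (sc X σ) ∂μ ∧
      Real.exp (-(2 * (m + ε))) * (∫ σ, pr (box D (R + 1)) (fR i0 i1 R 0) (sc X σ) ^ 2 ∂μ -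
          (∫ σ, pr (box D (R + 1)) (fR i0 i1 R 0) (sc X σ) ∂μ) ^ 2) ≤
        ∫ σ, pr (box D (R + 1)) (fR i0 i1 R 2) (sc X σ) *
            pr (box D (R + 1)) (fR i0 i1 R 0) (sc X σ) ∂μ -
          (∫ σ, pr (box D (R + 1)) (fR i0 i1 R 0) (sc X σ) ∂μ) *
            ∫ σ, pr (box D (R + 1)) (fR i0 i1 R 0) (sc X σ) ∂μ := by
  have hlam : 0 < lam0 L := lam0_pos hL
  obtain ⟨K, hK⟩ : ∃ K, K = 1 / lam0 L + 1 := ⟨_, rfl⟩
  have hK1 : 1 ≤ K := by rw [hK]; have : 0 < 1 / lam0 L := by positivity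
                         linarith
  obtain ⟨s, hs⟩ : ∃ s, s = 2 * Real.sinh m := ⟨_, rfl⟩
  have hs0 : 0 < s := by rw [hs]; have := Real.sinh_pos_iff.2 hm0; positivity
  obtain ⟨q, hq⟩ : ∃ q, q = Real.exp (-(2 * m)) := ⟨_, rfl⟩
  obtain ⟨q', hq'⟩ : ∃ q', q' = Real.exp (-(2 * (m + ε))) := ⟨_, rfl⟩
  have hq0 : 0 < q := by rw [hq]; exact Real.exp_pos _
  have hq'0 : 0 < q' := by rw [hq']; exact Real.exp_pos _
  have hqq : q' < q := by rw [hq, hq']; exact Real.exp_lt_exp.2 (by linarith)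
  -- the choice of τ
  obtain ⟨τ, hτ0, hτ1, hτ2⟩ : ∃ τ : ℝ, 0 < τ ∧ τ ≤ 1 ∧
      q' * (1 + τ + τ * K) < q - τ * (1 + K + s) := by
    exact exists_tau hqq hq'0 (by linarith) hs0
  obtain ⟨R, hR3, hR1, hR2⟩ := rR_small hL h01 hm0 hm (η := τ ^ 2) (by positivity)
  obtain ⟨F, hF⟩ : ∃ F, F = nsq (L := L) (box D (R + 1)) (fR i0 i1 R 0) := ⟨_, rfl⟩
  rw [← hF] at hR1 hR2
  have hF2 : nsq (L := L) (box D (R + 1)) (fR i0 i1 R 2) = F := by
    have a1 := fR_nsq (L := L) (i0 := i0) (i1 := i1) (R := R) (R' := R + 1)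
      (Nat.le_succ _) (k := 0) (by constructor <;> linarith [Nat.cast_nonneg (α := ℤ) R])
    have a2 := fR_nsq (L := L) (i0 := i0) (i1 := i1) (R := R) (R' := R + 1)
      (Nat.le_succ _) (k := 2) (by
        have : (3 : ℤ) ≤ R := by exact_mod_cast hR3
        constructor <;> linarith)
    rw [← a1] at a2
    have h2 : (2 * (R : ℝ) + 1) ≠ 0 := by positivity
    rw [hF]
    exact mul_left_cancel₀ h2 a2
  have hout : ∀ k : ℤ, ∀ x, x ∉ box D (R + 1) → fR (L := L) i0 i1 R k x = 0 := fun k x hx =>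
    fR_out fun h => hx (box_mono (Nat.le_succ R) h)
  have hrout : ∀ x, x ∉ box D (R + 1) → rR (L := L) i0 i1 m R x = 0 := fun x hx => by
    funext b; exact rR_out hx b
  -- the limits
  obtain ⟨b1, hb1, H1⟩ := sd_lim (D := D) (L := L) h1 he he2
  have hE : 0 < τ ^ 2 * F := by positivity
  obtain ⟨b2, hb2, H2⟩ := var_bd (D := D) (L := L) h1 he he2 hlam (hout 0)
    (ε := min (τ ^ 2 * F) (τ * Real.sqrt F)) (lt_min hE (by positivity))
  obtain ⟨b3, hb3, H3⟩ := var_bd (D := D) (L := L) h1 he he2 hlam (hout 2)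
    (ε := min (τ ^ 2 * F) (τ * Real.sqrt F)) (lt_min hE (by positivity))
  obtain ⟨b4, hb4, H4⟩ := var_bd (D := D) (L := L) h1 he he2 hlam hrout hE
  have A1 := evr (a := e / 16) (b := 0) (((box D R).card : ℝ)) (by linarith)
  have A2 := evr (a := 0) (b := -(e / 4)) (1 / (τ * F)) (by linarith)
  obtain ⟨b5, hb5⟩ := Filter.eventually_atTop.1 (A1.and A2)
  refine ⟨R, hR3, max (max (max b1 b2) (max b3 b4)) b5, ?_, fun β hβ μ hμ => ?_⟩
  · exact hb1.le.trans ((le_max_left _ _).trans ((le_max_left _ _).trans (le_max_left _ _)))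
  have c1 : b1 ≤ β := ((le_max_left _ _).trans ((le_max_left _ _).trans (le_max_left _ _))).trans hβ
  have c2 : b2 ≤ β := ((le_max_right _ _).trans ((le_max_left _ _).trans (le_max_left _ _))).trans hβ
  have c3 : b3 ≤ β := ((le_max_left _ _).trans ((le_max_right _ _).trans (le_max_left _ _))).trans hβ
  have c4 : b4 ≤ β := ((le_max_right _ _).trans ((le_max_right _ _).trans (le_max_left _ _))).trans hβ
  have c5 : b5 ≤ β := (le_max_right _ _).trans hβ
  obtain ⟨d1, d2⟩ := hb5 β c5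
  have hβ1 : 1 ≤ β := hb1.le.trans c1
  have hβ0 : 0 < β := by linarith
  rw [Real.rpow_zero, mul_one] at d1
  rw [Real.rpow_zero] at d2
  have := hμ.shf.prob
  have hw1 : ∀ x a, |wR (L := L) i0 i1 m R x a| ≤ 1 := fun x a =>
    (wR_le hm0.le R x a).trans (hh_le hm0.le _)
  have hw0 : ∀ x, x ∉ box D R → wR (L := L) i0 i1 m R x = 0 := fun x hx => by
    funext a; unfold wR; rw [if_neg hx]; rfl
  obtain ⟨s0, -⟩ := H1 β c1 μ hμ (box D R) (wR i0 i1 m R) (fR i0 i1 R 0) d1 hw1 hw0 fR_le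
  obtain ⟨s2, -⟩ := H1 β c1 μ hμ (box D R) (wR i0 i1 m R) (fR i0 i1 R 2) d1 hw1 hw0 fR_le
  obtain ⟨v0, e0⟩ := H2 β c2 μ hμ
  obtain ⟨v2, e2⟩ := H3 β c3 μ hμ
  obtain ⟨vr, -⟩ := H4 β c4 μ hμ
  rw [fR_wR] at s0 s2
  have hFR : nsq (L := L) (box D R) (fR i0 i1 R 0) = F := by
    rw [hF]; exact (nsq_mono_box (Nat.le_succ R) fun x hx => fR_out hx).symm
  have hFR2 : nsq (L := L) (box D R) (fR i0 i1 R 2) = F := by
    rw [← hF2]; exact (nsq_mono_box (Nat.le_succ R) fun x hx => fR_out hx).symm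
  have hh0 : hh m 0 = 1 := by unfold hh; simp
  have hh2 : hh m 2 = q := by
    rw [hq]; unfold hh
    congr 1
    rw [abs_of_pos (by norm_num)]; push_cast; ring
  rw [hFR, hh0, one_mul] at s0
  rw [hFR2, hh2] at s2
  rw [← hF] at v0
  rw [hF2] at v2
  -- abbreviations
  set F0 : Cf G D L → ℝ := fun σ => pr (box D (R + 1)) (fR i0 i1 R 0) (sc X σ) with hF0
  set F2 : Cf G D L → ℝ := fun σ => pr (box D (R + 1)) (fR i0 i1 R 2) (sc X σ) with hF2'
  set Fr : Cf G D L → ℝ := fun σ => pr (box D (R + 1)) (rR i0 i1 m R) (sc X σ) with hFr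
  have hprk : ∀ k : ℤ, ∀ σ : Cf G D L, pr (box D R) (fR i0 i1 R k) (sc X σ) =
      pr (box D (R + 1)) (fR i0 i1 R k) (sc X σ) := fun k σ =>
    (pr_mono (box_mono (Nat.le_succ R)) (fun x hx => fR_out hx) _).symm
  have i00 := int_prod (μ := μ) h1.nX (box D (R + 1)) (box D (R + 1)) (fR (L := L) i0 i1 R 0)
    (fR i0 i1 R 0)
  have i20 := int_prod (μ := μ) h1.nX (box D (R + 1)) (box D (R + 1)) (fR (L := L) i0 i1 R 2)
    (fR i0 i1 R 0)
  have i0r := int_prod (μ := μ) h1.nX (box D (R + 1)) (box D (R + 1)) (fR (L := L) i0 i1 R 0)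
    (rR i0 i1 m R)
  have i2r := int_prod (μ := μ) h1.nX (box D (R + 1)) (box D (R + 1)) (fR (L := L) i0 i1 R 2)
    (rR i0 i1 m R)
  have E0 : ∫ σ, pr (box D R) (fR i0 i1 R 0) (sc X σ) * Bf (box D R) (wR i0 i1 m R) (sc X σ) ∂μ =
      s * ∫ σ, F0 σ ^ 2 ∂μ + ∫ σ, F0 σ * Fr σ ∂μ := by
    have : ∀ σ : Cf G D L, pr (box D R) (fR i0 i1 R 0) (sc X σ) *
        Bf (box D R) (wR i0 i1 m R) (sc X σ) = s * (F0 σ * F0 σ) + F0 σ * Fr σ := by
      intro σ; rw [hprk, Bf_wR, ← hs]; ring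
    simp only [this]
    rw [integral_add (i00.const_mul s) i0r, integral_const_mul]
    simp only [sq]
    rfl
  have E2 : ∫ σ, pr (box D R) (fR i0 i1 R 2) (sc X σ) * Bf (box D R) (wR i0 i1 m R) (sc X σ) ∂μ =
      s * ∫ σ, F2 σ * F0 σ ∂μ + ∫ σ, F2 σ * Fr σ ∂μ := by
    have : ∀ σ : Cf G D L, pr (box D R) (fR i0 i1 R 2) (sc X σ) *
        Bf (box D R) (wR i0 i1 m R) (sc X σ) = s * (F2 σ * F0 σ) + F2 σ * Fr σ := by
      intro σ; rw [hprk, Bf_wR, ← hs]; ring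
    simp only [this]
    rw [integral_add (i20.const_mul s) i2r, integral_const_mul]
  rw [E0] at s0
  rw [E2] at s2
  have k0 := cs_tau (μ := μ) h1.nX (box D (R + 1)) (box D (R + 1)) (fR (L := L) i0 i1 R 0)
    (rR i0 i1 m R) hτ0
  have k2 := cs_tau (μ := μ) h1.nX (box D (R + 1)) (box D (R + 1)) (fR (L := L) i0 i1 R 2)
    (rR i0 i1 m R) hτ0
  have hsm : β ^ (-(e / 4)) ≤ τ * F := by
    have h2 : β ^ (-(e / 4)) = (1 / (τ * F) * β ^ (-(e / 4))) * (τ * F) := by field_simp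
    rw [h2]
    calc _ ≤ 1 * (τ * F) := mul_le_mul_of_nonneg_right d2 (by positivity)
      _ = _ := one_mul _
  have hββ : β ^ (1 / 2 : ℝ) * β ^ (1 / 2 : ℝ) = β := by
    rw [← Real.rpow_add hβ0]; norm_num
  have hB0 : 0 ≤ β ^ (1 / 2 : ℝ) := Real.rpow_nonneg hβ0.le _
  rw [← hq']
  have hq1 : q < 1 := by
    rw [hq, ← Real.exp_zero]; exact Real.exp_lt_exp.2 (by linarith)
  exact num_aux hR2 hK hlam hs0 hq'0 hτ0 hτ1 hτ2 hq1 hβ0 (Real.mul_self_sqrt hR2.le)
    (Real.sqrt_nonneg _) hB0 hββ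
    (v0.trans (by gcongr; exact min_le_left _ _)) (v2.trans (by gcongr; exact min_le_left _ _))
    hR1 vr k0 k2 (s0.trans hsm) (s2.trans hsm)
    (e0.trans (mul_le_mul_of_nonneg_right (min_le_right _ _) hB0))
    (e0.trans (mul_le_mul_of_nonneg_right (min_le_right _ _) hB0))

end

end Pool.Agent.N109.Slab
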