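import Mathlib

/-!
# The Schwinger-Dyson inequality: abstract analytic core
-/

set_option autoImplicit false

open MeasureTheory

namespace Pool.Agent.N109.Slab

noncomputable section

/-- second order bound of the exponential -/
lemma exp_second {x : ℝ} (hx : |x| ≤ 1) : |Real.exp (-x) - (1 - x)| ≤ x ^ 2 := by
  have h := Real.abs_exp_sub_one_sub_id_le (x := -x) (by rwa [abs_neg])
  have e : Real.exp (-x) - 1 - (-x) = Real.exp (-x) - (1 - x) := by ring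
  rw [e] at h
  simpa using h

/-- abstract Schwinger-Dyson inequality -/
theorem sd_core {Ω : Type*} [MeasurableSpace Ω] {μ : Measure Ω} [IsProbabilityMeasure μ]
    {F F' B X : Ω → ℝ} {Gd Gd' : Set Ω} (hG : MeasurableSet Gd) (hG' : MeasurableSet Gd')
    (mF : Measurable F) (mB : Measurable B) (mF' : Measurable F') (mX : Measurable X)
    {M MB m r1 r2 ρ ξ bB b t ℓ p : ℝ}
    (hid : ∫ ω in Gd', F ω ∂μ = ∫ ω in Gd, F' ω * Real.exp (-X ω) ∂μ)
    (hF : ∀ ω, |F ω| ≤ M) (hB : ∀ ω, |B ω| ≤ MB)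
    (hF' : ∀ ω ∈ Gd, |F' ω| ≤ m) (h1 : ∀ ω ∈ Gd, |F' ω - F ω - t * ℓ| ≤ r1)
    (h2 : ∀ ω ∈ Gd, |F' ω - F ω| ≤ r2)
    (hX : ∀ ω ∈ Gd, |X ω - b * B ω| ≤ ρ) (hX2 : ∀ ω ∈ Gd, |X ω| ≤ ξ) (hξ : ξ ≤ 1)
    (hBG : ∀ ω ∈ Gd, |B ω| ≤ bB) (hb : 0 ≤ b) (ht : 0 ≤ t)
    (hM : 0 ≤ M) (hMB : 0 ≤ MB) (hm : 0 ≤ m) (hr1 : 0 ≤ r1) (hr2 : 0 ≤ r2) (hρ : 0 ≤ ρ)
    (hbB : 0 ≤ bB)
    (hp : μ.real Gdᶜ ≤ p) (hp' : μ.real Gd'ᶜ ≤ p) :
    |b * ∫ ω, F ω * B ω ∂μ - t * ℓ| ≤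
      (m * ξ ^ 2 + r1 + m * ρ + b * (r2 * bB)) + p * (2 * M + t * |ℓ| + b * (M * MB)) := by
  set r : ℝ := m * ξ ^ 2 + r1 + m * ρ + b * (r2 * bB) with hr
  -- integrability
  have iF : Integrable F μ :=
    Integrable.of_bound mF.aestronglyMeasurable M (Filter.Eventually.of_forall hF)
  have iFB : Integrable (fun ω => F ω * B ω) μ := by
    refine Integrable.of_bound (mF.mul mB).aestronglyMeasurable (M * MB)
      (Filter.Eventually.of_forall fun ω => ?_)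
    rw [Real.norm_eq_abs, abs_mul]
    exact mul_le_mul (hF ω) (hB ω) (abs_nonneg _) hM
  set g : Ω → ℝ := fun ω => F ω + t * ℓ - b * (F ω * B ω) with hg
  have ig : Integrable g μ := (iF.add (integrable_const _)).sub (iFB.const_mul b)
  have hgb : ∀ ω, |g ω| ≤ M + t * |ℓ| + b * (M * MB) := by
    intro ω
    have a1 := hF ω
    have a2 : |F ω * B ω| ≤ M * MB := by
      rw [abs_mul]; exact mul_le_mul (hF ω) (hB ω) (abs_nonneg _) hM
    have a3 : |g ω| ≤ |F ω| + |t * ℓ| + |b * (F ω * B ω)| := by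
      rw [hg]
      simp only
      have := abs_sub (F ω + t * ℓ) (b * (F ω * B ω))
      have := abs_add_le (F ω) (t * ℓ)
      linarith
    rw [abs_mul t, abs_of_nonneg ht, abs_mul b, abs_of_nonneg hb] at a3
    have := mul_le_mul_of_nonneg_left a2 hb
    linarith
  -- pointwise comparison on the good set
  have hpt : ∀ ω ∈ Gd, |F' ω * Real.exp (-X ω) - g ω| ≤ r := by
    intro ω hω
    have e1 := exp_second ((hX2 ω hω).trans hξ)
    have e2 : X ω ^ 2 ≤ ξ ^ 2 := by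
      rw [← sq_abs (X ω)]
      exact pow_le_pow_left₀ (abs_nonneg _) (hX2 ω hω) 2
    have e3 : F' ω * Real.exp (-X ω) - g ω =
        F' ω * (Real.exp (-X ω) - (1 - X ω)) + (F' ω - F ω - t * ℓ) -
        F' ω * (X ω - b * B ω) - b * ((F' ω - F ω) * B ω) := by
      rw [hg]; ring
    rw [e3]
    have b1 : |F' ω * (Real.exp (-X ω) - (1 - X ω))| ≤ m * ξ ^ 2 := by
      rw [abs_mul]
      exact mul_le_mul (hF' ω hω) (e1.trans e2) (abs_nonneg _) hm
    have b2 := h1 ω hω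
    have b3 : |F' ω * (X ω - b * B ω)| ≤ m * ρ := by
      rw [abs_mul]
      exact mul_le_mul (hF' ω hω) (hX ω hω) (abs_nonneg _) hm
    have b4 : |b * ((F' ω - F ω) * B ω)| ≤ b * (r2 * bB) := by
      rw [abs_mul, abs_of_nonneg hb, abs_mul]
      exact mul_le_mul_of_nonneg_left (mul_le_mul (h2 ω hω) (hBG ω hω) (abs_nonneg _) hr2) hb
    have c1 := abs_sub (F' ω * (Real.exp (-X ω) - (1 - X ω)) + (F' ω - F ω - t * ℓ) -
        F' ω * (X ω - b * B ω)) (b * ((F' ω - F ω) * B ω))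
    have c2 := abs_sub (F' ω * (Real.exp (-X ω) - (1 - X ω)) + (F' ω - F ω - t * ℓ))
        (F' ω * (X ω - b * B ω))
    have c3 := abs_add_le (F' ω * (Real.exp (-X ω) - (1 - X ω))) (F' ω - F ω - t * ℓ)
    rw [hr]
    linarith
  have iE : IntegrableOn (fun ω => F' ω * Real.exp (-X ω)) Gd μ := by
    have : IntegrableOn (fun ω => (F' ω * Real.exp (-X ω) - g ω) + g ω) Gd μ := by
      refine Integrable.add ?_ ig.integrableOn
      refine Integrable.of_bound (C := r) ?_ ?_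
      · have mg : Measurable g := by
          rw [hg]; exact (mF.add_const _).sub ((mF.mul mB).const_mul b)
        exact ((mF'.mul mX.neg.exp).sub mg).aestronglyMeasurable
      · filter_upwards [ae_restrict_mem hG] with ω hω
        exact hpt ω hω
    simpa using this
  have hr0 : 0 ≤ r := by rw [hr]; positivity
  -- integrated comparison
  have hint : |∫ ω in Gd', F ω ∂μ - ∫ ω in Gd, g ω ∂μ| ≤ r := by
    rw [hid, ← integral_sub iE ig.integrableOn]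
    have := norm_setIntegral_le_of_norm_le_const (μ := μ) (s := Gd) (C := r)
      (f := fun ω => F' ω * Real.exp (-X ω) - g ω) (measure_lt_top μ _)
      (fun ω hω => hpt ω hω)
    rw [Real.norm_eq_abs] at this
    refine this.trans ?_
    have h9 : μ.real Gd ≤ 1 := measureReal_le_one
    nlinarith
  have s1 : ∫ ω, F ω ∂μ = ∫ ω in Gd', F ω ∂μ + ∫ ω in Gd'ᶜ, F ω ∂μ :=
    (integral_add_compl hG' iF).symm
  have s2 : ∫ ω, g ω ∂μ = ∫ ω in Gd, g ω ∂μ + ∫ ω in Gdᶜ, g ω ∂μ :=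
    (integral_add_compl hG ig).symm
  have t1 : |∫ ω in Gd'ᶜ, F ω ∂μ| ≤ M * p := by
    have := norm_setIntegral_le_of_norm_le_const (μ := μ) (s := Gd'ᶜ) (C := M)
      (f := F) (measure_lt_top μ _) (fun ω _ => hF ω)
    exact this.trans (mul_le_mul_of_nonneg_left hp' hM)
  have t2 : |∫ ω in Gdᶜ, g ω ∂μ| ≤ (M + t * |ℓ| + b * (M * MB)) * p := by
    have := norm_setIntegral_le_of_norm_le_const (μ := μ) (s := Gdᶜ)
      (C := M + t * |ℓ| + b * (M * MB))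
      (f := g) (measure_lt_top μ _) (fun ω _ => hgb ω)
    exact this.trans (mul_le_mul_of_nonneg_left hp (by positivity))
  have s3 : ∫ ω, g ω ∂μ = ∫ ω, F ω ∂μ + t * ℓ - b * ∫ ω, F ω * B ω ∂μ := by
    have i1 : Integrable (fun ω => F ω + t * ℓ) μ := iF.add (integrable_const _)
    have i2 : Integrable (fun ω => b * (F ω * B ω)) μ := iFB.const_mul b
    calc ∫ ω, g ω ∂μ = ∫ ω, ((F ω + t * ℓ) - b * (F ω * B ω)) ∂μ := rfl
      _ = ∫ ω, (F ω + t * ℓ) ∂μ - ∫ ω, b * (F ω * B ω) ∂μ := integral_sub i1 i2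
      _ = (∫ ω, F ω ∂μ + ∫ _, t * ℓ ∂μ) - ∫ ω, b * (F ω * B ω) ∂μ := by
          rw [integral_add iF (integrable_const _)]
      _ = _ := by
          rw [integral_const, integral_const_mul]
          simp
  have key : b * ∫ ω, F ω * B ω ∂μ - t * ℓ =
      (∫ ω in Gd', F ω ∂μ - ∫ ω in Gd, g ω ∂μ) + ∫ ω in Gd'ᶜ, F ω ∂μ -
      ∫ ω in Gdᶜ, g ω ∂μ := by
    linarith
  rw [key]
  have c1 := abs_sub ((∫ ω in Gd', F ω ∂μ - ∫ ω in Gd, g ω ∂μ) + ∫ ω in Gd'ᶜ, F ω ∂μ)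
    (∫ ω in Gdᶜ, g ω ∂μ)
  have c2 := abs_add_le (∫ ω in Gd', F ω ∂μ - ∫ ω in Gd, g ω ∂μ) (∫ ω in Gd'ᶜ, F ω ∂μ)
  nlinarith

end

end Pool.Agent.N109.Slab
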