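import Pool.Agent.N109.Slab.HK
import Pool.Agent.N109.Slab.SDcore

/-!
# The Schwinger-Dyson inequality in the slab
-/

set_option autoImplicit false
set_option linter.unusedSectionVars false
set_option linter.unusedVariables false
set_option linter.style.haveILetI false

open MeasureTheory Matrix Finset
open scoped Matrix.Norms.Frobenius ENNReal

namespace Pool.Agent.N109.Slab

open Pool.Agent.N990

noncomputable section

variable {N D L : ℕ} {G : Subgroup (UU N)}

lemma sctM : SecondCountableTopology (Mt N) :=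
  inferInstanceAs (SecondCountableTopology (Fin N → Fin N → ℂ))

lemma sctU : SecondCountableTopology (UU N) :=
  haveI := sctM (N := N)
  TopologicalSpace.Subtype.secondCountableTopology (α := Mt N) _

lemma sctG : SecondCountableTopology G :=
  haveI := sctU (N := N)
  TopologicalSpace.Subtype.secondCountableTopology (α := UU N) _

/-- configurations in the axial gauge -/
abbrev Cf {N : ℕ} (G : Subgroup (UU N)) (D L : ℕ) := Site D → Lab D L → G

/-- the component of the field in the direction `X` -/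
def sc (X : Mt N) (σ : Cf G D L) : SF D L := fun x a => ip X (Yf σ x a)

/-- the pairing of scalar fields on `V` -/
def pr (V : Finset (Site D)) (c φ : SF D L) : ℝ := ∑ x ∈ V, ∑ a, c x a * φ x a

/-- a one parameter group (or a curve with the same properties) in `G` -/
structure OneP (X : Mt N) (γ : ℝ → G) (κ : ℝ) : Prop where
  nX : ‖X‖ = 1
  zero : γ 0 = 1
  hκ : 0 ≤ κ
  est : ∀ s, |s| ≤ 1 → ‖mt (γ s) - 1 - s • X‖ ≤ κ * s ^ 2

/-- the shift identity of an infinite volume Gibbs measure -/
structure Shf (G : Subgroup (UU N)) (D L : ℕ) [MeasurableSpace G] (β : ℝ)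
    (μ : Measure (Cf G D L)) : Prop where
  prob : IsProbabilityMeasure μ
  shift : ∀ (V : Finset (Site D)) (v : Cf G D L), (∀ x, x ∉ V → v x = 1) →
    ∀ F : Cf G D L → ℝ≥0∞, Measurable F → ∫⁻ σ, F σ ∂μ = ∫⁻ σ, F (v * σ) *
      ENNReal.ofReal (Real.exp (-(β * ∑ x ∈ Ns V, (hx (v * σ) x - hx σ x)))) ∂μ

/-! ### linear algebra -/

lemma low_smulX (X : Mt N) (φ : Lab D L → ℝ) (a : Lab D L) :
    low (fun b => φ b • X) a = low φ a • X := by
  unfold low; split_ifs <;> simp

lemma ip_low (X : Mt N) (φ : Lab D L → Mt N) (a : Lab D L) :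
    ip X (low φ a) = low (fun b => ip X (φ b)) a := by
  unfold low; split_ifs
  · exact ip_zero_right _
  · rfl

lemma dv_smulX (X : Mt N) (ω : SF D L) (x : Site D) (a : Lab D L) :
    dv (fun y b => ω y b • X) x a = dv ω x a • X := by
  unfold dv
  have := low_smulX X (ω x) a
  rw [this, sub_smul]

lemma dp_smulX (X : Mt N) (ω : SF D L) (x : Site D) (p : (Fin D × Fin D) × Fin L) :
    dp (fun y b => ω y b • X) x p = dp ω x p • X := by
  unfold dp
  rw [sub_smul, sub_smul, add_smul]

lemma dv_sc (X : Mt N) (σ : Cf G D L) (x : Site D) (a : Lab D L) :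
    dv (sc X σ) x a = ip X (dv (Yf σ) x a) := by
  unfold dv
  rw [ip_sub_right, ip_low]
  rfl

lemma dp_sc (X : Mt N) (σ : Cf G D L) (x : Site D) (p : (Fin D × Fin D) × Fin L) :
    dp (sc X σ) x p = ip X (dp (Yf σ) x p) := by
  unfold dp
  rw [ip_sub_right, ip_sub_right, ip_add_right]
  rfl

lemma bip_sc (X : Mt N) (σ : Cf G D L) (ω : SF D L) (x : Site D) :
    bip (Yf σ) (fun y b => ω y b • X) x = bx ω (sc X σ) x := by
  unfold bip bx
  simp only [dv_smulX, dp_smulX, ip_smul_right, dv_sc, dp_sc, smul_eq_mul]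
  congr 1
  · refine Finset.sum_congr rfl fun a _ => ?_
    rw [ip_comm]
  · refine Finset.sum_congr rfl fun a _ => ?_
    rw [ip_comm]

lemma bip_self {X : Mt N} (hX : ‖X‖ = 1) (ω : SF D L) (x : Site D) :
    bip (fun y b => ω y b • X) (fun y b => ω y b • X) x = bx ω ω x := by
  have h : ip X X = 1 := by rw [ip_self, hX]; norm_num
  unfold bip bx
  simp only [dv_smulX, dp_smulX, ip_smul_right, ip_smul_left, h, smul_eq_mul, mul_one]

lemma sc_le {X : Mt N} (hX : ‖X‖ = 1) (σ : Cf G D L) (x : Site D) (a : Lab D L) :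
    |sc X σ x a| ≤ ‖Yf σ x a‖ := by
  have := ip_le X (Yf σ x a)
  rwa [hX, one_mul] at this

lemma Yf_le (σ : Cf G D L) (x : Site D) (a : Lab D L) : ‖Yf σ x a‖ ≤ 2 * N := by
  have h := norm_mt_sub_one_sq (σ x a)
  have h0 : (0 : ℝ) ≤ N := Nat.cast_nonneg _
  unfold Yf
  rcases Nat.eq_zero_or_pos N with h1 | h1
  · subst h1
    have : ‖mt (σ x a) - 1‖ ^ 2 ≤ 0 := by simpa using h
    have h2 : ‖mt (σ x a) - 1‖ = 0 := by
      have := sq_nonneg ‖mt (σ x a) - 1‖
      exact pow_eq_zero_iff (two_ne_zero) |>.1 (le_antisymm ‹_› this)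
    rw [h2]; simp
  · have h2 : (1 : ℝ) ≤ N := by exact_mod_cast h1
    refine abs_le_of_sq_le_sq' ?_ (by positivity) |>.2
    nlinarith

/-! ### bounds of the pairings -/

lemma pr_le {V : Finset (Site D)} {c φ : SF D L} {m : ℝ} (hm : 0 ≤ m)
    (hc : ∀ x a, |c x a| ≤ 1) (hφ : ∀ x ∈ V, ∀ a, |φ x a| ≤ m) :
    |pr V c φ| ≤ (V.card * (D * L)) * m := by
  unfold pr
  calc |∑ x ∈ V, ∑ a, c x a * φ x a| ≤ ∑ x ∈ V, |∑ a, c x a * φ x a| :=
        Finset.abs_sum_le_sum_abs _ _
    _ ≤ ∑ x ∈ V, (D * L : ℝ) * m := by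
        refine Finset.sum_le_sum fun x hx => ?_
        refine (Finset.abs_sum_le_sum_abs _ _).trans ?_
        refine (Finset.sum_le_sum (g := fun _ => m) fun a _ => ?_).trans ?_
        · rw [abs_mul]
          calc |c x a| * |φ x a| ≤ 1 * m :=
                mul_le_mul (hc x a) (hφ x hx a) (abs_nonneg _) zero_le_one
            _ = m := one_mul m
        · rw [Finset.sum_const, Finset.card_univ, nsmul_eq_mul, Fintype.card_prod, Fintype.card_fin,
            Fintype.card_fin]
          push_cast; exact le_rfl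
    _ = _ := by rw [Finset.sum_const, nsmul_eq_mul]; ring

/-- the constant of `bx_le` -/
def CB (D L : ℕ) : ℝ := 4 * (D * L) + 16 * (D * D * L)

lemma CB_nonneg : 0 ≤ CB D L := by unfold CB; positivity

lemma Bs_le {V : Finset (Site D)} {ω φ : SF D L} {m R : ℝ} (hm : 0 ≤ m) (hR : 0 ≤ R)
    (h1 : ∀ x a, |ω x a| ≤ R) (h2 : ∀ x ∈ V, ∀ a, |φ x a| ≤ m)
    (h3 : ∀ x ∈ V, ∀ i a, |φ (x + ev i) a| ≤ m) :
    |∑ x ∈ V, bx ω φ x| ≤ V.card * (CB D L * (R * m)) := by
  calc |∑ x ∈ V, bx ω φ x| ≤ ∑ x ∈ V, |bx ω φ x| := Finset.abs_sum_le_sum_abs _ _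
    _ ≤ ∑ x ∈ V, CB D L * (R * m) :=
        Finset.sum_le_sum fun x hx => bx_le hR hm (h1 x) (fun i a => h1 _ a) (h2 x hx) (h3 x hx)
    _ = _ := by rw [Finset.sum_const, nsmul_eq_mul]

/-! ### measurability -/

section meas

variable [MeasurableSpace G] [BorelSpace G]

lemma cont_mt : Continuous (fun g : G => N990.mt g) := by
  unfold N990.mt
  fun_prop

lemma hx_meas (x : Site D) : Measurable fun σ : Cf G D L => hx σ x := by
  haveI := sctG (G := G)
  have hc : Continuous (fun σ : Cf G D L => hx σ x) := by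
    have := cont_mt (G := G)
    unfold hx dv Pq Yf low
    refine Continuous.add ?_ ?_
    · refine continuous_const.mul (continuous_finsetSum _ fun a _ => ?_)
      refine Continuous.pow (Continuous.norm ?_) 2
      split_ifs
      · fun_prop
      · fun_prop
    · refine continuous_const.mul (continuous_finsetSum _ fun a _ => ?_)
      refine Continuous.pow (Continuous.norm ?_) 2
      fun_prop
  exact hc.measurable

lemma Yf_meas (x : Site D) (a : Lab D L) : Measurable fun σ : Cf G D L => ‖Yf σ x a‖ := by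
  haveI := sctG (G := G)
  have hc : Continuous (fun σ : Cf G D L => ‖Yf σ x a‖) := by
    have := cont_mt (G := G)
    unfold Yf
    fun_prop
  exact hc.measurable

lemma ip_cont (X : Mt N) : Continuous (fun A : Mt N => ip X A) := by
  unfold ip
  fun_prop

lemma sc_meas (X : Mt N) (x : Site D) (a : Lab D L) :
    Measurable fun σ : Cf G D L => sc X σ x a := by
  haveI := sctG (G := G)
  have hc : Continuous (fun σ : Cf G D L => sc X σ x a) := by
    have := cont_mt (G := G)
    have h2 := ip_cont X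
    unfold sc Yf
    fun_prop
  exact hc.measurable

lemma pr_meas (X : Mt N) (V : Finset (Site D)) (c : SF D L) :
    Measurable fun σ : Cf G D L => pr V c (sc X σ) := by
  unfold pr
  exact Finset.measurable_fun_sum _ fun x _ => Finset.measurable_fun_sum _ fun a _ =>
    (sc_meas X x a).const_mul _

lemma bx_meas (X : Mt N) (ω : SF D L) (x : Site D) :
    Measurable fun σ : Cf G D L => bx ω (sc X σ) x := by
  have hlow : ∀ a, Measurable fun σ : Cf G D L => low (sc X σ x) a := by
    intro a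
    unfold low
    split_ifs
    · exact measurable_const
    · exact sc_meas X x _
  unfold bx dv dp
  refine Measurable.add (Finset.measurable_fun_sum _ fun a _ => ?_)
    (Finset.measurable_fun_sum _ fun p _ => ?_)
  · exact ((sc_meas X x a).sub (hlow a)).const_mul _
  · exact ((((sc_meas X x _).add (sc_meas X _ _)).sub (sc_meas X x _)).sub
      (sc_meas X _ _)).const_mul _

lemma mulv_meas (v : Cf G D L) : Measurable fun σ : Cf G D L => v * σ := by
  haveI := sctG (G := G)
  exact measurable_const_mul v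

/-- the shift identity for real functions on a good set -/
lemma Shf.set {β : ℝ} {μ : Measure (Cf G D L)} (h : Shf G D L β μ) {V : Finset (Site D)}
    {v : Cf G D L} (hv : ∀ x, x ∉ V → v x = 1) {F : Cf G D L → ℝ} (mF : Measurable F)
    {Gd : Set (Cf G D L)} (hG : MeasurableSet Gd) :
    ∫ σ in {σ | v⁻¹ * σ ∈ Gd}, F σ ∂μ = ∫ σ in Gd, F (v * σ) *
      Real.exp (-(β * ∑ x ∈ Ns V, (hx (v * σ) x - hx σ x))) ∂μ := by
  set X : Cf G D L → ℝ := fun σ => β * ∑ x ∈ Ns V, (hx (v * σ) x - hx σ x) with hXd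
  have mX : Measurable X := by
    rw [hXd]
    exact (Finset.measurable_fun_sum _ fun x _ =>
      ((hx_meas x).comp (mulv_meas v)).sub (hx_meas x)).const_mul β
  set ρ : Cf G D L → ℝ≥0∞ := fun σ => ENNReal.ofReal (Real.exp (-X σ)) with hρ
  have mρ : Measurable ρ := ENNReal.measurable_ofReal.comp (Real.measurable_exp.comp mX.neg)
  have hmap : μ = (μ.withDensity ρ).map (fun σ => v * σ) := by
    refine Measure.ext_of_lintegral _ fun f hf => ?_
    have mfv : Measurable fun σ => f (v * σ) := hf.comp (mulv_meas v)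
    rw [lintegral_map hf (mulv_meas v), lintegral_withDensity_eq_lintegral_mul _ mρ mfv,
      h.shift V v hv f hf]
    refine lintegral_congr fun σ => ?_
    simp only [Pi.mul_apply, hρ, hXd]
    rw [mul_comm]
  have mG' : MeasurableSet {σ : Cf G D L | v⁻¹ * σ ∈ Gd} := (mulv_meas v⁻¹) hG
  have e1 : ∫ σ in {σ | v⁻¹ * σ ∈ Gd}, F σ ∂μ =
      ∫ σ, ({σ | v⁻¹ * σ ∈ Gd} : Set (Cf G D L)).indicator F σ ∂μ := (integral_indicator mG').symm
  have mI : Measurable (({σ | v⁻¹ * σ ∈ Gd} : Set (Cf G D L)).indicator F) := mF.indicator mG'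
  rw [e1]
  conv_lhs => rw [hmap]
  rw [integral_map (mulv_meas v).aemeasurable mI.aestronglyMeasurable,
    integral_withDensity_eq_integral_toReal_smul mρ (Filter.Eventually.of_forall fun σ => by
      rw [hρ]; exact ENNReal.ofReal_lt_top), ← integral_indicator hG]
  refine integral_congr_ae (Filter.Eventually.of_forall fun σ => ?_)
  have e2 : v⁻¹ * (v * σ) = σ := by rw [← mul_assoc, inv_mul_cancel, one_mul]
  simp only [hρ, ENNReal.toReal_ofReal (Real.exp_pos _).le, smul_eq_mul]
  by_cases hσ : σ ∈ Gd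
  · rw [Set.indicator_of_mem hσ, Set.indicator_of_mem (by
      show v⁻¹ * (v * σ) ∈ Gd; rw [e2]; exact hσ)]
    ring
  · rw [Set.indicator_of_notMem hσ, Set.indicator_of_notMem (by
      show ¬ (v⁻¹ * (v * σ) ∈ Gd); rw [e2]; exact hσ)]
    ring

end meas

end

end Pool.Agent.N109.Slab
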