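import Pool.Agent.N109.Slab.SD

/-!
# The Schwinger-Dyson inequality in the slab: explicit form
-/

set_option autoImplicit false
set_option linter.unusedSectionVars false
set_option linter.unusedVariables false
set_option linter.style.haveILetI false

open MeasureTheory Matrix Finset
open scoped Matrix.Norms.Frobenius ENNReal

namespace Pool.Agent.N109.Slab

open Pool.Agent.N990

noncomputable section

variable {N D L : ℕ} {G : Subgroup (UU N)}

/-- all sites in the terms touching `A` -/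
def clA (A : Finset (Site D)) : Finset (Site D) := by
  classical exact Ns A ∪ Finset.univ.biUnion fun i : Fin D => (Ns A).image fun x => x + ev i

lemma mem_clA {A : Finset (Site D)} {y : Site D} :
    y ∈ clA A ↔ y ∈ Ns A ∨ ∃ i, ∃ x ∈ Ns A, x + ev i = y := by
  classical
  unfold clA
  simp only [Finset.mem_union, Finset.mem_biUnion, Finset.mem_univ, true_and, Finset.mem_image]

lemma Ns_card (A : Finset (Site D)) : (Ns A).card ≤ (D + 1) * A.card := by
  classical
  unfold Ns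
  refine (Finset.card_union_le _ _).trans ?_
  have : (Finset.univ.biUnion fun i : Fin D => A.image fun x => x - ev i).card ≤ D * A.card := by
    refine Finset.card_biUnion_le.trans ?_
    calc ∑ i : Fin D, (A.image fun x => x - ev i).card ≤ ∑ i : Fin D, A.card :=
          Finset.sum_le_sum fun i _ => Finset.card_image_le
      _ = D * A.card := by rw [Finset.sum_const, Finset.card_univ, Fintype.card_fin, smul_eq_mul]
  calc A.card + _ ≤ A.card + D * A.card := Nat.add_le_add_left this _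
    _ = _ := by ring

lemma clA_card (A : Finset (Site D)) : (clA A).card ≤ (D + 1) * ((D + 1) * A.card) := by
  classical
  unfold clA
  refine (Finset.card_union_le _ _).trans ?_
  have : (Finset.univ.biUnion fun i : Fin D => (Ns A).image fun x => x + ev i).card ≤
      D * (Ns A).card := by
    refine Finset.card_biUnion_le.trans ?_
    calc ∑ i : Fin D, ((Ns A).image fun x => x + ev i).card ≤ ∑ i : Fin D, (Ns A).card :=
          Finset.sum_le_sum fun i _ => Finset.card_image_le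
      _ = D * (Ns A).card := by
          rw [Finset.sum_const, Finset.card_univ, Fintype.card_fin, smul_eq_mul]
  calc (Ns A).card + _ ≤ (Ns A).card + D * (Ns A).card := Nat.add_le_add_left this _
    _ = (D + 1) * (Ns A).card := by ring
    _ ≤ _ := Nat.mul_le_mul_left _ (Ns_card A)

lemma sub_Ns (A : Finset (Site D)) : A ⊆ Ns A := fun _ hx => mem_Ns.2 (Or.inl hx)

lemma Ns_clA (A : Finset (Site D)) : Ns A ⊆ clA A := fun _ hx => mem_clA.2 (Or.inl hx)

/-- the good set: small spins in `W` -/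
def Gds (G : Subgroup (UU N)) (D L : ℕ) (δ : ℝ) (W : Finset (Site D)) : Set (Cf G D L) :=
  {σ | ∀ x ∈ W, ∀ a, ‖Yf σ x a‖ ≤ δ}

section meas

variable [MeasurableSpace G] [BorelSpace G]

lemma Gds_meas (δ : ℝ) (W : Finset (Site D)) : MeasurableSet (Gds G D L δ W) := by
  have : Gds G D L δ W = ⋂ x ∈ W, ⋂ a : Lab D L, {σ : Cf G D L | ‖Yf σ x a‖ ≤ δ} := by
    ext σ; simp [Gds]
  rw [this]
  exact Finset.measurableSet_biInter _ fun x _ => MeasurableSet.iInter fun a =>
    (Yf_meas x a) measurableSet_Iic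

/-- the probability of a bad spin -/
lemma bad_le {μ : Measure (Cf G D L)} [IsProbabilityMeasure μ] {δ p0 : ℝ} {W : Finset (Site D)}
    (hp : ∀ y a, μ.real {σ : Cf G D L | δ < ‖Yf σ y a‖} ≤ p0) :
    μ.real {σ : Cf G D L | ∃ x ∈ W, ∃ a, δ < ‖Yf σ x a‖} ≤ W.card * (D * L) * p0 := by
  classical
  have e : {σ : Cf G D L | ∃ x ∈ W, ∃ a, δ < ‖Yf σ x a‖} =
      ⋃ q ∈ W ×ˢ (Finset.univ : Finset (Lab D L)), {σ : Cf G D L | δ < ‖Yf σ q.1 q.2‖} := by
    ext σ
    constructor
    · rintro ⟨x, hx, a, h⟩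
      exact Set.mem_iUnion₂.2 ⟨(x, a), Finset.mem_product.2 ⟨hx, Finset.mem_univ _⟩, h⟩
    · intro h
      obtain ⟨q, hq, h⟩ := Set.mem_iUnion₂.1 h
      exact ⟨q.1, (Finset.mem_product.1 hq).1, q.2, h⟩
  rw [e]
  refine (measureReal_biUnion_finset_le _ _).trans ?_
  refine (Finset.sum_le_sum (g := fun _ => p0) fun q _ => hp q.1 q.2).trans ?_
  rw [Finset.sum_const, Finset.card_product, Finset.card_univ, nsmul_eq_mul, Fintype.card_prod,
    Fintype.card_fin, Fintype.card_fin]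
  push_cast
  exact le_of_eq (by ring)

end meas

/-- all the data of the inequality -/
structure Dt (G : Subgroup (UU N)) (D L : ℕ) [MeasurableSpace G] (β : ℝ)
    (μ : Measure (Cf G D L)) (X : Mt N) (γ : ℝ → G) (κ δ t p0 : ℝ) (V : Finset (Site D))
    (ω : SF D L) : Prop where
  shf : Shf G D L β μ
  one : OneP X γ κ
  hβ : 0 ≤ β
  ht : 0 < t
  htδ : 4 * t ≤ δ
  hδ : δ ≤ 1
  hκt : κ * t ≤ 1
  ω1 : ∀ x a, |ω x a| ≤ 1
  ω0 : ∀ x, x ∉ V → ω x = 0
  mb : ∀ y a, μ.real {σ : Cf G D L | δ / 2 < ‖Yf σ y a‖} ≤ p0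

namespace Dt

variable [MeasurableSpace G] {β : ℝ} {μ : Measure (Cf G D L)} {X : Mt N} {γ : ℝ → G}
  {κ δ t p0 : ℝ} {V : Finset (Site D)} {ω : SF D L}

/-- the shift -/
def vv (γ : ℝ → G) (t : ℝ) (ω : SF D L) : Cf G D L := fun x a => γ (t * ω x a)

/-- the linear observable of the shift -/
def BB (X : Mt N) (V : Finset (Site D)) (ω : SF D L) (σ : Cf G D L) : ℝ :=
  ∑ x ∈ Ns V, bx ω (sc X σ) x

/-- the exponent -/
def XX (β : ℝ) (V : Finset (Site D)) (v σ : Cf G D L) : ℝ :=
  β * ∑ x ∈ Ns V, (hx (v * σ) x - hx σ x)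

lemma vv_out (h : Dt G D L β μ X γ κ δ t p0 V ω) {x : Site D} (hx : x ∉ V) :
    vv γ t ω x = 1 := by
  funext a
  unfold vv
  rw [h.ω0 x hx]
  simp [h.one.zero]

lemma tω (h : Dt G D L β μ X γ κ δ t p0 V ω) (x : Site D) (a : Lab D L) : |t * ω x a| ≤ t := by
  rw [abs_mul, abs_of_pos h.ht]
  have := h.ω1 x a
  have := h.ht
  nlinarith

lemma vv_est (h : Dt G D L β μ X γ κ δ t p0 V ω) (x : Site D) (a : Lab D L) :
    ‖mt (vv γ t ω x a) - 1 - (t * ω x a) • X‖ ≤ κ * t ^ 2 := by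
  have h1 := h.tω x a
  have ht := h.ht
  have hδ := h.hδ
  have htδ := h.htδ
  refine (h.one.est _ (h1.trans (by linarith))).trans ?_
  refine mul_le_mul_of_nonneg_left ?_ h.one.hκ
  rw [← sq_abs]
  exact pow_le_pow_left₀ (abs_nonneg _) h1 2

lemma vv_small (h : Dt G D L β μ X γ κ δ t p0 V ω) (x : Site D) (a : Lab D L) :
    ‖mt (vv γ t ω x a) - 1‖ ≤ 2 * t := by
  have h1 := h.vv_est x a
  have h2 : ‖(t * ω x a) • X‖ ≤ t := by
    rw [norm_smul, Real.norm_eq_abs, h.one.nX, mul_one]; exact h.tω x a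
  have h3 : mt (vv γ t ω x a) - 1 = (mt (vv γ t ω x a) - 1 - (t * ω x a) • X) +
      (t * ω x a) • X := by abel
  rw [h3]
  refine (norm_add_le _ _).trans ?_
  have ht := h.ht
  have : κ * t ^ 2 ≤ t := by
    have := mul_le_mul_of_nonneg_right h.hκt ht.le
    nlinarith
  linarith

lemma sm (h : Dt G D L β μ X γ κ δ t p0 V ω) {σ : Cf G D L} {x : Site D}
    (hσ : ∀ a, ‖Yf σ x a‖ ≤ δ) (a : Lab D L) :
    Sm κ δ t (σ x a) (vv γ t ω x a) ((t * ω x a) • X) where
  hY := hσ a
  hw := by rw [norm_smul, Real.norm_eq_abs, h.one.nX, mul_one]; exact h.tω x a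
  hv := h.vv_small x a
  hr := by
    refine (h.vv_est x a).trans ?_
    have ht := h.ht
    have htδ := h.htδ
    have hκ := h.one.hκ
    have : t ^ 2 ≤ δ * t := by nlinarith
    nlinarith [mul_le_mul_of_nonneg_left this hκ]

/-- cardinality of the terms -/
lemma NsR (V : Finset (Site D)) : ((Ns V).card : ℝ) ≤ (D + 1) * V.card := by
  exact_mod_cast Ns_card V

lemma clR (V : Finset (Site D)) : ((clA V).card : ℝ) ≤ (D + 1) * ((D + 1) * V.card) := by
  exact_mod_cast clA_card V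

lemma good_pt {σ : Cf G D L} (hσ : σ ∈ Gds G D L δ (clA V)) {x : Site D} (hx : x ∈ Ns V) :
    (∀ a, ‖Yf σ x a‖ ≤ δ) ∧ ∀ i a, ‖Yf σ (x + ev i) a‖ ≤ δ :=
  ⟨hσ x (Ns_clA V hx), fun i => hσ _ (mem_clA.2 (Or.inr ⟨i, x, hx, rfl⟩))⟩

lemma δ0 (h : Dt G D L β μ X γ κ δ t p0 V ω) : 0 ≤ δ := by
  have := h.ht; have := h.htδ; linarith

/-- the constant of the remainder -/
def rho (D L : ℕ) (κ β δ t : ℝ) (n : ℝ) : ℝ :=
  β * ((D + 1) * n * (CB D L * t ^ 2 + CT D L κ * (t * δ ^ 2)))

lemma CT_nonneg {κ : ℝ} (hκ : 0 ≤ κ) : 0 ≤ CT D L κ := by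
  unfold CT; positivity

lemma rho_nonneg (h : Dt G D L β μ X γ κ δ t p0 V ω) : 0 ≤ rho D L κ β δ t V.card := by
  unfold rho
  have h1 := h.hβ
  have h2 := CB_nonneg (D := D) (L := L)
  have h3 := CT_nonneg (D := D) (L := L) h.one.hκ
  have h4 := h.ht
  positivity

/-- Taylor expansion of the exponent -/
lemma X_le (h : Dt G D L β μ X γ κ δ t p0 V ω) {σ : Cf G D L}
    (hσ : σ ∈ Gds G D L δ (clA V)) :
    |XX β V (vv γ t ω) σ - (β * t) * BB X V ω σ| ≤ rho D L κ β δ t V.card := by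
  have ht := h.ht
  have hδ := h.δ0
  have e1 : XX β V (vv γ t ω) σ - (β * t) * BB X V ω σ =
      β * ∑ x ∈ Ns V, ((hx (vv γ t ω * σ) x - hx σ x - (bip (Yf σ) (fun y b => (t * ω y b) • X) x +
        (1 / 2) * bip (fun y b => (t * ω y b) • X) (fun y b => (t * ω y b) • X) x)) +
        (1 / 2) * (t ^ 2 * bx ω ω x)) := by
    unfold XX BB
    have : ∀ x, bip (Yf σ) (fun y b => (t * ω y b) • X) x = t * bx ω (sc X σ) x := by
      intro x
      rw [bip_sc X σ (fun y b => t * ω y b) x]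
      have := bx_smul_left t ω (sc X σ) x
      exact this
    have h2 : ∀ x, bip (fun y b => (t * ω y b) • X) (fun y b => (t * ω y b) • X) x =
        t ^ 2 * bx ω ω x := by
      intro x
      rw [bip_self h.one.nX (fun y b => t * ω y b) x]
      have a1 := bx_smul_left t ω (t • ω) x
      have a2 := bx_smul_right t ω ω x
      have a3 : bx (fun y b => t * ω y b) (fun y b => t * ω y b) x = bx (t • ω) (t • ω) x := rfl
      rw [a3, a1, a2]
      simp only [smul_eq_mul]; ring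
    simp only [this, h2]
    rw [mul_assoc, ← mul_sub, Finset.mul_sum, ← Finset.sum_sub_distrib]
    congr 1
    refine Finset.sum_congr rfl fun x _ => ?_
    ring
  rw [e1, abs_mul, abs_of_nonneg h.hβ]
  unfold rho
  refine mul_le_mul_of_nonneg_left ?_ h.hβ
  have hCT := CT_nonneg (D := D) (L := L) h.one.hκ
  have hCB := CB_nonneg (D := D) (L := L)
  calc _ ≤ ∑ x ∈ Ns V, (CB D L * t ^ 2 + CT D L κ * (t * δ ^ 2)) := by
        refine (Finset.abs_sum_le_sum_abs _ _).trans (Finset.sum_le_sum fun x hx => ?_)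
        obtain ⟨g1, g2⟩ := good_pt hσ hx
        have b1 := taylor_site (D := D) (L := L) h.one.hκ (by linarith [h.htδ] : t ≤ δ) ht.le σ
          (vv γ t ω) (fun y b => (t * ω y b) • X) x (h.sm g1) (fun i => h.sm (g2 i))
        have b2 : |bx ω ω x| ≤ CB D L := by
          have := bx_le (χ := ω) (ψ := ω) (x := x) zero_le_one zero_le_one (h.ω1 x)
            (fun i a => h.ω1 _ a) (h.ω1 x) (fun i a => h.ω1 _ a)
          simpa [CB] using this
        refine (abs_add_le _ _).trans ?_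
        have b3 : |1 / 2 * (t ^ 2 * bx ω ω x)| ≤ CB D L * t ^ 2 := by
          rw [abs_mul, abs_mul, abs_of_pos (by norm_num : (0 : ℝ) < 1 / 2),
            abs_of_nonneg (by positivity : 0 ≤ t ^ 2)]
          have := mul_le_mul_of_nonneg_left b2 (by positivity : 0 ≤ t ^ 2)
          nlinarith [abs_nonneg (bx ω ω x)]
        linarith
    _ = (Ns V).card * (CB D L * t ^ 2 + CT D L κ * (t * δ ^ 2)) := by
        rw [Finset.sum_const, nsmul_eq_mul]
    _ ≤ _ := mul_le_mul_of_nonneg_right (NsR V) (by positivity)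

lemma B_le (h : Dt G D L β μ X γ κ δ t p0 V ω) {σ : Cf G D L}
    (hσ : σ ∈ Gds G D L δ (clA V)) :
    |BB X V ω σ| ≤ (D + 1) * V.card * (CB D L * δ) := by
  have hCB := CB_nonneg (D := D) (L := L)
  have hδ := h.δ0
  unfold BB
  have h1 := Bs_le (V := Ns V) (ω := ω) (φ := sc X σ) (m := δ) (R := 1) hδ zero_le_one h.ω1
    (fun x hx a => (sc_le h.one.nX σ x a).trans ((good_pt hσ hx).1 a))
    (fun x hx i a => (sc_le h.one.nX σ _ a).trans ((good_pt hσ hx).2 i a))
  rw [one_mul] at h1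
  exact h1.trans (mul_le_mul_of_nonneg_right (NsR V) (by positivity))

lemma B_le' (h : Dt G D L β μ X γ κ δ t p0 V ω) (σ : Cf G D L) :
    |BB X V ω σ| ≤ (D + 1) * V.card * (CB D L * (2 * N)) := by
  have hCB := CB_nonneg (D := D) (L := L)
  unfold BB
  have h1 := Bs_le (V := Ns V) (ω := ω) (φ := sc X σ) (m := 2 * N) (R := 1) (by positivity)
    zero_le_one h.ω1
    (fun x hx a => (sc_le h.one.nX σ x a).trans (Yf_le σ x a))
    (fun x hx i a => (sc_le h.one.nX σ _ a).trans (Yf_le σ _ a))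
  rw [one_mul] at h1
  exact h1.trans (mul_le_mul_of_nonneg_right (NsR V) (by positivity))

section

variable [BorelSpace G]

lemma BB_meas (X : Mt N) (V : Finset (Site D)) (ω : SF D L) :
    Measurable (BB (G := G) X V ω) := by
  unfold BB
  exact Finset.measurable_fun_sum _ fun x _ => bx_meas X ω x

lemma XX_meas (β : ℝ) (V : Finset (Site D)) (v : Cf G D L) : Measurable (XX β V v) := by
  unfold XX
  exact (Finset.measurable_fun_sum _ fun x _ =>
    ((hx_meas x).comp (mulv_meas v)).sub (hx_meas x)).const_mul β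

lemma pG (h : Dt G D L β μ X γ κ δ t p0 V ω) :
    μ.real (Gds G D L δ (clA V))ᶜ ≤ (D + 1) * ((D + 1) * V.card) * (D * L) * p0 := by
  have := h.shf.prob
  have hp0 : 0 ≤ p0 ∨ ¬ Nonempty (Lab D L) := by
    by_cases hn : Nonempty (Lab D L)
    · obtain ⟨a⟩ := hn
      exact Or.inl (measureReal_nonneg.trans (h.mb 0 a))
    · exact Or.inr hn
  have hsub : (Gds G D L δ (clA V))ᶜ ⊆
      {σ : Cf G D L | ∃ x ∈ clA V, ∃ a, δ / 2 < ‖Yf σ x a‖} := by
    intro σ hσ
    simp only [Gds, Set.mem_compl_iff, Set.mem_ofPred_eq, not_forall, not_le] at hσ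
    obtain ⟨x, hx, a, hxa⟩ := hσ
    have := h.δ0
    exact ⟨x, hx, a, by linarith⟩
  refine (measureReal_mono hsub).trans ((bad_le h.mb).trans ?_)
  rcases hp0 with hp0 | hn
  · gcongr
    exact clR V
  · have : (D : ℝ) * L = 0 := by
      have h0 : Fintype.card (Lab D L) = 0 := Fintype.card_eq_zero_iff.2 (not_nonempty_iff.1 hn)
      rw [Fintype.card_prod, Fintype.card_fin, Fintype.card_fin] at h0
      exact_mod_cast h0
    rw [this]; simp

lemma pG' (h : Dt G D L β μ X γ κ δ t p0 V ω) :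
    μ.real ({σ : Cf G D L | (vv γ t ω)⁻¹ * σ ∈ Gds G D L δ (clA V)})ᶜ ≤
      (D + 1) * ((D + 1) * V.card) * (D * L) * p0 := by
  have := h.shf.prob
  have hp0 : 0 ≤ p0 ∨ ¬ Nonempty (Lab D L) := by
    by_cases hn : Nonempty (Lab D L)
    · obtain ⟨a⟩ := hn
      exact Or.inl (measureReal_nonneg.trans (h.mb 0 a))
    · exact Or.inr hn
  have hsub : ({σ : Cf G D L | (vv γ t ω)⁻¹ * σ ∈ Gds G D L δ (clA V)})ᶜ ⊆
      {σ : Cf G D L | ∃ x ∈ clA V, ∃ a, δ / 2 < ‖Yf σ x a‖} := by
    intro σ hσ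
    simp only [Gds, Set.mem_compl_iff, Set.mem_ofPred_eq, not_forall, not_le] at hσ
    obtain ⟨x, hx, a, hxa⟩ := hσ
    refine ⟨x, hx, a, ?_⟩
    have e1 : ‖Yf ((vv γ t ω)⁻¹ * σ) x a‖ = ‖mt (σ x a) - mt (vv γ t ω x a)‖ := by
      unfold Yf
      have e2 : mt (σ x a) - mt (vv γ t ω x a) = mt (vv γ t ω x a) *
          (mt (((vv γ t ω)⁻¹ * σ) x a) - 1) := by
        rw [mul_sub, ← mt_mul, mul_one]
        congr 2
        simp
      rw [e2, norm_mt_mul]
    rw [e1] at hxa
    have e3 : mt (σ x a) - mt (vv γ t ω x a) = Yf σ x a - (mt (vv γ t ω x a) - 1) := by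
      unfold Yf; abel
    rw [e3] at hxa
    have e4 := norm_sub_le (Yf σ x a) (mt (vv γ t ω x a) - 1)
    have e5 := h.vv_small x a
    have := h.htδ
    linarith
  refine (measureReal_mono hsub).trans ((bad_le h.mb).trans ?_)
  rcases hp0 with hp0 | hn
  · gcongr
    exact clR V
  · have : (D : ℝ) * L = 0 := by
      have h0 : Fintype.card (Lab D L) = 0 := Fintype.card_eq_zero_iff.2 (not_nonempty_iff.1 hn)
      rw [Fintype.card_prod, Fintype.card_fin, Fintype.card_fin] at h0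
      exact_mod_cast h0
    rw [this]; simp

/-- the bound of the exponent on the good set -/
def xi (D L : ℕ) (κ β δ t : ℝ) (n : ℝ) : ℝ :=
  (β * t) * ((D + 1) * n * (CB D L * δ)) + rho D L κ β δ t n

lemma X_le2 (h : Dt G D L β μ X γ κ δ t p0 V ω) {σ : Cf G D L}
    (hσ : σ ∈ Gds G D L δ (clA V)) :
    |XX β V (vv γ t ω) σ| ≤ xi D L κ β δ t V.card := by
  have h1 := h.X_le hσ
  have h2 := h.B_le hσ
  have hb : 0 ≤ β * t := mul_nonneg h.hβ h.ht.le
  have e : XX β V (vv γ t ω) σ = (β * t) * BB X V ω σ +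
      (XX β V (vv γ t ω) σ - (β * t) * BB X V ω σ) := by ring
  rw [e]
  refine (abs_add_le _ _).trans ?_
  rw [abs_mul, abs_of_nonneg hb]
  unfold xi
  have := mul_le_mul_of_nonneg_left h2 hb
  linarith

/-- **Schwinger-Dyson inequality**, linear observables -/
theorem main (h : Dt G D L β μ X γ κ δ t p0 V ω) {c : SF D L} (hc : ∀ x a, |c x a| ≤ 1)
    (hξ : xi D L κ β δ t V.card ≤ 1) (hp0 : 0 ≤ p0) {n : ℝ} (hn : n = V.card * (D * L)) :
    |(β * t) * ∫ σ, pr V c (sc X σ) * BB X V ω σ ∂μ - t * pr V c ω| ≤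
      ((n * (2 * δ)) * xi D L κ β δ t V.card ^ 2 + n * ((κ + 2) * δ * t) +
        (n * (2 * δ)) * rho D L κ β δ t V.card +
        (β * t) * ((n * (2 * t)) * ((D + 1) * V.card * (CB D L * δ)))) +
      ((D + 1) * ((D + 1) * V.card) * (D * L) * p0) * (2 * (n * (2 * N)) + t * n +
        (β * t) * ((n * (2 * N)) * ((D + 1) * V.card * (CB D L * (2 * N))))) := by
  have := h.shf.prob
  have hδ := h.δ0
  have ht := h.ht
  have hκ := h.one.hκ
  have hn0 : 0 ≤ n := by rw [hn]; positivity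
  have hCB := CB_nonneg (D := D) (L := L)
  have mX := XX_meas β V (vv γ t ω)
  have hid := h.shf.set (V := V) (v := vv γ t ω) (fun x hx => h.vv_out hx)
    (F := fun σ => pr V c (sc X σ)) (pr_meas X V c) (Gds_meas δ (clA V))
  -- difference of the observable
  have hdiff : ∀ σ ∈ Gds G D L δ (clA V), ∀ x ∈ V, ∀ a,
      |sc X (vv γ t ω * σ) x a - sc X σ x a - t * ω x a| ≤ (κ + 2) * δ * t ∧
      |sc X (vv γ t ω * σ) x a - sc X σ x a| ≤ 2 * t := by
    intro σ hσ x hx a
    have hsm := h.sm (σ := σ) (x := x) (hσ x (Ns_clA V (sub_Ns V hx))) a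
    have e1 : sc X (vv γ t ω * σ) x a - sc X σ x a =
        ip X (mt (vv γ t ω x a * σ x a) - mt (σ x a)) := by
      unfold sc Yf
      rw [← ip_sub_right]
      congr 1
      simp only [Pi.mul_apply]; abel
    have hX1 : ip X X = 1 := by rw [ip_self, h.one.nX]; norm_num
    constructor
    · have e2 : sc X (vv γ t ω * σ) x a - sc X σ x a - t * ω x a =
          ip X (mt (vv γ t ω x a * σ x a) - mt (σ x a) - (t * ω x a) • X) := by
        rw [e1, ip_sub_right _ _ ((t * ω x a) • X), ip_smul_right, hX1, mul_one]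
      rw [e2]
      refine (ip_le _ _).trans ?_
      rw [h.one.nX, one_mul]
      exact hsm.rem
    · rw [e1]
      refine (ip_le _ _).trans ?_
      rw [h.one.nX, one_mul]
      exact hsm.diff
  have hpr_sub : ∀ φ ψ : SF D L, pr V c φ - pr V c ψ = pr V c (fun x a => φ x a - ψ x a) := by
    intro φ ψ
    unfold pr
    rw [← Finset.sum_sub_distrib]
    refine Finset.sum_congr rfl fun x _ => ?_
    rw [← Finset.sum_sub_distrib]
    refine Finset.sum_congr rfl fun a _ => ?_
    ring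
  have hpr_t : t * pr V c ω = pr V c (fun x a => t * ω x a) := by
    unfold pr
    rw [Finset.mul_sum]
    refine Finset.sum_congr rfl fun x _ => ?_
    rw [Finset.mul_sum]
    refine Finset.sum_congr rfl fun a _ => ?_
    ring
  have hF : ∀ σ : Cf G D L, |pr V c (sc X σ)| ≤ n * (2 * N) := by
    intro σ
    rw [hn]
    exact pr_le (by positivity) hc fun x _ a => (sc_le h.one.nX σ x a).trans (Yf_le σ x a)
  have hℓ : |pr V c ω| ≤ n := by
    have := pr_le (V := V) (c := c) (φ := ω) zero_le_one hc fun x _ a => h.ω1 x a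
    rw [mul_one] at this
    rw [hn]; exact this
  have core := sd_core (μ := μ) (F := fun σ => pr V c (sc X σ))
    (F' := fun σ => pr V c (sc X (vv γ t ω * σ))) (B := BB X V ω) (X := XX β V (vv γ t ω))
    (Gd := Gds G D L δ (clA V)) (Gd' := {σ : Cf G D L | (vv γ t ω)⁻¹ * σ ∈ Gds G D L δ (clA V)})
    (M := n * (2 * N)) (MB := (D + 1) * V.card * (CB D L * (2 * N))) (m := n * (2 * δ))
    (r1 := n * ((κ + 2) * δ * t)) (r2 := n * (2 * t)) (ρ := rho D L κ β δ t V.card)
    (ξ := xi D L κ β δ t V.card) (bB := (D + 1) * V.card * (CB D L * δ)) (b := β * t) (t := t)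
    (ℓ := pr V c ω) (p := (D + 1) * ((D + 1) * V.card) * (D * L) * p0)
    (Gds_meas δ _) ((mulv_meas _) (Gds_meas δ _)) (pr_meas X V c) (BB_meas X V ω)
    ((pr_meas X V c).comp (mulv_meas _)) mX hid hF h.B_le'
    (fun σ hσ => by
      rw [hn]
      refine pr_le (by positivity) hc fun x hx a => ?_
      have h1 := (hdiff σ hσ x hx a).2
      have h2 := (sc_le h.one.nX σ x a).trans (hσ x (Ns_clA V (sub_Ns V hx)) a)
      have h3 := abs_sub_abs_le_abs_sub (sc X (vv γ t ω * σ) x a) (sc X σ x a)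
      have := h.htδ
      linarith)
    (fun σ hσ => by
      rw [hpr_sub, hpr_t, hpr_sub, hn]
      exact pr_le (by positivity) hc fun x hx a => (hdiff σ hσ x hx a).1)
    (fun σ hσ => by
      rw [hpr_sub, hn]
      exact pr_le (by positivity) hc fun x hx a => (hdiff σ hσ x hx a).2)
    (fun σ hσ => h.X_le hσ) (fun σ hσ => h.X_le2 hσ) hξ (fun σ hσ => h.B_le hσ)
    (mul_nonneg h.hβ ht.le) ht.le (by positivity) (by positivity) (by positivity) (by positivity)
    (by positivity) h.rho_nonneg (by positivity) h.pG h.pG'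
  refine core.trans (add_le_add le_rfl ?_)
  refine mul_le_mul_of_nonneg_left ?_ (by positivity)
  have := mul_le_mul_of_nonneg_left hℓ ht.le
  linarith

/-- **Schwinger-Dyson inequality**, the constant observable -/
theorem main1 (h : Dt G D L β μ X γ κ δ t p0 V ω)
    (hξ : xi D L κ β δ t V.card ≤ 1) (hp0 : 0 ≤ p0) :
    |(β * t) * ∫ σ, BB X V ω σ ∂μ| ≤
      (xi D L κ β δ t V.card ^ 2 + rho D L κ β δ t V.card) +
      ((D + 1) * ((D + 1) * V.card) * (D * L) * p0) * (2 +
        (β * t) * ((D + 1) * V.card * (CB D L * (2 * N)))) := by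
  have := h.shf.prob
  have hδ := h.δ0
  have ht := h.ht
  have hκ := h.one.hκ
  have hCB := CB_nonneg (D := D) (L := L)
  have mX := XX_meas β V (vv γ t ω)
  have hid := h.shf.set (V := V) (v := vv γ t ω) (fun x hx => h.vv_out hx)
    (F := fun _ => (1 : ℝ)) measurable_const (Gds_meas δ (clA V))
  have core := sd_core (μ := μ) (F := fun _ => (1 : ℝ))
    (F' := fun _ => (1 : ℝ)) (B := BB X V ω) (X := XX β V (vv γ t ω))
    (Gd := Gds G D L δ (clA V)) (Gd' := {σ : Cf G D L | (vv γ t ω)⁻¹ * σ ∈ Gds G D L δ (clA V)})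
    (M := 1) (MB := (D + 1) * V.card * (CB D L * (2 * N))) (m := 1)
    (r1 := 0) (r2 := 0) (ρ := rho D L κ β δ t V.card)
    (ξ := xi D L κ β δ t V.card) (bB := (D + 1) * V.card * (CB D L * δ)) (b := β * t) (t := t)
    (ℓ := 0) (p := (D + 1) * ((D + 1) * V.card) * (D * L) * p0)
    (Gds_meas δ _) ((mulv_meas _) (Gds_meas δ _)) measurable_const (BB_meas X V ω)
    measurable_const mX hid (fun _ => by simp) h.B_le'
    (fun _ _ => by simp) (fun _ _ => by simp) (fun _ _ => by simp)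
    (fun σ hσ => h.X_le hσ) (fun σ hσ => h.X_le2 hσ) hξ (fun σ hσ => h.B_le hσ)
    (mul_nonneg h.hβ ht.le) ht.le zero_le_one (by positivity) zero_le_one le_rfl
    le_rfl h.rho_nonneg (by positivity) h.pG h.pG'
  simp only [one_mul, mul_zero, abs_zero, sub_zero, zero_mul, add_zero] at core
  refine core.trans (le_of_eq ?_)
  ring

end

end Dt

end

end Pool.Agent.N109.Slab
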