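import Pool.Agent.N109.Slab.Lim

/-!
# The test function
-/

set_option autoImplicit false
set_option linter.unusedSectionVars false
set_option linter.unusedVariables false
set_option linter.style.haveILetI false

open MeasureTheory Matrix Finset Filter
open scoped Matrix.Norms.Frobenius ENNReal

namespace Pool.Agent.N109.Slab

open Pool.Agent.N990

noncomputable section

variable {D L : ℕ}

/-- the angle -/
def th (L : ℕ) : ℝ := Real.pi / (2 * L + 1)

/-- the lowest vertical mode -/
def u0 (s : Fin L) : ℝ := Real.sin (((s : ℕ) + 1) * th L)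

lemma u0_le (s : Fin L) : |u0 s| ≤ 1 := Real.abs_sin_le_one _

lemma u0_pos (s : Fin L) : 0 < u0 s := by
  have h := sin_pos' (L := L) (s := (s : ℕ) + 1) (by omega) (by omega)
  unfold u0 th
  push_cast at h
  exact h

lemma lam0_eq (L : ℕ) : lam0 L = 2 - 2 * Real.cos (th L) := rfl

/-- the field which depends only on one coordinate -/
def wf (i0 i1 : Fin D) (h : ℤ → ℝ) : SF D L := fun x a =>
  if a.1 = i1 then h (x i0) * u0 a.2 else 0

/-- vertical part: summation by parts with the lowest mode -/
lemma vert_sum (L : ℕ) (g : Fin L → ℝ) :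
    ∑ s : Fin L, (u0 s - if h : (s : ℕ) = 0 then 0 else u0 (⟨(s : ℕ) - 1, by omega⟩ : Fin L)) *
      (g s - if h : (s : ℕ) = 0 then 0 else g ⟨(s : ℕ) - 1, by omega⟩) =
    lam0 L * ∑ s, u0 s * g s := by
  -- pass to sequences
  set U : ℕ → ℝ := fun n => Real.sin (n * th L) with hU
  set V : ℕ → ℝ := fun n => if h : 1 ≤ n ∧ n ≤ L then g ⟨n - 1, by omega⟩ else 0 with hV
  have hV0 : V 0 = 0 := by rw [hV]; simp
  have hU0 : U 0 = 0 := by rw [hU]; simp
  have e1 : ∀ s : Fin L, (u0 s - if h : (s : ℕ) = 0 then 0 else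
      u0 (⟨(s : ℕ) - 1, by omega⟩ : Fin L)) = U (s + 1) - U s := by
    intro s
    have a1 : u0 s = U (s + 1) := by rw [hU]; unfold u0; push_cast; rfl
    rw [a1]
    congr 1
    by_cases hs : (s : ℕ) = 0
    · rw [dif_pos hs, hs, hU0]
    · rw [dif_neg hs]
      rw [hU]; unfold u0
      simp only
      congr 2
      have : 1 ≤ (s : ℕ) := Nat.one_le_iff_ne_zero.2 hs
      push_cast [this]; ring
  have e2 : ∀ s : Fin L, (g s - if h : (s : ℕ) = 0 then 0 else g ⟨(s : ℕ) - 1, by omega⟩) =
      V (s + 1) - V s := by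
    intro s
    have a1 : V (s + 1) = g s := by
      rw [hV]; simp only
      rw [dif_pos ⟨by omega, by omega⟩]
      rfl
    rw [a1]
    congr 1
    by_cases hs : (s : ℕ) = 0
    · rw [dif_pos hs, hs, hV0]
    · rw [dif_neg hs, hV]; simp only
      rw [dif_pos ⟨by omega, by omega⟩]
  have e3 : ∀ s : Fin L, u0 s * g s = U (s + 1) * V (s + 1) := by
    intro s
    have a1 : u0 s = U (s + 1) := by rw [hU]; unfold u0; push_cast; rfl
    have a2 : V (s + 1) = g s := by
      rw [hV]; simp only
      rw [dif_pos ⟨by omega, by omega⟩]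
      rfl
    rw [a1, a2]
  simp only [e1, e2, e3]
  rw [← Finset.sum_range (fun s => (U (s + 1) - U s) * (V (s + 1) - V s)),
    ← Finset.sum_range (fun s => U (s + 1) * V (s + 1))]
  -- recursion
  have hrec : ∀ n, U (n + 2) = 2 * Real.cos (th L) * U (n + 1) - U n := by
    intro n
    rw [hU]; simp only
    have a1 : ((n + 2 : ℕ) : ℝ) * th L = ((n + 1 : ℕ) : ℝ) * th L + th L := by push_cast; ring
    have a2 : (n : ℝ) * th L = ((n + 1 : ℕ) : ℝ) * th L - th L := by push_cast; ring
    rw [a1, a2, Real.sin_add, Real.sin_sub]; ring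
  have key : ∀ n, n ≤ L → ∑ s ∈ Finset.range n, (U (s + 1) - U s) * (V (s + 1) - V s) =
      lam0 L * ∑ s ∈ Finset.range n, U (s + 1) * V (s + 1) + (U (n + 1) - U n) * V n := by
    intro n
    induction n with
    | zero => intro _; simp [hV0]
    | succ n ih =>
      intro hn
      rw [Finset.sum_range_succ, Finset.sum_range_succ, ih (by omega), lam0_eq]
      have := hrec n
      rw [show n + 1 + 1 = n + 2 from rfl, this]
      ring
  rw [key L le_rfl]
  have hend : U (L + 1) = U L := by
    rw [hU]; simp only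
    have a1 : ((L + 1 : ℕ) : ℝ) * th L = Real.pi - (L : ℝ) * th L := by
      unfold th
      have : (2 * (L : ℝ) + 1) ≠ 0 := by positivity
      field_simp
      push_cast; ring
    rw [a1, Real.sin_pi_sub]
  rw [hend]; ring

/-- the energy density of the special field against an arbitrary field -/
lemma bx_wf {i0 i1 : Fin D} (h01 : i0 ≠ i1) (h : ℤ → ℝ) (φ : SF D L) (x : Site D) :
    bx (wf i0 i1 h) φ x = lam0 L * h (x i0) * ∑ s, u0 s * φ x (i1, s) +
      (h (x i0 + 1) - h (x i0)) * (∑ s, u0 s * φ (x + ev i0) (i1, s) - ∑ s, u0 s * φ x (i1, s)) -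
      (h (x i0 + 1) - h (x i0)) * (∑ s, u0 s * φ (x + ev i1) (i0, s) -
        ∑ s, u0 s * φ x (i0, s)) := by
  classical
  unfold bx
  have hv : ∑ a, dv (wf i0 i1 h) x a • dv φ x a = lam0 L * h (x i0) * ∑ s, u0 s * φ x (i1, s) := by
    rw [Fintype.sum_prod_type, Finset.sum_eq_single i1]
    · have e : ∀ s : Fin L, dv (wf i0 i1 h) x (i1, s) • dv φ x (i1, s) =
          h (x i0) * ((u0 s - if h : (s : ℕ) = 0 then 0 else
            u0 (⟨(s : ℕ) - 1, by omega⟩ : Fin L)) *
          (φ x (i1, s) - if h : (s : ℕ) = 0 then 0 else φ x (i1, ⟨(s : ℕ) - 1, by omega⟩))) := by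
        intro s
        unfold dv wf low
        simp only [if_true, smul_eq_mul]
        split_ifs with hs
        · ring
        · ring
      simp only [e]
      rw [← Finset.mul_sum, vert_sum L (fun s => φ x (i1, s))]
      ring
    · intro i _ hi
      refine Finset.sum_eq_zero fun s _ => ?_
      have : dv (wf (L := L) i0 i1 h) x (i, s) = 0 := by
        unfold dv wf low
        simp [hi]
      rw [this, zero_smul]
    · intro h'; exact absurd (Finset.mem_univ _) h'
  -- plaquettes
  have ev0 : ∀ i : Fin D, i ≠ i0 → (x + ev i) i0 = x i0 := by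
    intro i hi
    rw [Pi.add_apply, ev_ne (Ne.symm hi), add_zero]
  have ev00 : (x + ev i0) i0 = x i0 + 1 := by rw [Pi.add_apply, ev_same]
  have hw : ∀ p : (Fin D × Fin D) × Fin L, p.1.1 ≠ p.1.2 → dp (wf (L := L) i0 i1 h) x p =
      if p.1 = (i0, i1) then (h (x i0 + 1) - h (x i0)) * u0 p.2 else
      if p.1 = (i1, i0) then -((h (x i0 + 1) - h (x i0)) * u0 p.2) else 0 := by
    rintro ⟨⟨i, j⟩, s⟩ hij
    simp only at hij
    unfold dp wf
    simp only [Prod.mk.injEq]
    by_cases hj : j = i1
    · subst hj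
      rw [if_neg hij, if_neg hij, if_pos rfl, if_pos rfl]
      by_cases hi : i = i0
      · subst hi
        rw [if_pos ⟨rfl, rfl⟩, ev00]; ring
      · rw [if_neg (fun h' => hi h'.1), if_neg (fun h' => hij h'.1), ev0 i hi]; ring
    · by_cases hi : i = i1
      · subst hi
        rw [if_pos rfl, if_pos rfl, if_neg hj, if_neg hj]
        by_cases hj0 : j = i0
        · subst hj0
          rw [if_neg (fun h' => hj h'.2), if_pos ⟨rfl, rfl⟩, ev00]; ring
        · rw [if_neg (fun h' => hj h'.2), if_neg (fun h' => hj0 h'.2), ev0 j hj0]; ring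
      · rw [if_neg hi, if_neg hi, if_neg hj, if_neg hj, if_neg (fun h' => hj h'.2),
          if_neg (fun h' => hi h'.1)]
        ring
  have hp : ∑ p ∈ plabs D L, dp (wf i0 i1 h) x p • dp φ x p =
      ∑ s : Fin L, (h (x i0 + 1) - h (x i0)) * u0 s *
        (φ x (i0, s) + φ (x + ev i0) (i1, s) - φ x (i1, s) - φ (x + ev i1) (i0, s)) := by
    -- sum over the labels with the pair {i0, i1}
    have hlt : ∀ p ∈ plabs D L, p.1.1 < p.1.2 := by
      intro p hp; unfold plabs at hp; simpa using hp
    rcases lt_or_gt_of_ne h01 with hlt01 | hlt01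
    · have h1 : ∀ p ∈ plabs D L, dp (wf (L := L) i0 i1 h) x p • dp φ x p =
          if p.1 = (i0, i1) then (h (x i0 + 1) - h (x i0)) * u0 p.2 * dp φ x ((i0, i1), p.2)
          else 0 := by
        intro p hp
        rw [hw p (hlt p hp).ne]
        by_cases h3 : p.1 = (i0, i1)
        · rw [if_pos h3, if_pos h3, ← h3, smul_eq_mul]
        · rw [if_neg h3, if_neg h3, if_neg, zero_smul]
          intro h4
          have := hlt p hp
          rw [h4] at this
          exact absurd this (not_lt.2 hlt01.le)
      rw [Finset.sum_congr rfl h1]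
      have h2 : ∑ p ∈ plabs D L, (if p.1 = (i0, i1) then
          (h (x i0 + 1) - h (x i0)) * u0 p.2 * dp φ x ((i0, i1), p.2) else 0) =
          ∑ p : (Fin D × Fin D) × Fin L, if p.1 = (i0, i1) then
          (h (x i0 + 1) - h (x i0)) * u0 p.2 * dp φ x ((i0, i1), p.2) else 0 := by
        refine Finset.sum_subset (Finset.subset_univ _) fun p _ hp => ?_
        rw [if_neg]
        intro h4
        apply hp
        unfold plabs
        rw [Finset.mem_filter]
        exact ⟨Finset.mem_univ _, by rw [h4]; exact hlt01⟩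
      rw [h2, Fintype.sum_prod_type, Finset.sum_eq_single (i0, i1)]
      · refine Finset.sum_congr rfl fun s _ => ?_
        simp only [if_true]
        rfl
      · intro q _ hq
        refine Finset.sum_eq_zero fun s _ => ?_
        simp only [if_neg hq]
      · intro h'; exact absurd (Finset.mem_univ _) h'
    · have h1 : ∀ p ∈ plabs D L, dp (wf (L := L) i0 i1 h) x p • dp φ x p =
          if p.1 = (i1, i0) then -((h (x i0 + 1) - h (x i0)) * u0 p.2 * dp φ x ((i1, i0), p.2))
          else 0 := by
        intro p hp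
        rw [hw p (hlt p hp).ne]
        by_cases h3 : p.1 = (i1, i0)
        · have h4 : p.1 ≠ (i0, i1) := by
            rw [h3]; intro h5
            exact h01 (Prod.mk.inj h5).2
          rw [if_neg h4, if_pos h3, if_pos h3, ← h3, smul_eq_mul]; ring
        · rw [if_neg h3, if_neg h3, if_neg, zero_smul]
          intro h4
          have := hlt p hp
          rw [h4] at this
          exact absurd this (not_lt.2 hlt01.le)
      rw [Finset.sum_congr rfl h1]
      have h2 : ∑ p ∈ plabs D L, (if p.1 = (i1, i0) then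
          -((h (x i0 + 1) - h (x i0)) * u0 p.2 * dp φ x ((i1, i0), p.2)) else 0) =
          ∑ p : (Fin D × Fin D) × Fin L, if p.1 = (i1, i0) then
          -((h (x i0 + 1) - h (x i0)) * u0 p.2 * dp φ x ((i1, i0), p.2)) else 0 := by
        refine Finset.sum_subset (Finset.subset_univ _) fun p _ hp => ?_
        rw [if_neg]
        intro h4
        apply hp
        unfold plabs
        rw [Finset.mem_filter]
        exact ⟨Finset.mem_univ _, by rw [h4]; exact hlt01⟩
      rw [h2, Fintype.sum_prod_type, Finset.sum_eq_single (i1, i0)]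
      · refine Finset.sum_congr rfl fun s _ => ?_
        simp only [if_true]
        unfold dp
        ring
      · intro q _ hq
        refine Finset.sum_eq_zero fun s _ => ?_
        simp only [if_neg hq]
      · intro h'; exact absurd (Finset.mem_univ _) h'
  rw [hv, hp]
  have e4 : ∑ s : Fin L, (h (x i0 + 1) - h (x i0)) * u0 s *
        (φ x (i0, s) + φ (x + ev i0) (i1, s) - φ x (i1, s) - φ (x + ev i1) (i0, s)) =
      (h (x i0 + 1) - h (x i0)) * (∑ s, u0 s * φ (x + ev i0) (i1, s) -
        ∑ s, u0 s * φ x (i1, s)) -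
      (h (x i0 + 1) - h (x i0)) * (∑ s, u0 s * φ (x + ev i1) (i0, s) -
        ∑ s, u0 s * φ x (i0, s)) := by
    rw [← Finset.sum_sub_distrib, ← Finset.sum_sub_distrib, Finset.mul_sum, Finset.mul_sum,
      ← Finset.sum_sub_distrib]
    refine Finset.sum_congr rfl fun s _ => ?_
    ring
  rw [e4]; ring

end

end Pool.Agent.N109.Slab
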