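import Pool.Agent.N109.Slab.Test

/-!
# The test function: cut-off and error
-/

set_option autoImplicit false
set_option linter.unusedSectionVars false
set_option linter.unusedVariables false
set_option linter.style.haveILetI false

open MeasureTheory Matrix Finset Filter
open scoped Matrix.Norms.Frobenius ENNReal

namespace Pool.Agent.N109.Slab

open Pool.Agent.N990

noncomputable section

variable {D L : ℕ}

lemma sum_u0_dl (y : Site D) (b : Lab D L) (i : Fin D) (x : Site D) :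
    ∑ s, u0 s * dl y b x (i, s) = if x = y then (if b.1 = i then u0 b.2 else 0) else 0 := by
  classical
  unfold dl
  by_cases hx : x = y
  · rw [if_pos hx]
    by_cases hb : b.1 = i
    · rw [if_pos hb, Finset.sum_eq_single b.2]
      · rw [if_pos ⟨hx, by rw [← hb]⟩, mul_one]
      · intro s _ hs
        rw [if_neg, mul_zero]
        rintro ⟨_, h⟩
        exact hs (by rw [← h])
      · intro h; exact absurd (Finset.mem_univ _) h
    · rw [if_neg hb]
      refine Finset.sum_eq_zero fun s _ => ?_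
      rw [if_neg, mul_zero]
      rintro ⟨_, h⟩
      exact hb (by rw [← h])
  · rw [if_neg hx]
    refine Finset.sum_eq_zero fun s _ => ?_
    rw [if_neg (fun h => hx h.1), mul_zero]

/-- the operator applied to the special field -/
lemma Aw_inf {i0 i1 : Fin D} (h01 : i0 ≠ i1) (h : ℤ → ℝ) (y : Site D) (b : Lab D L)
    {V : Finset (Site D)} (h1 : y ∈ V) (h2 : y - ev i0 ∈ V) (h3 : y - ev i1 ∈ V) :
    ∑ x ∈ V, bx (wf i0 i1 h) (dl y b) x = (if b.1 = i1 then u0 b.2 else 0) *
      (lam0 L * h (y i0) + (h (y i0) - h (y i0 - 1)) - (h (y i0 + 1) - h (y i0))) := by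
  classical
  simp only [bx_wf h01, sum_u0_dl]
  set p1 : ℝ := if b.1 = i1 then u0 b.2 else 0 with hp1
  set p0 : ℝ := if b.1 = i0 then u0 b.2 else 0 with hp0
  have e : ∀ x : Site D, lam0 L * h (x i0) * (if x = y then p1 else 0) +
      (h (x i0 + 1) - h (x i0)) * ((if x + ev i0 = y then p1 else 0) - if x = y then p1 else 0) -
      (h (x i0 + 1) - h (x i0)) * ((if x + ev i1 = y then p0 else 0) - if x = y then p0 else 0) =
      (if x = y then (lam0 L * h (y i0) * p1 - (h (y i0 + 1) - h (y i0)) * p1 +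
        (h (y i0 + 1) - h (y i0)) * p0) else 0) +
      (if x = y - ev i0 then (h (y i0) - h (y i0 - 1)) * p1 else 0) -
      (if x = y - ev i1 then (h (y i0 + 1) - h (y i0)) * p0 else 0) := by
    intro x
    have a1 : (if x = y then (lam0 L * h (y i0) * p1 - (h (y i0 + 1) - h (y i0)) * p1 +
        (h (y i0 + 1) - h (y i0)) * p0) else 0) = lam0 L * h (x i0) * (if x = y then p1 else 0) -
        (h (x i0 + 1) - h (x i0)) * (if x = y then p1 else 0) +
        (h (x i0 + 1) - h (x i0)) * (if x = y then p0 else 0) := by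
      by_cases hx : x = y
      · rw [if_pos hx, if_pos hx, if_pos hx, hx]
      · rw [if_neg hx, if_neg hx, if_neg hx]; ring
    have a2 : (if x = y - ev i0 then (h (y i0) - h (y i0 - 1)) * p1 else 0) =
        (h (x i0 + 1) - h (x i0)) * (if x + ev i0 = y then p1 else 0) := by
      by_cases hx : x + ev i0 = y
      · have hx' : x = y - ev i0 := by rw [← hx]; abel
        have c1 : y i0 = x i0 + 1 := by rw [← hx, Pi.add_apply, ev_same]
        rw [if_pos hx', if_pos hx, c1]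
        congr 3; ring
      · rw [if_neg hx, if_neg, mul_zero]
        intro h'; apply hx; rw [h']; abel
    have a3 : (if x = y - ev i1 then (h (y i0 + 1) - h (y i0)) * p0 else 0) =
        (h (x i0 + 1) - h (x i0)) * (if x + ev i1 = y then p0 else 0) := by
      by_cases hx : x + ev i1 = y
      · have hx' : x = y - ev i1 := by rw [← hx]; abel
        have c1 : y i0 = x i0 := by rw [← hx, Pi.add_apply, ev_ne h01, add_zero]
        rw [if_pos hx', if_pos hx, c1]
      · rw [if_neg hx, if_neg, mul_zero]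
        intro h'; apply hx; rw [h']; abel
    rw [a1, a2, a3]; ring
  rw [Finset.sum_congr rfl fun x _ => e x, Finset.sum_sub_distrib, Finset.sum_add_distrib,
    Finset.sum_ite_eq' V y, Finset.sum_ite_eq' V (y - ev i0), Finset.sum_ite_eq' V (y - ev i1),
    if_pos h1, if_pos h2, if_pos h3]
  ring

/-- the exponential profile -/
def hh (m : ℝ) (k : ℤ) : ℝ := Real.exp (-(m * |(k : ℝ)|))

lemma hh_pos (m : ℝ) (k : ℤ) : 0 < hh m k := Real.exp_pos _

lemma hh_le {m : ℝ} (hm : 0 ≤ m) (k : ℤ) : hh m k ≤ 1 := by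
  unfold hh
  apply Real.exp_le_one_iff.2
  have := mul_nonneg hm (abs_nonneg (k : ℝ))
  linarith

lemma hh_rec {m : ℝ} {lam : ℝ} (hm : 2 * Real.cosh m - 2 = lam) (k : ℤ) :
    lam * hh m k + (hh m k - hh m (k - 1)) - (hh m (k + 1) - hh m k) =
      if k = 0 then 2 * Real.sinh m else 0 := by
  have hc : Real.cosh m = (Real.exp m + Real.exp (-m)) / 2 := Real.cosh_eq m
  have hs : Real.sinh m = (Real.exp m - Real.exp (-m)) / 2 := Real.sinh_eq m
  rcases lt_trichotomy k 0 with h | h | h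
  · rw [if_neg h.ne]
    unfold hh
    have h1 : |((k : ℤ) : ℝ)| = -(k : ℝ) := abs_of_neg (by exact_mod_cast h)
    have h2 : |((k - 1 : ℤ) : ℝ)| = -(k : ℝ) + 1 := by
      rw [abs_of_neg (by exact_mod_cast (by omega : k - 1 < 0))]; push_cast; ring
    have h3 : |((k + 1 : ℤ) : ℝ)| = -(k : ℝ) - 1 := by
      rw [abs_of_nonpos (by exact_mod_cast (by omega : k + 1 ≤ 0))]; push_cast; ring
    rw [h1, h2, h3]
    have e1 : Real.exp (-(m * (-(k : ℝ) + 1))) = Real.exp (-(m * -(k : ℝ))) * Real.exp (-m) := by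
      rw [← Real.exp_add]; congr 1; ring
    have e2 : Real.exp (-(m * (-(k : ℝ) - 1))) = Real.exp (-(m * -(k : ℝ))) * Real.exp m := by
      rw [← Real.exp_add]; congr 1; ring
    rw [e1, e2, ← hm, hc]; ring
  · subst h
    rw [if_pos rfl]
    unfold hh
    have e1 : Real.exp (-(m * |((0 - 1 : ℤ) : ℝ)|)) = Real.exp (-m) := by norm_num
    have e2 : Real.exp (-(m * |((0 + 1 : ℤ) : ℝ)|)) = Real.exp (-m) := by norm_num
    have e3 : Real.exp (-(m * |((0 : ℤ) : ℝ)|)) = 1 := by norm_num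
    rw [e1, e2, e3, ← hm, hc, hs]; ring
  · rw [if_neg h.ne']
    unfold hh
    have h1 : |((k : ℤ) : ℝ)| = (k : ℝ) := abs_of_pos (by exact_mod_cast h)
    have h2 : |((k - 1 : ℤ) : ℝ)| = (k : ℝ) - 1 := by
      rw [abs_of_nonneg (by exact_mod_cast (by omega : 0 ≤ k - 1))]; push_cast; ring
    have h3 : |((k + 1 : ℤ) : ℝ)| = (k : ℝ) + 1 := by
      rw [abs_of_pos (by exact_mod_cast (by omega : 0 < k + 1))]; push_cast; ring
    rw [h1, h2, h3]
    have e1 : Real.exp (-(m * ((k : ℝ) + 1))) = Real.exp (-(m * (k : ℝ))) * Real.exp (-m) := by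
      rw [← Real.exp_add]; congr 1; ring
    have e2 : Real.exp (-(m * ((k : ℝ) - 1))) = Real.exp (-(m * (k : ℝ))) * Real.exp m := by
      rw [← Real.exp_add]; congr 1; ring
    rw [e1, e2, ← hm, hc]; ring

/-- the cut-off field -/
def wR (i0 i1 : Fin D) (m : ℝ) (R : ℕ) : SF D L := fun x a =>
  if x ∈ box D R then wf i0 i1 (hh m) x a else 0

/-- the observable at the distance `k` of the hyperplane -/
def fR (i0 i1 : Fin D) (R : ℕ) (k : ℤ) : SF D L := fun x a =>
  if x ∈ box D R ∧ x i0 = k ∧ a.1 = i1 then u0 a.2 else 0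

/-- the error -/
def rR (i0 i1 : Fin D) (m : ℝ) (R : ℕ) : SF D L := fun y b =>
  Bf (box D R) (wR i0 i1 m R) (dl y b) - 2 * Real.sinh m * fR i0 i1 R 0 y b

lemma wR_le {i0 i1 : Fin D} {m : ℝ} (hm : 0 ≤ m) (R : ℕ) (x : Site D) (a : Lab D L) :
    |wR i0 i1 m R x a| ≤ hh m (x i0) := by
  unfold wR wf
  split_ifs
  · rw [abs_mul, abs_of_pos (hh_pos m _)]
    have := u0_le a.2
    have := hh_pos m (x i0)
    nlinarith
  · simpa using (hh_pos m _).le
  · simpa using (hh_pos m _).le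

lemma dd_ev_le (x : Site D) (i : Fin D) : dd (x + ev i) x ≤ 1 := by
  rw [dd_le]
  intro j
  rw [Pi.add_apply, add_sub_cancel_left]
  by_cases h : j = i
  · subst h; rw [ev_same]; simp
  · rw [ev_ne h]; simp

lemma dd_comm (x y : Site D) : dd x y = dd y x := by
  unfold dd
  congr 1
  funext i
  rw [← Int.natAbs_neg]; congr 1; ring

/-- a neighbour of a point of the smaller box is in the larger box -/
lemma box_nb {R : ℕ} {x y : Site D} (hy : y ∈ box D R) (h : dd x y ≤ 1) : x ∈ box D (R + 1) := by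
  rw [mem_box] at hy ⊢
  intro i
  have h1 := hy i
  have h2 := abs_le.1 (dd_le.1 h i)
  push_cast at h2 ⊢
  constructor <;> linarith [h1.1, h1.2, h2.1, h2.2]

/-- inside the box -/
lemma rR_in {i0 i1 : Fin D} (h01 : i0 ≠ i1) {m : ℝ} (hm : 2 * Real.cosh m - 2 = lam0 L) {R : ℕ}
    {y : Site D} (hy : y ∈ box D R) (b : Lab D L) : rR (L := L) i0 i1 m (R + 1) y b = 0 := by
  classical
  unfold rR
  have hyR : y ∈ box D (R + 1) := box_mono (Nat.le_succ R) hy
  have e1 : Bf (box D (R + 1)) (wR i0 i1 m (R + 1)) (dl y b) =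
      ∑ x ∈ Ns (box D (R + 1)), bx (wf i0 i1 (hh m)) (dl y b) x := by
    rw [Bf_apply]
    refine Finset.sum_congr rfl fun x hx => ?_
    by_cases hxy : dd x y ≤ 1 ∧ ∀ i, dd (x + ev i) y ≤ 1
    · rw [bx_comm, bx_comm (wf i0 i1 (hh m))]
      refine bx_congr ?_ fun i => ?_
      · funext a; unfold wR; rw [if_pos (box_nb hy hxy.1)]
      · funext a; unfold wR; rw [if_pos (box_nb hy (hxy.2 i))]
    · have h1 : x ≠ y := by
        rintro rfl
        exact hxy ⟨by rw [dd_le]; intro i; simp, fun i => dd_ev_le x i⟩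
      have h2 : ∀ i, x + ev i ≠ y := by
        rintro i rfl
        refine hxy ⟨by rw [dd_comm]; exact dd_ev_le x i, fun j => ?_⟩
        rw [dd_le]
        intro k
        simp only [Pi.add_apply, add_sub_add_left_eq_sub]
        by_cases hj : k = j
        · subst hj
          rw [ev_same]
          by_cases hi : k = i
          · subst hi; rw [ev_same]; simp
          · rw [ev_ne hi]; simp
        · rw [ev_ne hj]
          by_cases hi : k = i
          · subst hi; rw [ev_same]; simp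
          · rw [ev_ne hi]; simp
      rw [bx_zero' (dl_ne h1) fun i => dl_ne (h2 i), bx_zero' (dl_ne h1) fun i => dl_ne (h2 i)]
  have hm1 : ∀ i : Fin D, y - ev i ∈ Ns (box D (R + 1)) := fun i =>
    mem_Ns.2 (Or.inr ⟨i, by rw [sub_add_cancel]; exact hyR⟩)
  rw [e1, Aw_inf h01 (hh m) y b (sub_Ns _ hyR) (hm1 i0) (hm1 i1), hh_rec hm]
  unfold fR
  by_cases hb : b.1 = i1
  · rw [if_pos hb]
    by_cases hy0 : y i0 = 0
    · rw [if_pos hy0, if_pos ⟨hyR, hy0, hb⟩]; ring
    · rw [if_neg hy0, if_neg (fun h => hy0 h.2.1)]; ring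
  · have hf : ¬(y ∈ box D (R + 1) ∧ y i0 = 0 ∧ b.1 = i1) := fun h => hb h.2.2
    rw [if_neg hb, if_neg hf]; ring

lemma hh_nb {m : ℝ} (hm : 0 ≤ m) {x y : Site D} (h : dd x y ≤ 1) (i : Fin D) :
    hh m (x i) ≤ Real.exp m * hh m (y i) := by
  unfold hh
  rw [← Real.exp_add]
  apply Real.exp_le_exp.2
  have h1 := dd_le.1 h i
  have h2 : |(x i : ℝ) - y i| ≤ 1 := by exact_mod_cast h1
  have h3 := abs_sub_abs_le_abs_sub (y i : ℝ) (x i)
  rw [abs_sub_comm] at h3
  nlinarith

/-- the constant of the error -/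
def C3 (D L : ℕ) (m : ℝ) : ℝ :=
  ((D + 1) * (4 * (D * L) + 16 * (D * D * L))) * Real.exp m + 2 * Real.sinh m

lemma rR_le {i0 i1 : Fin D} {m : ℝ} (hm : 0 ≤ m) (R : ℕ) (y : Site D) (b : Lab D L) :
    |rR (L := L) i0 i1 m R y b| ≤ C3 D L m * hh m (y i0) := by
  unfold rR C3
  refine (abs_sub _ _).trans ?_
  have hs : 0 ≤ Real.sinh m := Real.sinh_nonneg_iff.2 hm
  have h1 := Bf_dl_le (box D R) y b (wR (L := L) i0 i1 m R) (M := Real.exp m * hh m (y i0))
    (by have := hh_pos m (y i0); positivity)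
    (fun x hx a => (wR_le hm R x a).trans (hh_nb hm hx i0))
  have h2 : |2 * Real.sinh m * fR i0 i1 R 0 y b| ≤ 2 * Real.sinh m * hh m (y i0) := by
    rw [abs_mul, abs_of_nonneg (by positivity : 0 ≤ 2 * Real.sinh m)]
    refine mul_le_mul_of_nonneg_left ?_ (by positivity)
    unfold fR
    split_ifs with h
    · rw [h.2.1]
      unfold hh
      simpa using u0_le b.2
    · simpa using (hh_pos m _).le
  calc _ ≤ ((D + 1) * (4 * (D * L) + 16 * (D * D * L))) * (Real.exp m * hh m (y i0)) +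
        2 * Real.sinh m * hh m (y i0) := add_le_add h1 h2
    _ = _ := by ring

/-- outside the box -/
lemma rR_out {i0 i1 : Fin D} {m : ℝ} {R : ℕ} {y : Site D} (hy : y ∉ box D (R + 1)) (b : Lab D L) :
    rR (L := L) i0 i1 m R y b = 0 := by
  unfold rR
  have h1 := Bf_dl_le (box D R) y b (wR (L := L) i0 i1 m R) (M := 0) le_rfl
    (fun x hx a => by
      have hxR : x ∉ box D R := fun h => hy (box_nb h (by rw [dd_comm]; exact hx))
      unfold wR
      rw [if_neg hxR, abs_zero])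
  rw [mul_zero] at h1
  have h2 := abs_nonpos_iff.1 h1
  have h3 : fR (L := L) i0 i1 R 0 y b = 0 := by
    unfold fR
    rw [if_neg]
    exact fun h => hy (box_mono (Nat.le_succ R) h.1)
  rw [h2, h3]; ring

/-- the sum of the squares of the profile over a box -/
def SR (D : ℕ) (i0 : Fin D) (m : ℝ) (R : ℕ) : ℝ := ∑ y ∈ box D R, hh m (y i0) ^ 2

/-- the one dimensional sum -/
def T1 (m : ℝ) (R : ℕ) : ℝ := ∑ k ∈ Finset.Icc (-(R : ℤ)) R, hh m k ^ 2

lemma box_sum (i0 : Fin D) (g : ℤ → ℝ) (R : ℕ) :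
    (2 * (R : ℝ) + 1) * ∑ y ∈ box D R, g (y i0) =
      (∑ k ∈ Finset.Icc (-(R : ℤ)) R, g k) * (2 * (R : ℝ) + 1) ^ D := by
  classical
  have h1 : ∑ y ∈ box D R, g (y i0) =
      ∑ y ∈ box D R, ∏ i, (if i = i0 then g (y i) else 1) := by
    refine Finset.sum_congr rfl fun y _ => ?_
    rw [Finset.prod_ite_eq' Finset.univ i0 (fun i => g (y i))]
    simp
  rw [h1]
  unfold box
  rw [← Finset.prod_univ_sum (fun _ : Fin D => Finset.Icc (-(R : ℤ)) R)
    (fun i k => if i = i0 then g k else 1)]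
  rw [← Finset.mul_prod_erase Finset.univ _ (Finset.mem_univ i0)]
  have h2 : ∀ i ∈ Finset.univ.erase i0, (∑ k ∈ Finset.Icc (-(R : ℤ)) R,
      (if i = i0 then g k else (1 : ℝ))) = 2 * (R : ℝ) + 1 := by
    intro i hi
    simp only [if_neg (Finset.ne_of_mem_erase hi)]
    rw [Finset.sum_const, Int.card_Icc, nsmul_eq_mul, mul_one]
    have : ((R : ℤ) + 1 - -(R : ℤ)).toNat = 2 * R + 1 := by omega
    rw [this]; push_cast; ring
  rw [Finset.prod_congr rfl h2, Finset.prod_const, Finset.card_erase_of_mem (Finset.mem_univ _),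
    Finset.card_univ, Fintype.card_fin]
  simp only [if_true]
  have hD : 1 ≤ D := by have := i0.2; omega
  obtain ⟨n, rfl⟩ : ∃ n, D = n + 1 := ⟨D - 1, by omega⟩
  rw [Nat.add_sub_cancel, pow_succ]; ring

lemma fR_nsq {i0 i1 : Fin D} {R R' : ℕ} (hR : R ≤ R') {k : ℤ} (hk : -(R : ℤ) ≤ k ∧ k ≤ R) :
    (2 * (R : ℝ) + 1) * nsq (L := L) (box D R') (fR i0 i1 R k) =
      (∑ s : Fin L, u0 s ^ 2) * (2 * (R : ℝ) + 1) ^ D := by
  classical
  have h1 : nsq (L := L) (box D R') (fR i0 i1 R k) =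
      ∑ y ∈ box D R, (if y i0 = k then ∑ s : Fin L, u0 s ^ 2 else 0) := by
    unfold nsq
    symm
    rw [← Finset.sum_subset (box_mono hR)]
    · refine Finset.sum_congr rfl fun y hy => ?_
      rw [Fintype.sum_prod_type, Finset.sum_eq_single i1]
      · unfold fR
        by_cases h : y i0 = k
        · rw [if_pos h]
          refine Finset.sum_congr rfl fun s _ => ?_
          rw [if_pos ⟨hy, h, rfl⟩]
        · rw [if_neg h]
          symm
          refine Finset.sum_eq_zero fun s _ => ?_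
          rw [if_neg (fun h' => h h'.2.1)]; ring
      · intro i _ hi
        refine Finset.sum_eq_zero fun s _ => ?_
        unfold fR
        rw [if_neg (fun h' => hi h'.2.2)]; ring
      · intro h; exact absurd (Finset.mem_univ _) h
    · intro y _ hy
      refine Finset.sum_eq_zero fun a _ => ?_
      unfold fR
      rw [if_neg (fun h' => hy h'.1)]; ring
  rw [h1, box_sum i0 (fun j => if j = k then ∑ s : Fin L, u0 s ^ 2 else 0) R,
    Finset.sum_ite_eq', if_pos (Finset.mem_Icc.2 hk)]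

lemma SR_eq (i0 : Fin D) (m : ℝ) (R : ℕ) :
    (2 * (R : ℝ) + 1) * SR D i0 m R = T1 m R * (2 * (R : ℝ) + 1) ^ D :=
  box_sum i0 (fun k => hh m k ^ 2) R

/-- the norm of the error -/
lemma rR_nsq {i0 i1 : Fin D} (h01 : i0 ≠ i1) {m : ℝ} (hm0 : 0 ≤ m)
    (hm : 2 * Real.cosh m - 2 = lam0 L) (R : ℕ) :
    nsq (L := L) (box D (R + 2)) (rR i0 i1 m (R + 1)) ≤
      (D * L) * C3 D L m ^ 2 * (SR D i0 m (R + 2) - SR D i0 m R) := by
  classical
  unfold nsq SR
  have hC3 : 0 ≤ C3 D L m := by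
    unfold C3
    have hs : 0 ≤ Real.sinh m := Real.sinh_nonneg_iff.2 hm0
    positivity
  rw [← Finset.sum_sdiff (box_mono (D := D) (by omega : R ≤ R + 2))]
  rw [← Finset.sum_sdiff (box_mono (D := D) (by omega : R ≤ R + 2)) (f := fun y => hh m (y i0) ^ 2)]
  rw [add_sub_cancel_right]
  have h1 : ∑ y ∈ box D R, ∑ a, rR (L := L) i0 i1 m (R + 1) y a ^ 2 = 0 := by
    refine Finset.sum_eq_zero fun y hy => Finset.sum_eq_zero fun a _ => ?_
    rw [rR_in h01 hm hy a]; ring
  rw [h1, add_zero, Finset.mul_sum]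
  refine Finset.sum_le_sum fun y _ => ?_
  calc ∑ a, rR (L := L) i0 i1 m (R + 1) y a ^ 2 ≤ ∑ a : Lab D L, (C3 D L m * hh m (y i0)) ^ 2 := by
        refine Finset.sum_le_sum fun a _ => ?_
        rw [← sq_abs]
        exact pow_le_pow_left₀ (abs_nonneg _) (rR_le hm0 (R + 1) y a) 2
    _ = _ := by
        rw [Finset.sum_const, Finset.card_univ, nsmul_eq_mul, Fintype.card_prod, Fintype.card_fin,
          Fintype.card_fin]
        push_cast; ring

/-- the one dimensional sums converge -/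
lemma T1_tendsto {m : ℝ} (hm : 0 < m) : ∃ T : ℝ, Tendsto (T1 m) atTop (nhds T) := by
  have hmono : Monotone (T1 m) := by
    intro R R' h
    unfold T1
    refine Finset.sum_le_sum_of_subset_of_nonneg (Finset.Icc_subset_Icc (by omega) (by omega))
      fun _ _ _ => by positivity
  -- bounded
  have hbd : ∀ R, T1 m R ≤ 2 * ∑' n : ℕ, Real.exp (-(2 * m)) ^ n := by
    intro R
    have hs : Summable fun n : ℕ => Real.exp (-(2 * m)) ^ n :=
      summable_geometric_of_lt_one (Real.exp_pos _).le (by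
        rw [← Real.exp_zero]; exact Real.exp_lt_exp.2 (by linarith))
    have hval : ∀ k : ℤ, hh m k ^ 2 = Real.exp (-(2 * m)) ^ k.natAbs := by
      intro k
      unfold hh
      rw [← Real.exp_nat_mul, ← Real.exp_nat_mul, Nat.cast_natAbs]
      congr 1
      push_cast; ring
    unfold T1
    have h1 : ∑ k ∈ Finset.Icc (-(R : ℤ)) R, hh m k ^ 2 ≤
        ∑ k ∈ (Finset.range (R + 1)).image (fun n : ℕ => (n : ℤ)) ∪
          (Finset.range (R + 1)).image (fun n : ℕ => -(n : ℤ)), hh m k ^ 2 := by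
      refine Finset.sum_le_sum_of_subset_of_nonneg (fun k hk => ?_) fun _ _ _ => by positivity
      rw [Finset.mem_Icc] at hk
      rw [Finset.mem_union, Finset.mem_image, Finset.mem_image]
      rcases le_total 0 k with h | h
      · left; exact ⟨k.toNat, Finset.mem_range.2 (by omega), by omega⟩
      · right; exact ⟨(-k).toNat, Finset.mem_range.2 (by omega), by omega⟩
    refine h1.trans ?_
    have h2 : ∑ k ∈ (Finset.range (R + 1)).image (fun n : ℕ => (n : ℤ)), hh m k ^ 2 ≤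
        ∑' n : ℕ, Real.exp (-(2 * m)) ^ n := by
      rw [Finset.sum_image (fun a _ b _ h => by exact_mod_cast h)]
      simp only [hval, Int.natAbs_natCast]
      exact hs.sum_le_tsum _ fun _ _ => by positivity
    have h3 : ∑ k ∈ (Finset.range (R + 1)).image (fun n : ℕ => -(n : ℤ)), hh m k ^ 2 ≤
        ∑' n : ℕ, Real.exp (-(2 * m)) ^ n := by
      rw [Finset.sum_image (fun a _ b _ h => by
        have : (a : ℤ) = b := by simpa using h
        exact_mod_cast this)]
      simp only [hval, Int.natAbs_neg, Int.natAbs_natCast]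
      exact hs.sum_le_tsum _ fun _ _ => by positivity
    have h4 : ∑ k ∈ (Finset.range (R + 1)).image (fun n : ℕ => (n : ℤ)) ∪
        (Finset.range (R + 1)).image (fun n : ℕ => -(n : ℤ)), hh m k ^ 2 ≤
        ∑ k ∈ (Finset.range (R + 1)).image (fun n : ℕ => (n : ℤ)), hh m k ^ 2 +
        ∑ k ∈ (Finset.range (R + 1)).image (fun n : ℕ => -(n : ℤ)), hh m k ^ 2 := by
      rw [← Finset.sum_union_inter]
      exact le_add_of_nonneg_right (Finset.sum_nonneg fun _ _ => by positivity)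
    linarith
  exact ⟨_, tendsto_atTop_ciSup hmono ⟨_, by rintro _ ⟨R, rfl⟩; exact hbd R⟩⟩

/-- **The error is small relative to the observable.** -/
theorem rR_small (hL : 1 ≤ L) {i0 i1 : Fin D} (h01 : i0 ≠ i1) {m : ℝ} (hm0 : 0 < m)
    (hm : 2 * Real.cosh m - 2 = lam0 L) {η : ℝ} (hη : 0 < η) :
    ∃ R : ℕ, 3 ≤ R ∧ nsq (L := L) (box D (R + 1)) (rR i0 i1 m R) ≤
      η * nsq (L := L) (box D (R + 1)) (fR i0 i1 R 0) ∧
      0 < nsq (L := L) (box D (R + 1)) (fR i0 i1 R 0) := by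
  obtain ⟨T, hT⟩ := T1_tendsto hm0
  have hU : 0 < ∑ s : Fin L, u0 s ^ 2 :=
    Finset.sum_pos (fun s _ => pow_pos (u0_pos s) 2) ⟨⟨0, hL⟩, Finset.mem_univ _⟩
  have hD : 1 ≤ D := by have := i0.2; omega
  obtain ⟨n, rfl⟩ : ∃ n, D = n + 1 := ⟨D - 1, by omega⟩
  -- ratios
  have hSR : ∀ R : ℕ, SR (n + 1) i0 m R = T1 m R * (2 * (R : ℝ) + 1) ^ n := by
    intro R
    have h1 := SR_eq i0 m R
    have h2 : (2 * (R : ℝ) + 1) ≠ 0 := by positivity
    rw [pow_succ] at h1
    have h3 : (2 * (R : ℝ) + 1) * SR (n + 1) i0 m R =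
        (2 * (R : ℝ) + 1) * (T1 m R * (2 * (R : ℝ) + 1) ^ n) := by rw [h1]; ring
    exact mul_left_cancel₀ h2 h3
  have hlin : ∀ c : ℝ, Tendsto (fun R : ℕ => (2 * (R : ℝ) + c) / (2 * (R : ℝ) + 3)) atTop
      (nhds 1) := by
    intro c
    have h1 : Tendsto (fun R : ℕ => 1 + (c - 3) / (2 * (R : ℝ) + 3)) atTop (nhds (1 + 0)) := by
      refine tendsto_const_nhds.add ?_
      refine Tendsto.div_atTop tendsto_const_nhds ?_
      refine Tendsto.atTop_add ?_ tendsto_const_nhds
      exact Tendsto.const_mul_atTop (by norm_num) tendsto_natCast_atTop_atTop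
    rw [add_zero] at h1
    refine h1.congr fun R => ?_
    have : (2 * (R : ℝ) + 3) ≠ 0 := by positivity
    field_simp; ring
  have hq : ∀ c : ℝ, Tendsto (fun R : ℕ => (2 * (R : ℝ) + c) ^ n / (2 * (R : ℝ) + 3) ^ n) atTop
      (nhds 1) := by
    intro c
    have := (hlin c).pow n
    rw [one_pow] at this
    refine this.congr fun R => ?_
    rw [div_pow]
  have hdiff : Tendsto (fun R : ℕ => (SR (n + 1) i0 m (R + 2) - SR (n + 1) i0 m R) /
      (2 * (R : ℝ) + 3) ^ n) atTop (nhds 0) := by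
    have h1 : Tendsto (fun R : ℕ => T1 m (R + 2) * ((2 * (R : ℝ) + 5) ^ n / (2 * (R : ℝ) + 3) ^ n) -
        T1 m R * ((2 * (R : ℝ) + 1) ^ n / (2 * (R : ℝ) + 3) ^ n)) atTop
        (nhds (T * 1 - T * 1)) :=
      ((hT.comp (tendsto_add_atTop_nat 2)).mul (hq 5)).sub (hT.mul (hq 1))
    rw [sub_self] at h1
    refine h1.congr fun R => ?_
    rw [hSR, hSR]
    have : (2 * (R : ℝ) + 3) ^ n ≠ 0 := by positivity
    have e : (2 * ((R + 2 : ℕ) : ℝ) + 1) = 2 * (R : ℝ) + 5 := by push_cast; ring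
    rw [e]
    field_simp
  have hC3 : 0 ≤ (((n + 1 : ℕ) : ℝ) * L) * C3 (n + 1) L m ^ 2 := by positivity
  have hev := (hdiff.const_mul ((((n + 1 : ℕ) : ℝ) * L) * C3 (n + 1) L m ^ 2)).eventually_lt_const
    (u := η * ∑ s : Fin L, u0 s ^ 2) (by rw [mul_zero]; positivity)
  obtain ⟨R, hR, hR2⟩ := (hev.and (eventually_ge_atTop 2)).exists
  have hf : nsq (L := L) (box (n + 1) (R + 1 + 1)) (fR i0 i1 (R + 1) 0) =
      (∑ s : Fin L, u0 s ^ 2) * (2 * (R : ℝ) + 3) ^ n := by
    have h1 := fR_nsq (L := L) (i0 := i0) (i1 := i1) (R := R + 1) (R' := R + 1 + 1)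
      (Nat.le_succ _) (k := 0) (by constructor <;> push_cast <;> linarith [Nat.cast_nonneg (α := ℤ) R])
    have e : (2 * ((R + 1 : ℕ) : ℝ) + 1) = 2 * (R : ℝ) + 3 := by push_cast; ring
    rw [e, pow_succ] at h1
    have h2 : (2 * (R : ℝ) + 3) ≠ 0 := by positivity
    have h3 : (2 * (R : ℝ) + 3) * nsq (L := L) (box (n + 1) (R + 1 + 1)) (fR i0 i1 (R + 1) 0) =
      (2 * (R : ℝ) + 3) * ((∑ s : Fin L, u0 s ^ 2) * (2 * (R : ℝ) + 3) ^ n) := by
      rw [h1]; ring
    exact mul_left_cancel₀ h2 h3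
  refine ⟨R + 1, by omega, ?_, ?_⟩
  · refine (rR_nsq h01 hm0.le hm R).trans ?_
    rw [hf]
    have hpos : 0 < (2 * (R : ℝ) + 3) ^ n := by positivity
    rw [← mul_div_assoc, div_lt_iff₀ hpos] at hR
    refine hR.le.trans (le_of_eq (by ring))
  · rw [hf]; positivity

end

end Pool.Agent.N109.Slab
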