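import Pool.Agent.N109.Slab.Bound
import Pool.Agent.N986.SL.Sym
import Pool.Agent.N986.SL.Lower

/-!
# Upper bound of the mass gap of the slab: the gauge invariant observable
-/

set_option autoImplicit false
set_option linter.unusedSectionVars false
set_option linter.unusedVariables false
set_option linter.style.haveILetI false

open MeasureTheory Matrix Finset Filter
open scoped Matrix.Norms.Frobenius ENNReal

namespace Pool.Agent.N109.Slab

open Pool.Agent.N986.SL

noncomputable section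

variable {N D L : ℕ}

/-! ### the axial field of the transformed configurations -/

section group

variable {G : Type*} [Group G]

lemma hv_shift (v : Fin D → ℤ) (U : Link D L → G) (x : Fin D → ℤ) :
    ∀ n, hv (shift v U) x n = hv U (x + v) n
  | 0 => rfl
  | n + 1 => by
    show hv (shift v U) x n * _ = hv U (x + v) n * _
    rw [hv_shift v U x n]
    rfl

lemma ax_shift (v : Fin D → ℤ) (U : Link D L → G) (x : Fin D → ℤ) (a : Fin D × Fin L) :
    ax (shift v U) x a = ax U (x + v) a := by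
  unfold ax
  rw [hv_shift, hv_shift]
  show _ * U (x + v, some a.1, a.2) * (hv U (x + e a.1 + v) _)⁻¹ = _
  rw [add_right_comm]

lemma hv_refl (i : Fin D) (U : Link D L → G) (x : Fin D → ℤ) :
    ∀ n, hv (refl i U) x n = hv U (N986.SL.th i x) n
  | 0 => rfl
  | n + 1 => by
    show hv (refl i U) x n * (if h : n < L then refl i U (x, none, ⟨n, h⟩) else 1) =
      hv U (N986.SL.th i x) n * (if h : n < L then U (N986.SL.th i x, none, ⟨n, h⟩) else 1)
    rw [hv_refl i U x n]
    congr 1

lemma th_fix {i : Fin D} {x : Fin D → ℤ} (h : x i = 0) : N986.SL.th i x = x := by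
  unfold N986.SL.th
  rw [h, neg_zero]
  conv_rhs => rw [← Function.update_eq_self i x]
  rw [h]

/-- the axial field in the reflection hyperplane is invariant -/
lemma ax_refl {i0 i1 : Fin D} (h01 : i0 ≠ i1) (U : Link D L → G) {x : Fin D → ℤ} (hx : x i0 = 0)
    (s : Fin L) : ax (refl i0 U) x (i1, s) = ax U x (i1, s) := by
  have h1 : (x + e i1) i0 = 0 := by
    rw [Pi.add_apply, e_apply, if_neg h01, hx, add_zero]
  unfold ax
  rw [hv_refl, hv_refl, refl_ne i0 U x (Ne.symm h01), th_fix hx, th_fix h1]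

lemma hv_gt {g : (Fin D → ℤ) → ℕ → G} (hg : ∀ x, g x 0 = 1) (U : Link D L → G)
    (x : Fin D → ℤ) : ∀ n, n ≤ L → hv (gt g U) x n = hv U x n * (g x n)⁻¹
  | 0, _ => by
    show (1 : G) = 1 * (g x 0)⁻¹
    rw [hg]; simp
  | n + 1, h => by
    show hv (gt g U) x n * (if h : n < L then gt g U (x, none, ⟨n, h⟩) else 1) =
      hv U x n * (if h : n < L then U (x, none, ⟨n, h⟩) else 1) * (g x (n + 1))⁻¹
    have h' : n < L := h
    rw [hv_gt hg U x n h'.le, dif_pos h', dif_pos h']
    show hv U x n * (g x n)⁻¹ * (g x n * U (x, none, ⟨n, h'⟩) * (g x (n + 1))⁻¹) = _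
    group

/-- the axial field is gauge invariant -/
lemma ax_gt {g : (Fin D → ℤ) → ℕ → G} (hg : ∀ x, g x 0 = 1) (U : Link D L → G) :
    ax (gt g U) = ax U := by
  funext x ⟨i, s⟩
  have h1 := hv_gt hg U x (s + 1) s.2
  have h2 := hv_gt hg U (x + e i) (s + 1) s.2
  show hv (gt g U) x (s + 1) * (g x (s + 1) * U (x, some i, s) * (g (x + e i) (s + 1))⁻¹) *
    (hv (gt g U) (x + e i) (s + 1))⁻¹ = hv U x (s + 1) * U (x, some i, s) *
      (hv U (x + e i) (s + 1))⁻¹
  rw [h1, h2]
  group

end group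

/-! ### the observable -/

variable {G : Subgroup (N990.UU N)}

/-- The pairing with the test function, as a sum over the hyperplane. -/
lemma pr_fR {i0 i1 : Fin D} {R : ℕ} {k : ℤ} (φ : SF D L) :
    pr (box D (R + 1)) (fR i0 i1 R k) φ =
      ∑ x ∈ (box D R).filter (fun x => x i0 = k), ∑ s : Fin L, u0 s * φ x (i1, s) := by
  rw [pr_mono (box_mono (Nat.le_succ R)) (fun x hx => fR_out hx)]
  unfold pr
  rw [Finset.sum_filter]
  refine Finset.sum_congr rfl fun x hx => ?_
  have hf : ∀ a : Fin D × Fin L, fR i0 i1 R k x a =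
    if x ∈ box D R ∧ x i0 = k ∧ a.1 = i1 then u0 a.2 else 0 := fun a => rfl
  simp only [hf]
  by_cases h : x i0 = k
  · rw [if_pos h, Fintype.sum_prod_type, Finset.sum_eq_single i1]
    · refine Finset.sum_congr rfl fun s _ => ?_
      rw [if_pos ⟨hx, h, rfl⟩]
    · intro j _ hj
      refine Finset.sum_eq_zero fun s _ => ?_
      rw [if_neg (fun h => hj h.2.2), zero_mul]
    · intro h; exact absurd (Finset.mem_univ _) h
  · rw [if_neg h]
    refine Finset.sum_eq_zero fun a _ => ?_
    rw [if_neg (fun h' => h h'.2.1), zero_mul]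

/-- **The observable**: the real part of the `X` component of the gauge invariant transport along the
paths which go up from the wall, one step in the direction `i1`, and down to the wall, averaged over
a hyperplane with the vertical profile of the lowest mode. -/
def Ob (X : N990.Mt N) (i0 i1 : Fin D) (R : ℕ) (U : Link D L → G) : ℝ :=
  ∑ x ∈ (box D R).filter (fun x => x i0 = 0), ∑ s : Fin L,
    u0 s * N990.ip X (N990.mt (ax U x (i1, s)) - 1)

lemma Ob_eq (X : N990.Mt N) (i0 i1 : Fin D) (R : ℕ) (U : Link D L → G) :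
    Ob X i0 i1 R U = pr (box D (R + 1)) (fR i0 i1 R 0) (sc X (ax U)) := by
  rw [pr_fR]
  rfl

lemma Ob_shift (X : N990.Mt N) {i0 i1 : Fin D} {R : ℕ} (hR : 3 ≤ R) (U : Link D L → G) :
    Ob X i0 i1 R (shift (2 • e i0) U) =
      pr (box D (R + 1)) (fR i0 i1 R 2) (sc X (ax U)) := by
  rw [pr_fR]
  unfold Ob
  refine Finset.sum_nbij' (fun x => x + 2 • e i0) (fun x => x - 2 • e i0) ?_ ?_ ?_ ?_ ?_
  · intro x hx
    rw [Finset.mem_filter, mem_box] at hx ⊢
    obtain ⟨h1, h2⟩ := hx
    have h3 : ∀ j, (x + 2 • e i0) j = x j + if j = i0 then 2 else 0 := by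
      intro j
      rw [Pi.add_apply, Pi.smul_apply, e_apply]
      split_ifs <;> simp
    refine ⟨fun j => ?_, ?_⟩
    · rw [h3]
      have := h1 j
      by_cases hj : j = i0
      · subst hj
        rw [if_pos rfl, h2]
        constructor <;> omega
      · rw [if_neg hj, add_zero]; exact this
    · rw [h3, if_pos rfl, h2]; norm_num
  · intro x hx
    rw [Finset.mem_filter, mem_box] at hx ⊢
    obtain ⟨h1, h2⟩ := hx
    have h3 : ∀ j, (x - 2 • e i0) j = x j - if j = i0 then 2 else 0 := by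
      intro j
      rw [Pi.sub_apply, Pi.smul_apply, e_apply]
      split_ifs <;> simp
    refine ⟨fun j => ?_, ?_⟩
    · rw [h3]
      have := h1 j
      by_cases hj : j = i0
      · subst hj
        rw [if_pos rfl, h2]
        constructor <;> omega
      · rw [if_neg hj, sub_zero]; exact this
    · rw [h3, if_pos rfl, h2]; norm_num
  · intro x _; exact add_sub_cancel_right x _
  · intro x _; exact sub_add_cancel x _
  · intro x _
    refine Finset.sum_congr rfl fun s _ => ?_
    rw [ax_shift]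
    rfl

lemma Ob_refl (X : N990.Mt N) {i0 i1 : Fin D} (h01 : i0 ≠ i1) (R : ℕ) (U : Link D L → G) :
    Ob X i0 i1 R (refl i0 U) = Ob X i0 i1 R U := by
  unfold Ob
  refine Finset.sum_congr rfl fun x hx => Finset.sum_congr rfl fun s _ => ?_
  rw [ax_refl h01 U (Finset.mem_filter.1 hx).2]

lemma Ob_gt (X : N990.Mt N) (i0 i1 : Fin D) (R : ℕ) {g : (Fin D → ℤ) → ℕ → G}
    (hg : ∀ x, g x 0 = 1) (U : Link D L → G) : Ob X i0 i1 R (gt g U) = Ob X i0 i1 R U := by
  unfold Ob
  rw [ax_gt hg]

/-- the observable is local -/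
lemma Ob_loc (X : N990.Mt N) {i0 i1 : Fin D} (h01 : i0 ≠ i1) (R : ℕ) :
    Loc (L := L) (G := G) ((box D (R + 1)).filter fun x => x i0 = 0) (Ob X i0 i1 R) := by
  intro U U' h
  unfold Ob
  refine Finset.sum_congr rfl fun x hx => Finset.sum_congr rfl fun s _ => ?_
  obtain ⟨h1, h2⟩ := Finset.mem_filter.1 hx
  have h3 : x ∈ (box D (R + 1)).filter fun x => x i0 = 0 :=
    Finset.mem_filter.2 ⟨box_mono (Nat.le_succ R) h1, h2⟩
  have h4 : x + e i1 ∈ (box D (R + 1)).filter fun x => x i0 = 0 := by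
    rw [Finset.mem_filter, mem_box]
    rw [mem_box] at h1
    have h5 : ∀ j, (x + e i1) j = x j + if j = i1 then 1 else 0 := by
      intro j
      rw [Pi.add_apply, e_apply]
    refine ⟨fun j => ?_, ?_⟩
    · rw [h5]
      have := h1 j
      push_cast
      split_ifs <;> constructor <;> omega
    · rw [h5, if_neg h01, h2]; norm_num
  have e1 : ∀ n, hv U x n = hv U' x n := hv_congr fun s => h (x, none, s) h3
  have e2 : ∀ n, hv U (x + e i1) n = hv U' (x + e i1) n :=
    hv_congr fun s => h (x + e i1, none, s) h4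
  have e3 : ax U x (i1, s) = ax U' x (i1, s) := by
    unfold ax
    rw [e1, e2, h (x, some i1, s) h3]
  rw [e3]

variable [MeasurableSpace G] [BorelSpace G]

lemma Ob_half (X : N990.Mt N) (hX : ‖X‖ = 1) {i0 i1 : Fin D} (h01 : i0 ≠ i1) (R : ℕ) :
    Half (L := L) (G := G) i0 (Ob X i0 i1 R) := by
  haveI := sctG (G := G)
  refine ⟨?_, ?_, ?_⟩
  · have h : (Ob X i0 i1 R : (Link D L → G) → ℝ) = fun U =>
        pr (box D (R + 1)) (fR i0 i1 R 0) (sc X (ax U)) := funext fun U => Ob_eq X i0 i1 R U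
    rw [h]
    exact (pr_meas X _ _).comp ax_meas
  · refine ⟨((box D (R + 1)).card * (D * L)) * (2 * N), fun U => ?_⟩
    rw [Ob_eq]
    exact pr_le (by positivity) fR_le fun x _ a => (sc_le hX _ x a).trans (Yf_le _ x a)
  · exact ⟨_, fun x hx => (Finset.mem_filter.1 hx).2.ge, Ob_loc X h01 R⟩

/-- **The upper bound of the mass gap**: a gauge invariant local observable in the reflection
hyperplane whose correlation decays at most with the rate `m + ε`. -/
theorem upper (hG : IsClosed (G : Set (N990.UU N))) [Infinite G] (μ : Measure G)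
    [IsProbabilityMeasure μ] [μ.IsMulLeftInvariant] (hL : 1 ≤ L) {i0 i1 : Fin D} (h01 : i0 ≠ i1)
    {m : ℝ} (hm0 : 0 < m) (hm : 2 * Real.cosh m - 2 = N990.lam0 L) {ε : ℝ} (hε : 0 < ε) :
    ∃ F : (Link D L → G) → ℝ, Half i0 F ∧ (∀ U, F (refl i0 U) = F U) ∧
      (∀ g : (Fin D → ℤ) → ℕ → G, (∀ x, g x 0 = 1) → ∀ U, F (gt g U) = F U) ∧
      ∃ β₀ ≥ (1 : ℝ), ∀ β ≥ β₀, ∀ P : Measure (Link D L → G), Dlr μ chi β P →
        0 < corr i0 P F 0 ∧
        Real.exp (-(2 * (m + ε))) * corr i0 P F 0 ≤ corr i0 P F 2 := by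
  obtain ⟨X, R, hX, hR, β₀, hβ₀, H⟩ := ax_ratio (D := D) hG μ hL h01 hm0 hm hε
  refine ⟨Ob X i0 i1 R, Ob_half X hX h01 R, Ob_refl X h01 R, fun g hg U => Ob_gt X i0 i1 R hg U,
    β₀, hβ₀, fun β hβ P hP => ?_⟩
  haveI : CompactSpace G := isCompact_iff_compactSpace.1 hG.isCompact
  haveI : SecondCountableTopology (N990.UU N) := sctU
  haveI : SecondCountableTopology G := sctG
  haveI : μ.IsMulRightInvariant := right_invariant μ
  have h1 := (Dlr.gibbs chi_cont hP).axial chi_conj chi_cont.measurable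
    (b := 2 * N) (fun p => ?_)
  · obtain ⟨a1, a2, a3⟩ := H β hβ _ h1
    have m0 : Measurable fun σ : Cf G D L => pr (box D (R + 1)) (fR i0 i1 R 0) (sc X σ) :=
      pr_meas X _ _
    have m2 : Measurable fun σ : Cf G D L => pr (box D (R + 1)) (fR i0 i1 R 2) (sc X σ) :=
      pr_meas X _ _
    have i1' := integral_map (μ := P) (φ := ax) (f := fun σ : Cf G D L =>
      pr (box D (R + 1)) (fR i0 i1 R 0) (sc X σ) ^ 2) ax_meas.aemeasurable
      (m0.pow_const 2).aestronglyMeasurable
    have i2' := integral_map (μ := P) (φ := ax) (f := fun σ : Cf G D L =>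
      pr (box D (R + 1)) (fR i0 i1 R 0) (sc X σ)) ax_meas.aemeasurable
      m0.aestronglyMeasurable
    have i3' := integral_map (μ := P) (φ := ax) (f := fun σ : Cf G D L =>
      pr (box D (R + 1)) (fR i0 i1 R 2) (sc X σ) * pr (box D (R + 1)) (fR i0 i1 R 0) (sc X σ))
      ax_meas.aemeasurable (m2.mul m0).aestronglyMeasurable
    rw [i1', i2'] at a1
    rw [i1', i2', i3'] at a3
    have c0 : corr i0 P (Ob X i0 i1 R) 0 =
        ∫ U, pr (box D (R + 1)) (fR i0 i1 R 0) (sc X (ax U)) ^ 2 ∂P -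
          (∫ U, pr (box D (R + 1)) (fR i0 i1 R 0) (sc X (ax U)) ∂P) ^ 2 := by
      unfold corr
      have e0 : ∀ U : Link D L → G, shift (0 • e i0) U = U := by
        intro U
        funext l
        show U (l.1 + 0 • e i0, l.2) = U l
        rw [zero_smul, add_zero]
      simp only [e0, Ob_refl X h01, Ob_eq]
      simp only [sq]
    have c2 : corr i0 P (Ob X i0 i1 R) 2 =
        ∫ U, pr (box D (R + 1)) (fR i0 i1 R 2) (sc X (ax U)) *
          pr (box D (R + 1)) (fR i0 i1 R 0) (sc X (ax U)) ∂P -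
          (∫ U, pr (box D (R + 1)) (fR i0 i1 R 0) (sc X (ax U)) ∂P) *
            ∫ U, pr (box D (R + 1)) (fR i0 i1 R 0) (sc X (ax U)) ∂P := by
      unfold corr
      simp only [Ob_refl X h01, Ob_shift X hR]
      simp only [Ob_eq, sq]
      congr 1
      refine integral_congr_ae (Filter.Eventually.of_forall fun U => ?_)
      show _ * _ = _ * _
      rw [mul_comm]
    rw [c0, c2]
    exact ⟨a1, a3⟩
  · have h2 := N990.norm_mt_sub_one_sq p
    have h3 := chi_mul_inv (p) (1 : G)
    rw [inv_one, mul_one, N990.mt_one] at h3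
    have h4 : ‖N990.mt p - 1‖ ^ 2 ≤ 4 * N := by
      have h5 := N990.norm_mt_sub_one_sq p
      have : ‖N990.mt p - 1‖ ≤ ‖N990.mt p‖ + ‖(1 : N990.Mt N)‖ := norm_sub_le _ _
      have h6 := N990.norm_mt_sq p
      have h7 := N990.norm_mt_sq (1 : G)
      rw [N990.mt_one] at h7
      have h8 : ‖N990.mt p - 1‖ ^ 2 ≤ (‖N990.mt p‖ + ‖(1 : N990.Mt N)‖) ^ 2 :=
        pow_le_pow_left₀ (norm_nonneg _) this 2
      have h9 : 0 ≤ (‖N990.mt p‖ - ‖(1 : N990.Mt N)‖) ^ 2 := sq_nonneg _
      nlinarith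
    rw [h3, abs_of_nonneg (by positivity)]
    linarith

end

end Pool.Agent.N109.Slab
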